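import Pool.Agent.Lib.Sqf4.Cnt

set_option autoImplicit false

/-!
Binary forms, first range (MP_8842b2_nt): the decomposition of the `α`-box into windows.
-/

namespace Pool.Agent.Lib.SqfH2

open Pool.Agent.Lib.Sqf4

noncomputable section

/-- number of slices -/
theorem card_box0 (d m : ℕ) [NeZero d] : (box0 d m).card = (2 * m + 1) ^ (d - 1) := by
  classical
  unfold box0
  rw [Fintype.card_piFinset]
  have h2 : ∀ j : Fin d, (if j = 0 then ({0} : Finset ℤ) else Finset.Icc (-(m : ℤ)) m).card
      = if j = 0 then 1 else 2 * m + 1 := by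
    intro j
    split_ifs
    · simp
    · rw [Int.card_Icc]
      omega
  rw [Finset.prod_congr rfl (fun j _ => h2 j), Finset.prod_ite, Finset.prod_const_one, one_mul,
    Finset.prod_const]
  congr 1
  rw [Finset.filter_ne', Finset.card_erase_of_mem (Finset.mem_univ _), Finset.card_univ,
    Fintype.card_fin]

/-- COUNTING BY WINDOWS -/
theorem wcount {d : ℕ} [NeZero d] {ι : Type*} [DecidableEq ι] (N : Finset ι)
    (aa : ι → Fin d → ℤ) (m w : ℕ) (hw : 0 < w) (haa : ∀ v ∈ N, ∀ j, |aa v j| ≤ m)
    (bad : Finset (Fin d → ℤ)) (K T : ℝ) (hK0 : 0 ≤ K) (hT0 : 0 ≤ T)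
    (hK : ∀ a, ((N.filter (fun v => aa v = a)).card : ℝ) ≤ K)
    (hT : ∀ b ∈ box0 d m, b ∉ bad → ∀ u : ℤ, |u| ≤ m →
      ∀ F : Finset ι, F ⊆ N → (∀ v ∈ F, ∃ s : ℤ, 0 ≤ s ∧ s < w ∧
        aa v = b + Pi.single 0 u + Pi.single 0 s) → (F.card : ℝ) ≤ T) :
    (N.card : ℝ) ≤ ((2 * m + 1 : ℕ) : ℝ) ^ (d - 1) * ((2 * m / w + 1 : ℕ) : ℝ) * T
      + K * ((bad.card : ℝ) * (2 * m + 1)) := by
  classical
  set red : (Fin d → ℤ) → (Fin d → ℤ) := fun a => Function.update a 0 0 with hred
  set key : ι → (Fin d → ℤ) × ℕ := fun v => (red (aa v), ((aa v 0 + m) / w).toNat) with hkey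
  set M : ℕ := 2 * m / w + 1 with hM
  have hkeymem : ∀ v ∈ N, key v ∈ box0 d m ×ˢ Finset.range M := by
    intro v hv
    rw [Finset.mem_product]
    have ham := haa v hv
    constructor
    · rw [hkey, hred]
      simp only [box0]
      rw [Fintype.mem_piFinset]
      intro j
      by_cases hj : j = 0
      · subst hj
        simp
      · rw [if_neg hj, Function.update_of_ne hj, Finset.mem_Icc]
        exact abs_le.mp (ham j)
    · rw [hkey, hM]
      simp only
      rw [Finset.mem_range]
      have h1 := abs_le.mp (ham 0)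
      have h2 : (aa v 0 + m) / w ≤ (2 * m : ℤ) / w := by
        apply Int.ediv_le_ediv (by exact_mod_cast hw)
        linarith [h1.2]
      have h3 : ((2 * m / w : ℕ) : ℤ) = (2 * m : ℤ) / w := by push_cast; rfl
      have h4 : ((aa v 0 + m) / w).toNat ≤ 2 * m / w := by
        rw [Int.toNat_le, h3]
        exact h2
      omega
  have hNsplit : N.card = (N.filter (fun v => red (aa v) ∈ bad)).card
      + (N.filter (fun v => ¬ (red (aa v) ∈ bad))).card :=
    (Finset.card_filter_add_card_filter_not _).symm
  -- bad part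
  have hbadpart : ((N.filter (fun v => red (aa v) ∈ bad)).card : ℝ)
      ≤ K * ((bad.card : ℝ) * (2 * m + 1)) := by
    have h1 : ∀ v ∈ N.filter (fun v => red (aa v) ∈ bad),
        (red (aa v), aa v 0) ∈ bad ×ˢ Finset.Icc (-(m : ℤ)) m := by
      intro v hv
      rw [Finset.mem_filter] at hv
      rw [Finset.mem_product, Finset.mem_Icc]
      exact ⟨hv.2, abs_le.mp (haa v hv.1 0)⟩
    have h2 := Finset.card_eq_sum_card_fiberwise (f := fun v => (red (aa v), aa v 0)) h1
    have h3 : ((N.filter (fun v => red (aa v) ∈ bad)).card : ℝ)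
        ≤ ∑ b ∈ bad ×ˢ Finset.Icc (-(m : ℤ)) m, K := by
      rw [h2]
      push_cast
      apply Finset.sum_le_sum
      intro b _
      have h4 : (N.filter (fun v => red (aa v) ∈ bad)).filter
          (fun v => (red (aa v), aa v 0) = b)
          ⊆ N.filter (fun v => aa v = Function.update b.1 0 b.2) := by
        intro v hv
        rw [Finset.mem_filter, Finset.mem_filter] at hv
        rw [Finset.mem_filter]
        refine ⟨hv.1.1, ?_⟩
        rw [← hv.2]
        simp [hred]
      refine le_trans ?_ (hK (Function.update b.1 0 b.2))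
      exact_mod_cast Finset.card_le_card h4
    rw [Finset.sum_const, Finset.card_product, nsmul_eq_mul] at h3
    have h5 : (Finset.Icc (-(m : ℤ)) m).card = 2 * m + 1 := by
      rw [Int.card_Icc]
      omega
    rw [h5] at h3
    push_cast at h3
    linarith
  -- good part
  have hgoodfib : ∀ b ∈ box0 d m ×ˢ Finset.range M,
      (((N.filter (fun v => ¬ (red (aa v) ∈ bad))).filter (fun v => key v = b)).card : ℝ)
        ≤ T := by
    intro b hb
    set F := (N.filter (fun v => ¬ (red (aa v) ∈ bad))).filter (fun v => key v = b) with hF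
    rcases F.eq_empty_or_nonempty with he | ⟨n0, hn0⟩
    · rw [he]
      simpa using hT0
    · rw [Finset.mem_product] at hb
      have hn0' := hn0
      rw [hF, Finset.mem_filter, Finset.mem_filter] at hn0'
      obtain ⟨⟨hn0N, hn0bad⟩, hn0key⟩ := hn0'
      set u : ℤ := -(m : ℤ) + b.2 * w with hu
      have hb1 : b.1 = red (aa n0) := by rw [← hn0key]
      have hb10 : b.1 0 = 0 := by rw [hb1, hred]; simp
      have hs : ∀ v ∈ F, 0 ≤ aa v 0 - u ∧ aa v 0 - u < w ∧
          aa v = b.1 + Pi.single 0 u + Pi.single 0 (aa v 0 - u) := by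
        intro v hv
        rw [hF, Finset.mem_filter, Finset.mem_filter] at hv
        obtain ⟨⟨hvN, -⟩, hvkey⟩ := hv
        have h1 : b.1 = red (aa v) := by rw [← hvkey]
        have h2 : b.2 = ((aa v 0 + m) / w).toNat := by rw [← hvkey]
        have h3 := abs_le.mp (haa v hvN 0)
        have h4 : 0 ≤ (aa v 0 + m) / (w : ℤ) := Int.ediv_nonneg (by linarith [h3.1]) (by positivity)
        have h5 : (b.2 : ℤ) = (aa v 0 + m) / w := by
          rw [h2, Int.toNat_of_nonneg h4]
        have h6 := Int.emod_add_mul_ediv (aa v 0 + m) w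
        have h7 := Int.emod_nonneg (aa v 0 + m) (show (w : ℤ) ≠ 0 by positivity)
        have h8 := Int.emod_lt_of_pos (aa v 0 + m) (show (0 : ℤ) < w by positivity)
        have h9 : aa v 0 - u = (aa v 0 + m) % w := by
          rw [hu, h5]
          linarith
        refine ⟨by rw [h9]; exact h7, by rw [h9]; exact h8, ?_⟩
        ext j
        by_cases hj : j = 0
        · subst hj
          simp [hb10]
        · rw [Pi.add_apply, Pi.add_apply, Pi.single_eq_of_ne hj, Pi.single_eq_of_ne hj, add_zero,
            add_zero, h1, hred]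
          simp only
          rw [Function.update_of_ne hj]
      have hu_bd : |u| ≤ m := by
        obtain ⟨h1, h2, -⟩ := hs n0 hn0
        have h3 := abs_le.mp (haa n0 hn0N 0)
        have h4 : -(m : ℤ) ≤ u := by
          rw [hu]
          have : (0 : ℤ) ≤ b.2 * w := by positivity
          linarith
        have h5 : u ≤ m := by linarith [h3.2]
        exact abs_le.2 ⟨h4, h5⟩
      refine hT b.1 hb.1 (by rw [hb1]; exact hn0bad) u hu_bd F ?_ ?_
      · intro v hv
        rw [hF, Finset.mem_filter, Finset.mem_filter] at hv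
        exact hv.1.1
      · intro v hv
        obtain ⟨h1, h2, h3⟩ := hs v hv
        exact ⟨aa v 0 - u, h1, h2, h3⟩
  have hgoodpart : ((N.filter (fun v => ¬ (red (aa v) ∈ bad))).card : ℝ)
      ≤ ((box0 d m).card : ℝ) * M * T := by
    have h1 : ∀ v ∈ N.filter (fun v => ¬ (red (aa v) ∈ bad)),
        key v ∈ box0 d m ×ˢ Finset.range M := by
      intro v hv
      rw [Finset.mem_filter] at hv
      exact hkeymem v hv.1
    have h2 := Finset.card_eq_sum_card_fiberwise (f := key) h1
    rw [h2]
    push_cast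
    refine (Finset.sum_le_sum hgoodfib).trans ?_
    rw [Finset.sum_const, Finset.card_product, Finset.card_range, nsmul_eq_mul]
    push_cast
    exact le_rfl
  rw [card_box0] at hgoodpart
  push_cast at hgoodpart ⊢
  rw [hNsplit]
  push_cast
  linarith

end

end Pool.Agent.Lib.SqfH2
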