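import Pool.Agent.Lib.SqfH2.Form

set_option autoImplicit false

/-!
Binary forms, first range (MP_8842b2_nt): the statements of the two main steps.
-/

namespace Pool.Agent.Lib.SqfH2

open Polynomial

/-- the dyadic bound for the form of the monic irreducible polynomial `f`, `P < p ≤ 2 P` -/
def DyF (f : ℤ[X]) : Prop := ∀ ε : ℝ, 0 < ε → ∃ C : ℝ, 1 ≤ C ∧ ∀ X P : ℝ, C ≤ X →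
  X ^ (2 - 1 / (2 * (f.natDegree : ℝ))) ≤ P → P ≤ X ^ (2 + 1 / (2 * (f.natDegree : ℝ))) →
  ∀ N : Finset (ℤ × ℤ), (∀ v ∈ N, IsCoprime v.1 v.2 ∧ |(v.1 : ℝ)| ≤ X ∧ |(v.2 : ℝ)| ≤ X ∧
    ∃ p : ℕ, p.Prime ∧ P < p ∧ (p : ℝ) ≤ 2 * P ∧ (p : ℤ) ^ 2 ∣ bf f f.natDegree v.1 v.2) →
  (N.card : ℝ) ≤ C * X ^ (2 - 1 / (f.natDegree : ℝ) ^ 2 + ε)

/-- few primitive vectors in the box `[-X, X]^2` such that `p^2 ∣ Φ(v)` for a prime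
`X < p ≤ X^(2+c)` -/
def PrimFew (c η : ℝ) (Φ : ℤ → ℤ → ℤ) : Prop := ∃ C : ℝ, 0 < C ∧ ∀ X : ℝ, 1 ≤ X →
  ∀ N : Finset (ℤ × ℤ), (∀ v ∈ N, IsCoprime v.1 v.2 ∧ |(v.1 : ℝ)| ≤ X ∧ |(v.2 : ℝ)| ≤ X ∧
    ∃ p : ℕ, p.Prime ∧ X < p ∧ (p : ℝ) ≤ X ^ (2 + c) ∧ (p : ℤ) ^ 2 ∣ Φ v.1 v.2) →
  (N.card : ℝ) ≤ C * X ^ (2 - η)

end Pool.Agent.Lib.SqfH2
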