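import Pool.Agent.Lib.Sqf4.Defs

set_option autoImplicit false

/-!
Binary forms, first range (MP_8842b2_nt): a common divisor of `f(w)` and `A(w)` divides the norm.
-/

namespace Pool.Agent.Lib.SqfH2

open Polynomial Matrix Pool.Agent.Lib.Sqf4

noncomputable section

variable {d : ℕ}

private lemma Mod_comp (m : ℕ) (f : ℤ[X]) (hf : f.Monic) (hd : f.natDegree = d) (w : ℤ)
    (h : (m : ℤ) ∣ f.eval w) :
    Matrix.vecMul (fun j : Fin d => (w : ZMod m) ^ (j : ℕ))
        ((Sqf4.comp f d).map (Int.cast : ℤ → ZMod m))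
      = (w : ZMod m) • fun j : Fin d => (w : ZMod m) ^ (j : ℕ) := by
  funext j
  simp only [Matrix.vecMul, dotProduct, Matrix.map_apply, Sqf4.comp, Matrix.of_apply, Pi.smul_apply,
    smul_eq_mul]
  by_cases hj : (j : ℕ) + 1 = d
  · simp only [hj, if_true]
    have h1 : ((f.eval w : ℤ) : ZMod m) = 0 := (ZMod.intCast_zmod_eq_zero_iff_dvd _ _).2 h
    have h2 : f.eval w = w ^ d + ∑ i : Fin d, f.coeff i * w ^ (i : ℕ) := by
      rw [eval_eq_sum_range, hd, Finset.sum_range_succ, Finset.sum_range]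
      have h3 : f.coeff d = 1 := by rw [← hd]; exact hf
      rw [h3]; ring
    rw [h2] at h1
    push_cast at h1
    have h4 : (w : ZMod m) * (w : ZMod m) ^ (j : ℕ) = (w : ZMod m) ^ d := by
      rw [← pow_succ', hj]
    rw [h4]
    have h5 : ∑ i : Fin d, (w : ZMod m) ^ (i : ℕ) * ((- f.coeff i : ℤ) : ZMod m)
        = - ∑ i : Fin d, ((f.coeff i : ℤ) : ZMod m) * (w : ZMod m) ^ (i : ℕ) := by
      rw [← Finset.sum_neg_distrib]
      refine Finset.sum_congr rfl fun i _ => ?_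
      push_cast; ring
    rw [h5]
    linear_combination - h1
  · simp only [hj, if_false]
    have hjd : (j : ℕ) + 1 < d := by
      have := j.isLt
      omega
    rw [Finset.sum_eq_single (⟨(j : ℕ) + 1, hjd⟩ : Fin d)]
    · simp [pow_succ']
    · intro i _ hi
      have : ¬ (i : ℕ) = (j : ℕ) + 1 := by
        intro h2; apply hi; ext; exact h2
      simp [this]
    · intro h2; exact absurd (Finset.mem_univ _) h2

private lemma Mod_pow (m : ℕ) (f : ℤ[X]) (hf : f.Monic) (hd : f.natDegree = d) (w : ℤ)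
    (h : (m : ℤ) ∣ f.eval w) (k : ℕ) :
    Matrix.vecMul (fun j : Fin d => (w : ZMod m) ^ (j : ℕ))
        (((Sqf4.comp f d) ^ k).map (Int.cast : ℤ → ZMod m))
      = (w : ZMod m) ^ k • fun j : Fin d => (w : ZMod m) ^ (j : ℕ) := by
  have hmap : ((Sqf4.comp f d) ^ k).map (Int.cast : ℤ → ZMod m)
      = ((Sqf4.comp f d).map (Int.cast : ℤ → ZMod m)) ^ k :=
    map_pow (Int.castRingHom (ZMod m)).mapMatrix (Sqf4.comp f d) k
  rw [hmap]
  induction k with
  | zero => simp
  | succ k ih =>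
    have hmap' : ((Sqf4.comp f d) ^ k).map (Int.cast : ℤ → ZMod m)
        = ((Sqf4.comp f d).map (Int.cast : ℤ → ZMod m)) ^ k :=
      map_pow (Int.castRingHom (ZMod m)).mapMatrix (Sqf4.comp f d) k
    rw [pow_succ, ← Matrix.vecMul_vecMul, ih hmap', Matrix.smul_vecMul, Mod_comp m f hf hd w h,
      smul_smul, ← pow_succ]

/-- `m ∣ f(w)` and `m ∣ A(w)` imply `m ∣ N(A(θ))` -/
theorem det_mod [NeZero d] (m : ℕ) (f : ℤ[X]) (hf : f.Monic) (hd : f.natDegree = d) (w : ℤ)
    (h : (m : ℤ) ∣ f.eval w) (a : Fin d → ℤ) (ha : (m : ℤ) ∣ ∑ j, a j * w ^ (j : ℕ)) :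
    (m : ℤ) ∣ (mm f a).det := by
  classical
  set M : Matrix (Fin d) (Fin d) (ZMod m) := (mm f a).map (Int.cast : ℤ → ZMod m) with hM
  set v : Fin d → ZMod m := fun j : Fin d => (w : ZMod m) ^ (j : ℕ) with hv
  have h1 : M = ∑ j : Fin d, (a j : ZMod m) • ((Sqf4.comp f d) ^ (j : ℕ)).map (Int.cast : ℤ → ZMod m) := by
    ext i k
    simp only [hM, mm, Matrix.sum_apply, Matrix.map_apply, Matrix.smul_apply, smul_eq_mul]
    push_cast
    rfl
  have h2 : Matrix.vecMul v M = 0 := by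
    rw [h1, Matrix.vecMul_sum]
    have h3 : ∀ j : Fin d, Matrix.vecMul v
        ((a j : ZMod m) • ((Sqf4.comp f d) ^ (j : ℕ)).map (Int.cast : ℤ → ZMod m))
        = ((a j : ZMod m) * (w : ZMod m) ^ (j : ℕ)) • v := by
      intro j
      rw [Matrix.vecMul_smul, Mod_pow m f hf hd w h, smul_smul]
    rw [Finset.sum_congr rfl fun j _ => h3 j, ← Finset.sum_smul]
    have h4 : ∑ j : Fin d, (a j : ZMod m) * (w : ZMod m) ^ (j : ℕ) = 0 := by
      have h5 := (ZMod.intCast_zmod_eq_zero_iff_dvd (∑ j, a j * w ^ (j : ℕ)) m).2 ha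
      push_cast at h5
      exact h5
    rw [h4, zero_smul]
  have h6 : Matrix.vecMul (Matrix.vecMul v M) M.adjugate = M.det • v := by
    rw [Matrix.vecMul_vecMul, Matrix.mul_adjugate, Matrix.vecMul_smul, Matrix.vecMul_one]
  rw [h2, Matrix.zero_vecMul] at h6
  have h7 := congrFun h6 0
  simp only [Pi.zero_apply, Pi.smul_apply, smul_eq_mul, hv, Fin.coe_ofNat_eq_mod, Nat.zero_mod,
    pow_zero, mul_one] at h7
  have h8 : ((mm f a).det : ZMod m) = M.det := (Int.castRingHom (ZMod m)).map_det (mm f a)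
  rw [← ZMod.intCast_zmod_eq_zero_iff_dvd, h8, ← h7]

end

end Pool.Agent.Lib.SqfH2
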