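import Pool.Agent.Lib.SqfH2.Form
import Pool.Agent.Lib.SQF4.TailMul

set_option autoImplicit false

/-!
Binary forms, first range (MP_8842b2_nt): for one prime `p > X` there are at most `50 d` primitive
vectors in the box `[-X, X]^2` with `p^2 ∣ F(v)`.
-/

namespace Pool.Agent.Lib.SqfH2

open Polynomial

noncomputable section

/-- a monic irreducible polynomial is separable over `ℚ` -/
theorem sep_of_irr (f : ℤ[X]) (hf : f.Monic) (hi : Irreducible f) :
    (f.map (Int.castRingHom ℚ)).Separable :=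
  ((IsPrimitive.Int.irreducible_iff_irreducible_map_cast hf.isPrimitive).1 hi).separable

/-- all roots modulo a large prime are simple -/
theorem exists_simple (f : ℤ[X]) (hsep : (f.map (Int.castRingHom ℚ)).Separable) :
    ∃ D0 : ℕ, ∀ p : ℕ, p.Prime → D0 < p → ∀ w : ℤ, (p : ℤ) ∣ f.eval w →
      ¬ (p : ℤ) ∣ f.derivative.eval w := by
  have hco : IsCoprime (f.map (Int.castRingHom ℚ)) (f.derivative.map (Int.castRingHom ℚ)) := by
    rw [← derivative_map]
    exact hsep
  obtain ⟨a, b, R, hR, hab⟩ := Pool.Agent.SQF4.bezout_of_isCoprime f f.derivative hco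
  refine ⟨R.natAbs, fun p _ hpR w h1 h2 => ?_⟩
  have h3 : a.eval w * f.eval w + b.eval w * f.derivative.eval w = R := by
    have := congrArg (Polynomial.eval w) hab
    simpa using this
  have h4 : (p : ℤ) ∣ R := by
    rw [← h3]
    exact dvd_add (h1.mul_left _) (h2.mul_left _)
  have h5 : p ∣ R.natAbs := Int.natCast_dvd.mp h4
  have h6 := Nat.le_of_dvd (Int.natAbs_pos.mpr hR) h5
  omega

/-- proportional primitive vectors -/
theorem eq_or_neg_of_cross {x y x' y' : ℤ} (h : IsCoprime x y) (h' : IsCoprime x' y')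
    (hc : x * y' = x' * y) : (x' = x ∧ y' = y) ∨ (x' = -x ∧ y' = -y) := by
  obtain ⟨u, v, huv⟩ := h
  obtain ⟨u', v', huv'⟩ := h'
  have h1 : x' = x * (u * x' + v * y') := by linear_combination (- x') * huv - v * hc
  have h2 : y' = y * (u * x' + v * y') := by linear_combination (- y') * huv + u * hc
  have h3 : x = x' * (u' * x + v' * y) := by linear_combination (- x) * huv' + v' * hc
  have h4 : y = y' * (u' * x + v' * y) := by linear_combination (- y) * huv' - u' * hc
  set t := u * x' + v * y' with ht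
  set t' := u' * x + v' * y with ht'
  have h5 : t * t' = 1 := by
    have h6 : x = x * t * t' := by rw [← h1]; exact h3
    have h7 : y = y * t * t' := by rw [← h2]; exact h4
    linear_combination (t * t' - 1) * (- huv) - u * h6 - v * h7
  have h8 : t = 1 ∨ t = -1 := Int.isUnit_iff.1 (IsUnit.of_mul_eq_one _ h5)
  rcases h8 with h9 | h9
  · left
    rw [h9, mul_one] at h1 h2
    exact ⟨h1, h2⟩
  · right
    rw [h9] at h1 h2
    exact ⟨by rw [h1]; ring, by rw [h2]; ring⟩

/-- two roots modulo `p^2` which agree modulo `p` -/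
theorem sq_dvd_sub (f : ℤ[X]) {p : ℕ} (hp : p.Prime)
    (hs : ∀ w : ℤ, (p : ℤ) ∣ f.eval w → ¬ (p : ℤ) ∣ f.derivative.eval w) {w w' : ℤ}
    (h : (p : ℤ) ^ 2 ∣ f.eval w) (h' : (p : ℤ) ^ 2 ∣ f.eval w') (hd : (p : ℤ) ∣ w' - w) :
    (p : ℤ) ^ 2 ∣ w' - w := by
  have hpp : Prime (p : ℤ) := Nat.prime_iff_prime_int.1 hp
  obtain ⟨k, hk⟩ := f.binomExpansion w (w' - w)
  rw [add_sub_cancel] at hk
  have h1 : (p : ℤ) ^ 2 ∣ (w' - w) ^ 2 := pow_dvd_pow_of_dvd hd 2
  have h2 : (p : ℤ) ^ 2 ∣ f.derivative.eval w * (w' - w) := by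
    have h3 : f.derivative.eval w * (w' - w) = f.eval w' - f.eval w - k * (w' - w) ^ 2 := by
      rw [hk]; ring
    rw [h3]
    exact dvd_sub (dvd_sub h' h) (h1.mul_left _)
  have h4 := hs w ((dvd_pow_self _ two_ne_zero).trans h)
  exact (IsCoprime.pow_left (hpp.coprime_iff_not_dvd.2 h4)).dvd_of_dvd_mul_left h2

/-- AT MOST `50 d` PRIMITIVE VECTORS for one prime `p > X`. -/
theorem prim_count (f : ℤ[X]) {p : ℕ} (hp : p.Prime)
    (hl : ¬ (p : ℤ) ∣ f.coeff f.natDegree)
    (hs : ∀ w : ℤ, (p : ℤ) ∣ f.eval w → ¬ (p : ℤ) ∣ f.derivative.eval w) (X : ℝ) (hX0 : 0 < X)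
    (hX : X < p) (N : Finset (ℤ × ℤ)) (hN : ∀ v ∈ N, IsCoprime v.1 v.2 ∧ |(v.1 : ℝ)| ≤ X ∧
      |(v.2 : ℝ)| ≤ X ∧ (p : ℤ) ^ 2 ∣ bf f f.natDegree v.1 v.2) :
    N.card ≤ 50 * f.natDegree := by
  classical
  have : Fact p.Prime := ⟨hp⟩
  have hpp : Prime (p : ℤ) := Nat.prime_iff_prime_int.1 hp
  have hcl : ∀ v ∈ N, ∃ w : ℤ, (p : ℤ) ^ 2 ∣ v.1 - w * v.2 ∧ (p : ℤ) ^ 2 ∣ f.eval w := by
    intro v hv
    obtain ⟨h1, -, -, h4⟩ := hN v hv
    exact exists_class f le_rfl h1 hp hl h4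
  choose! w hw1 hw2 using hcl
  set g : (ZMod p)[X] := f.map (Int.castRingHom (ZMod p)) with hg
  have hg0 : g ≠ 0 := by
    intro h0
    apply hl
    have h1 : g.coeff f.natDegree = 0 := by rw [h0, coeff_zero]
    rw [hg, coeff_map] at h1
    exact (ZMod.intCast_zmod_eq_zero_iff_dvd _ _).1 h1
  have hdeg : g.natDegree ≤ f.natDegree := natDegree_map_le
  set key : ℤ × ℤ → ZMod p × ℤ × ℤ := fun v =>
    (((w v : ℤ) : ZMod p), ⌊2 * (v.1 : ℝ) / X⌋, ⌊2 * (v.2 : ℝ) / X⌋) with hkey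
  have hfl : ∀ z : ℤ, |(z : ℝ)| ≤ X → ⌊2 * (z : ℝ) / X⌋ ∈ Finset.Icc (-2 : ℤ) 2 := by
    intro z hz
    have h1 := abs_le.1 hz
    rw [Finset.mem_Icc]
    constructor
    · apply Int.le_floor.2
      rw [le_div_iff₀ hX0]
      push_cast
      linarith [h1.1]
    · have h2 : (⌊2 * (z : ℝ) / X⌋ : ℝ) ≤ 2 := by
        refine (Int.floor_le _).trans ?_
        rw [div_le_iff₀ hX0]
        linarith [h1.2]
      exact_mod_cast h2
  have hmaps : ∀ v ∈ N, key v ∈ g.roots.toFinset ×ˢ (Finset.Icc (-2 : ℤ) 2 ×ˢ Finset.Icc (-2 : ℤ) 2) := by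
    intro v hv
    obtain ⟨-, h2, h3, -⟩ := hN v hv
    rw [Finset.mem_product, Finset.mem_product]
    refine ⟨?_, hfl _ h2, hfl _ h3⟩
    rw [Multiset.mem_toFinset, mem_roots hg0, IsRoot.def, hg, hkey]
    simp only
    rw [eval_map]
    have h4 := (dvd_pow_self (p : ℤ) two_ne_zero).trans (hw2 v hv)
    rw [← ZMod.intCast_zmod_eq_zero_iff_dvd] at h4
    rw [← h4]
    simp
  have hfib : ∀ b ∈ g.roots.toFinset ×ˢ (Finset.Icc (-2 : ℤ) 2 ×ˢ Finset.Icc (-2 : ℤ) 2),
      (N.filter fun v => key v = b).card ≤ 2 := by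
    intro b _
    rcases (N.filter fun v => key v = b).eq_empty_or_nonempty with he | ⟨v, hv⟩
    · rw [he]; simp
    · obtain ⟨hvN, hvb⟩ := Finset.mem_filter.1 hv
      have hsub : (N.filter fun v => key v = b) ⊆ {v, (-v.1, -v.2)} := by
        intro v' hv'
        obtain ⟨hvN', hvb'⟩ := Finset.mem_filter.1 hv'
        have hk : key v' = key v := by rw [hvb, hvb']
        rw [hkey] at hk
        simp only [Prod.mk.injEq] at hk
        obtain ⟨k1, k2, k3⟩ := hk
        obtain ⟨c1, b1, b2, -⟩ := hN v hvN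
        obtain ⟨c1', b1', b2', -⟩ := hN v' hvN'
        have e1 : (p : ℤ) ∣ w v' - w v := by
          rw [← ZMod.intCast_zmod_eq_zero_iff_dvd]
          push_cast
          rw [k1, sub_self]
        have e2 := sq_dvd_sub f hp hs (hw2 v hvN) (hw2 v' hvN') e1
        have e3 : (p : ℤ) ^ 2 ∣ v.1 * v'.2 - v'.1 * v.2 := by
          have e4 : v.1 * v'.2 - v'.1 * v.2 = (v.1 - w v * v.2) * v'.2
              - (v'.1 - w v' * v'.2) * v.2 - (w v' - w v) * (v.2 * v'.2) := by ring
          rw [e4]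
          exact dvd_sub (dvd_sub ((hw1 v hvN).mul_right _) ((hw1 v' hvN').mul_right _))
            (e2.mul_right _)
        have d1 : |(v'.1 : ℝ) - v.1| < X / 2 := by
          have h1 := Int.abs_sub_lt_one_of_floor_eq_floor k2
          rw [← sub_div, ← mul_sub, abs_div, abs_mul, abs_of_pos hX0, div_lt_one hX0] at h1
          rw [abs_of_pos (by norm_num : (0 : ℝ) < 2)] at h1
          linarith
        have d2 : |(v'.2 : ℝ) - v.2| < X / 2 := by
          have h1 := Int.abs_sub_lt_one_of_floor_eq_floor k3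
          rw [← sub_div, ← mul_sub, abs_div, abs_mul, abs_of_pos hX0, div_lt_one hX0] at h1
          rw [abs_of_pos (by norm_num : (0 : ℝ) < 2)] at h1
          linarith
        have e5 : v.1 * v'.2 - v'.1 * v.2 = 0 := by
          by_contra hne
          have h1 := Int.le_of_dvd (abs_pos.2 hne) ((dvd_abs _ _).2 e3)
          have h2 : ((p : ℝ)) ^ 2 ≤ |(v.1 : ℝ) * v'.2 - v'.1 * v.2| := by exact_mod_cast h1
          have h3 : |(v.1 : ℝ) * v'.2 - v'.1 * v.2| < X ^ 2 := by
            have h4 : (v.1 : ℝ) * v'.2 - v'.1 * v.2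
                = v.1 * (v'.2 - v.2) - v.2 * (v'.1 - v.1) := by ring
            rw [h4]
            refine lt_of_le_of_lt (abs_sub _ _) ?_
            rw [abs_mul, abs_mul]
            have h5 : |(v.1 : ℝ)| * |(v'.2 : ℝ) - v.2| ≤ X * |(v'.2 : ℝ) - v.2| :=
              mul_le_mul_of_nonneg_right b1 (abs_nonneg _)
            have h6 : |(v.2 : ℝ)| * |(v'.1 : ℝ) - v.1| ≤ X * |(v'.1 : ℝ) - v.1| :=
              mul_le_mul_of_nonneg_right b2 (abs_nonneg _)
            have h7 : X * |(v'.2 : ℝ) - v.2| < X * (X / 2) := mul_lt_mul_of_pos_left d2 hX0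
            have h8 : X * |(v'.1 : ℝ) - v.1| < X * (X / 2) := mul_lt_mul_of_pos_left d1 hX0
            nlinarith
          have h4 : X ^ 2 ≤ (p : ℝ) ^ 2 := pow_le_pow_left₀ hX0.le hX.le 2
          linarith
        have e6 : v.1 * v'.2 = v'.1 * v.2 := by linarith
        rw [Finset.mem_insert, Finset.mem_singleton]
        rcases eq_or_neg_of_cross c1 c1' e6 with ⟨h1, h2⟩ | ⟨h1, h2⟩
        · left; exact Prod.ext h1 h2
        · right; exact Prod.ext h1 h2
      exact (Finset.card_le_card hsub).trans Finset.card_le_two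
  have hcard := Finset.card_le_mul_card_image_of_maps_to hmaps 2 hfib
  rw [Finset.card_product, Finset.card_product, Int.card_Icc] at hcard
  have h1 : g.roots.toFinset.card ≤ f.natDegree :=
    (Multiset.toFinset_card_le _).trans ((card_roots' g).trans hdeg)
  have h2 : ((2 : ℤ) + 1 - -2).toNat = 5 := by decide
  rw [h2] at hcard
  calc N.card ≤ 2 * (g.roots.toFinset.card * (5 * 5)) := hcard
    _ ≤ 2 * (f.natDegree * (5 * 5)) := by gcongr
    _ = 50 * f.natDegree := by ring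

end

end Pool.Agent.Lib.SqfH2
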