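import Pool.Agent.Lib.SqfH2.RelPQ
import Pool.Agent.Lib.SqfH2.Mod
import Pool.Agent.Lib.SqfH2.Prim
import Pool.Agent.Lib.SqfH2.Cmb
import Pool.Agent.Lib.SqfH2.Defs
import Pool.Agent.Lib.Sqf4.Asm1

set_option autoImplicit false

/-!
Binary forms, first range (MP_8842b2_nt): the dyadic count.
-/

namespace Pool.Agent.Lib.SqfH2

open Polynomial Matrix Pool.Agent.Lib.Sqf4

noncomputable section

/-- the statement of the second step (`step2`), uniform in `L` -/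
def S2 (f : ℤ[X]) : Prop := ∀ (m a : ℕ) (c0 ε : ℝ), 0 < ε → ∃ C : ℝ, 0 < C ∧
  ∀ L : ℕ, 1 ≤ L → ∀ X P0 : ℝ, 2 ≤ X → X ^ 2 ≤ L * P0 →
  ∀ (Ab P Q : ℤ[X]), Ab.natDegree ≤ a → P.natDegree ≤ m → Q.natDegree ≤ m → (P ≠ 0 ∨ Q ≠ 0) →
  (∀ i, |(Ab.coeff i : ℝ)| ≤ X ^ c0) → (∀ i, |(P.coeff i : ℝ)| ≤ X ^ c0) →
  (∀ i, |(Q.coeff i : ℝ)| ≤ X ^ c0) →
  ∀ T : Finset ℤ, (∀ s ∈ T, 2 * |(s : ℝ)| < P0 ∧ ∃ (x y w : ℤ) (p : ℕ), p.Prime ∧ P0 < p ∧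
    X < p ∧ IsCoprime x y ∧ |(x : ℝ)| ≤ X ∧ |(y : ℝ)| ≤ X ∧ (p : ℤ) ^ 2 ∣ x - w * y ∧
    (p : ℤ) ^ 2 ∣ f.eval w ∧ (p : ℤ) ∣ Ab.eval w + s ∧ ¬ (p : ℤ) ^ 2 ∣ Ab.eval w + s ∧
    x * P.eval s = y * Q.eval s) →
  (T.card : ℝ) ≤ C * L * X ^ ε

variable {d : ℕ}

/-- size of the norm -/
lemma det_lt {f : ℤ[X]} [NeZero d] {θ : Fin d → ℂ} (h : Rts f d θ) (C0 : ℝ) (hC0 : 1 ≤ C0)
    (P H : ℝ) (hH : 1 ≤ H) (hP : C0 ^ (d + 1) < P) (hHP : H ^ d ≤ C0 * P)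
    (a : Fin d → ℤ) (ha : a ≠ 0) (hz : ∀ σ, ‖al θ a σ‖ ≤ C0 * H) :
    (mm f a).det ≠ 0 ∧ |((mm f a).det : ℝ)| < P ^ 2 := by
  have hP0 : 0 < P := lt_of_le_of_lt (by positivity) hP
  obtain ⟨hne, hdet⟩ := norm_ne h a ha
  refine ⟨hne, ?_⟩
  have h1 : |((mm f a).det : ℝ)| = ‖((mm f a).det : ℂ)‖ := by rw [Complex.norm_intCast]
  rw [h1, hdet, norm_prod]
  have h2 : ∏ σ, ‖al θ a σ‖ ≤ (C0 * H) ^ d := by
    refine (Finset.prod_le_prod (fun _ _ => norm_nonneg _) (fun σ _ => hz σ)).trans ?_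
    rw [Finset.prod_const, Finset.card_univ, Fintype.card_fin]
  refine lt_of_le_of_lt h2 ?_
  rw [mul_pow]
  calc C0 ^ d * H ^ d ≤ C0 ^ d * (C0 * P) := by
        apply mul_le_mul_of_nonneg_left hHP (by positivity)
    _ = C0 ^ (d + 1) * P := by ring
    _ < P * P := by
        apply mul_lt_mul_of_pos_right hP hP0
    _ = P ^ 2 := by ring

/-- at most `50 d` primitive vectors with the same `α` -/
lemma fibre_alpha {f : ℤ[X]} [NeZero d] {θ : Fin d → ℂ} (h : Rts f d θ) (C0 : ℝ) (hC0 : 1 ≤ C0)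
    (X P H : ℝ) (hX : 0 < X) (hXP : X ≤ P) (hH : 1 ≤ H) (hP : C0 ^ (d + 1) < P)
    (hHP : H ^ d ≤ C0 * P)
    (hs : ∀ p : ℕ, p.Prime → P < p → ∀ w : ℤ, (p : ℤ) ∣ f.eval w → ¬ (p : ℤ) ∣ f.derivative.eval w)
    (a : Fin d → ℤ) (ha : a ≠ 0) (hz : ∀ σ, ‖al θ a σ‖ ≤ C0 * H)
    (S : Finset (ℤ × ℤ)) (hS : ∀ v ∈ S, IsCoprime v.1 v.2 ∧ |(v.1 : ℝ)| ≤ X ∧ |(v.2 : ℝ)| ≤ X ∧
      ∃ p : ℕ, p.Prime ∧ P < p ∧ (p : ℤ) ^ 2 ∣ bf f d v.1 v.2 ∧ (p : ℤ) ∣ (mm f a).det) :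
    S.card ≤ 50 * d := by
  classical
  rcases S.eq_empty_or_nonempty with rfl | ⟨v0, hv0⟩
  · simp
  obtain ⟨-, -, -, p, hp, hPp, -, hpd⟩ := hS v0 hv0
  have hP0 : 0 < P := by linarith
  obtain ⟨hne, hdb⟩ := det_lt h C0 hC0 P H hH hP hHP a ha hz
  have huniq : ∀ q : ℕ, q.Prime → P < q → ((q : ℤ) ∣ (mm f a).det) → q = p := by
    intro q hq hPq hqd
    by_contra hqp
    have hcop : IsCoprime (q : ℤ) (p : ℤ) := by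
      rw [Nat.isCoprime_iff_coprime]
      exact (Nat.coprime_primes hq hp).mpr hqp
    have h1 : (q : ℤ) * p ∣ (mm f a).det := hcop.mul_dvd hqd hpd
    have h2 := Int.le_of_dvd (abs_pos.mpr hne) ((dvd_abs _ _).mpr h1)
    have h3 : ((q : ℝ) * p) ≤ |((mm f a).det : ℝ)| := by
      have : (((q : ℤ) * p : ℤ) : ℝ) ≤ ((|(mm f a).det| : ℤ) : ℝ) := by exact_mod_cast h2
      rw [Int.cast_abs, Int.cast_mul, Int.cast_natCast, Int.cast_natCast] at this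
      exact this
    have h4 : P * P ≤ (q : ℝ) * p := mul_le_mul hPq.le hPp.le hP0.le (by positivity)
    nlinarith
  have hpp : Prime (p : ℤ) := Nat.prime_iff_prime_int.1 hp
  have h1 := prim_count f hp (by
    rw [h.monic.coeff_natDegree]
    exact fun h => hpp.not_isUnit (isUnit_of_dvd_one h)) (hs p hp hPp) X hX
    (by linarith) S (by
      intro v hv
      obtain ⟨h1, h2, h3, q, hq, hPq, hqd, hqdet⟩ := hS v hv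
      have := huniq q hq hPq hqdet
      subst this
      refine ⟨h1, h2, h3, ?_⟩
      rw [h.deg]
      exact hqd)
  rwa [h.deg] at h1

end

end Pool.Agent.Lib.SqfH2
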