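import Mathlib

set_option autoImplicit false

/-!
Binary forms, first range (MP_8842b2_nt): the exponents of the dyadic count, all levels.
-/

namespace Pool.Agent.Lib.SqfH2

noncomputable section

/-- the exponent of the window: `τ = X^(-nuK d)` -/
def nuK (d : ℕ) : ℝ := 2 / (d : ℝ) - (d : ℝ) / ((2 * (d : ℝ) - 1) * ((d : ℝ) - 1))

private lemma pos_q {d : ℕ} (hd : 2 ≤ d) : (0 : ℝ) < (2 * (d : ℝ) - 1) * ((d : ℝ) - 1) := by
  have h1 : (2 : ℝ) ≤ d := by exact_mod_cast hd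
  exact mul_pos (by linarith) (by linarith)

theorem nuK_nonneg {d : ℕ} (hd : 2 ≤ d) : 0 ≤ nuK d := by
  have h1 : (2 : ℝ) ≤ d := by exact_mod_cast hd
  unfold nuK
  rw [sub_nonneg, div_le_div_iff₀ (pos_q hd) (by linarith)]
  nlinarith

/-- `ν (2d-1)(2d-2) = 6 d - 12 + 4 / d` -/
theorem nuK_mul {d : ℕ} (hd : 2 ≤ d) :
    nuK d * ((2 * (d : ℝ) - 1) * (2 * (d : ℝ) - 2)) = 6 * (d : ℝ) - 12 + 4 / (d : ℝ) := by
  have h1 : (2 : ℝ) ≤ d := by exact_mod_cast hd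
  have h4 : (d : ℝ) ≠ 0 := by positivity
  have h5 : (d : ℝ) - 1 ≠ 0 := by linarith
  have h6 : 2 * (d : ℝ) - 1 ≠ 0 := by linarith
  unfold nuK
  field_simp
  ring

private lemma sum_levels (d : ℕ) (hd : 2 ≤ d) :
    d + 2 * ∑ k ∈ Finset.range (d - 1), (k + 2) = d ^ 2 + 2 * d - 2 := by
  obtain ⟨m, rfl⟩ : ∃ m, d = m + 1 := ⟨d - 1, by omega⟩
  simp only [Nat.add_sub_cancel]
  have h3 : ∀ m : ℕ, 2 * ∑ k ∈ Finset.range m, (k + 2) = m * (m + 3) := by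
    intro m
    induction m with
    | zero => simp
    | succ m ih => rw [Finset.sum_range_succ, mul_add, ih]; ring
  have h4 := h3 m
  have h5 : (m + 1) ^ 2 + 2 * (m + 1) - 2 = (m + 1) + m * (m + 3) := by
    have : (m + 1) ^ 2 + 2 * (m + 1) = (m + 1) + m * (m + 3) + 2 := by ring
    omega
  omega

/-- `P^κ ≤ X^(2κ + 3/4)` for `κ = d - 6 + 2/d` -/
private lemma kap_bound {d : ℕ} (hd : 2 ≤ d) {X P : ℝ} (hX : 1 ≤ X) (hP : 0 < P)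
    (hXP : X ^ (2 - 1 / (2 * (d : ℝ))) ≤ P) (hPX : P ≤ X ^ (2 + 1 / (2 * (d : ℝ)))) :
    P ^ ((d : ℝ) - 6 + 2 / d) ≤ X ^ (2 * ((d : ℝ) - 6 + 2 / d) + 3 / 4) := by
  have h1 : (2 : ℝ) ≤ d := by exact_mod_cast hd
  have hX0 : 0 < X := by linarith
  have hd0 : (0 : ℝ) < d := by linarith
  rcases le_or_gt 0 ((d : ℝ) - 6 + 2 / d) with h | h
  · refine (Real.rpow_le_rpow hP.le hPX h).trans ?_
    rw [← Real.rpow_mul hX0.le]
    apply Real.rpow_le_rpow_of_exponent_le hX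
    have h2 : 1 / (2 * (d : ℝ)) * ((d : ℝ) - 6 + 2 / d) ≤ 3 / 4 := by
      have h3 : 1 / (2 * (d : ℝ)) * ((d : ℝ) - 6 + 2 / d)
          = (1 / 2 - 3 / d + 1 / (d : ℝ) ^ 2) := by
        field_simp
        ring
      rw [h3]
      have h4 : 1 / (d : ℝ) ^ 2 ≤ 3 / d := by
        rw [div_le_div_iff₀ (by positivity) hd0]
        nlinarith
      linarith
    linarith
  · have h2 : P ^ ((d : ℝ) - 6 + 2 / d)
        ≤ (X ^ (2 - 1 / (2 * (d : ℝ)))) ^ ((d : ℝ) - 6 + 2 / d) :=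
      Real.rpow_le_rpow_of_nonpos (by positivity) hXP h.le
    refine h2.trans ?_
    rw [← Real.rpow_mul hX0.le]
    apply Real.rpow_le_rpow_of_exponent_le hX
    have h3 : - (1 / (2 * (d : ℝ)) * ((d : ℝ) - 6 + 2 / d)) ≤ 3 / 4 := by
      have h4 : - (1 / (2 * (d : ℝ)) * ((d : ℝ) - 6 + 2 / d))
          = (- (d : ℝ) ^ 2 + 6 * d - 2) / (2 * (d : ℝ) ^ 2) := by
        field_simp
        ring
      rw [h4, div_le_iff₀ (by positivity)]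
      nlinarith
    linarith

/-- THE NUMERICAL CONDITION of the determinant bound -/
theorem num_det {d : ℕ} (hd : 2 ≤ d) {X P H C : ℝ} (hX : 1 ≤ X) (hP : 0 < P) (hC : 0 ≤ C)
    (hH0 : 0 ≤ H) (hH : H ≤ 4 * P ^ (1 / (d : ℝ)))
    (hCX : C * 4 ^ (2 * (d - 1) * (2 * (d + (d - 1))) + (d ^ 2 + 2 * d - 2)) < X)
    (hXP : X ^ (2 - 1 / (2 * (d : ℝ))) ≤ P) (hPX : P ≤ X ^ (2 + 1 / (2 * (d : ℝ)))) :
    C * ((X * H ^ (2 * (d - 1))) ^ (2 * (d + (d - 1))) *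
      H ^ (d + 2 * ∑ k ∈ Finset.range (d - 1), (k + 2)) *
        (X ^ (- nuK d)) ^ ((d + (d - 1)) * (d + (d - 1) - 1))) < (P ^ 2) ^ (2 * (d + (d - 1))) := by
  have h1 : (2 : ℝ) ≤ d := by exact_mod_cast hd
  have hX0 : 0 < X := by linarith
  have hd0 : (0 : ℝ) < d := by linarith
  rw [sum_levels d hd]
  set R : ℝ := P ^ (1 / (d : ℝ)) with hR
  have hR0 : 0 < R := Real.rpow_pos_of_pos hP _
  set N : ℕ := 2 * (d + (d - 1)) with hN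
  set E : ℕ := d ^ 2 + 2 * d - 2 with hE
  have hNR : (N : ℝ) = 4 * d - 2 := by
    rw [hN]
    push_cast [Nat.cast_sub (by omega : 1 ≤ d)]
    ring
  have hER : (E : ℝ) = (d : ℝ) ^ 2 + 2 * d - 2 := by
    rw [hE, Nat.cast_sub (by nlinarith)]
    push_cast
    ring
  have hMM : (((d + (d - 1)) * (d + (d - 1) - 1) : ℕ) : ℝ)
      = (2 * (d : ℝ) - 1) * (2 * (d : ℝ) - 2) := by
    have e1 : d + (d - 1) - 1 = 2 * (d - 1) := by omega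
    rw [e1]
    push_cast [Nat.cast_sub (by omega : 1 ≤ d)]
    ring
  -- powers of H
  have hHpow : (X * H ^ (2 * (d - 1))) ^ N * H ^ E
      ≤ 4 ^ (2 * (d - 1) * N + E) * (X ^ N * R ^ (2 * (d - 1) * N + E)) := by
    have e1 : (X * H ^ (2 * (d - 1))) ^ N * H ^ E = X ^ N * H ^ (2 * (d - 1) * N + E) := by
      rw [mul_pow, ← pow_mul, pow_add]; ring
    rw [e1]
    calc X ^ N * H ^ (2 * (d - 1) * N + E) ≤ X ^ N * (4 * R) ^ (2 * (d - 1) * N + E) := by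
          gcongr
      _ = _ := by rw [mul_pow]; ring
  have hτ : (X ^ (- nuK d)) ^ ((d + (d - 1)) * (d + (d - 1) - 1))
      = X ^ (- (6 * (d : ℝ) - 12 + 4 / (d : ℝ))) := by
    rw [← Real.rpow_natCast (X ^ (- nuK d)), ← Real.rpow_mul hX0.le, hMM, ← nuK_mul hd]
    congr 1
    ring
  rw [hτ]
  -- powers of P
  have hRpow : R ^ (2 * (d - 1) * N + E) = (P ^ 2) ^ N * P ^ ((d : ℝ) - 6 + 2 / d) := by
    have e1 : ((2 * (d - 1) * N + E : ℕ) : ℝ) = 9 * (d : ℝ) ^ 2 - 10 * d + 2 := by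
      push_cast [Nat.cast_sub (by omega : 1 ≤ d)]
      rw [hNR, hER]
      ring
    rw [hR, ← Real.rpow_natCast (P ^ (1 / (d : ℝ))), ← Real.rpow_mul hP.le, e1, ← pow_mul,
      ← Real.rpow_natCast P, ← Real.rpow_add hP]
    congr 1
    push_cast
    rw [hNR]
    field_simp
    ring
  have hXe : X ^ N * X ^ (- (6 * (d : ℝ) - 12 + 4 / (d : ℝ)))
      * X ^ (2 * ((d : ℝ) - 6 + 2 / d) + 3 / 4) = X ^ (-(5 / 4) : ℝ) := by
    rw [← Real.rpow_natCast X, ← Real.rpow_add hX0, ← Real.rpow_add hX0, hNR]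
    congr 1
    have e9 : 4 / (d : ℝ) = 2 * (2 / (d : ℝ)) := by ring
    rw [e9]
    ring
  have hκ := kap_bound hd hX hP hXP hPX
  have hX54 : X ^ (-(5 / 4) : ℝ) ≤ X⁻¹ := by
    rw [← Real.rpow_neg_one]
    exact Real.rpow_le_rpow_of_exponent_le hX (by norm_num)
  calc C * ((X * H ^ (2 * (d - 1))) ^ N * H ^ E * X ^ (- (6 * (d : ℝ) - 12 + 4 / (d : ℝ))))
      ≤ C * (4 ^ (2 * (d - 1) * N + E) * (X ^ N * R ^ (2 * (d - 1) * N + E))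
        * X ^ (- (6 * (d : ℝ) - 12 + 4 / (d : ℝ)))) := by
        gcongr
    _ = (C * 4 ^ (2 * (d - 1) * N + E)) * (P ^ 2) ^ N * (X ^ N *
        X ^ (- (6 * (d : ℝ) - 12 + 4 / (d : ℝ))) * P ^ ((d : ℝ) - 6 + 2 / d)) := by
        rw [hRpow]; ring
    _ ≤ (C * 4 ^ (2 * (d - 1) * N + E)) * (P ^ 2) ^ N * (X ^ N *
        X ^ (- (6 * (d : ℝ) - 12 + 4 / (d : ℝ))) * X ^ (2 * ((d : ℝ) - 6 + 2 / d) + 3 / 4)) := by
        gcongr
    _ = (C * 4 ^ (2 * (d - 1) * N + E)) * (P ^ 2) ^ N * X ^ (-(5 / 4) : ℝ) := by rw [hXe]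
    _ ≤ (C * 4 ^ (2 * (d - 1) * N + E)) * (P ^ 2) ^ N * X⁻¹ := by gcongr
    _ < X * (P ^ 2) ^ N * X⁻¹ := by
        apply mul_lt_mul_of_pos_right _ (by positivity)
        exact mul_lt_mul_of_pos_right hCX (by positivity)
    _ = (P ^ 2) ^ N := by field_simp

/-- the small part `R^(d-1)` -/
theorem numK_b {d : ℕ} (hd : 2 ≤ d) {X P : ℝ} (hX : 1 ≤ X) (hP : 0 < P)
    (hPX : P ≤ X ^ (2 + 1 / (2 * (d : ℝ)))) :
    (P ^ (1 / (d : ℝ))) ^ (d - 1) ≤ X ^ (2 - 1 / (d : ℝ) ^ 2) := by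
  have h1 : (2 : ℝ) ≤ d := by exact_mod_cast hd
  have hX0 : 0 < X := by linarith
  have hd0 : (0 : ℝ) < d := by linarith
  have e1 : ((d - 1 : ℕ) : ℝ) = (d : ℝ) - 1 := by
    push_cast [Nat.cast_sub (by omega : 1 ≤ d)]
    ring
  rw [← Real.rpow_natCast, e1, ← Real.rpow_mul hP.le]
  have h2 : 0 ≤ 1 / (d : ℝ) * ((d : ℝ) - 1) := by
    apply mul_nonneg (by positivity); linarith
  refine (Real.rpow_le_rpow hP.le hPX h2).trans ?_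
  rw [← Real.rpow_mul hX0.le]
  apply Real.rpow_le_rpow_of_exponent_le hX
  have e2 : (2 + 1 / (2 * (d : ℝ))) * (1 / (d : ℝ) * ((d : ℝ) - 1))
      = 2 - 3 / 2 * (1 / (d : ℝ)) - 1 / 2 * (1 / (d : ℝ) ^ 2) := by
    field_simp
    ring
  rw [e2]
  have e3 : 1 / (d : ℝ) ^ 2 ≤ 1 / (d : ℝ) := by
    apply one_div_le_one_div_of_le hd0
    nlinarith
  have e5 : 0 ≤ 1 / (d : ℝ) := by positivity
  linarith

private lemma q_a {d : ℕ} (hd : 2 ≤ d) :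
    3 / 2 * (1 / (d : ℝ) ^ 2) ≤ (d : ℝ) / ((2 * (d : ℝ) - 1) * ((d : ℝ) - 1)) := by
  have h1 : (2 : ℝ) ≤ d := by exact_mod_cast hd
  have e : 3 / 2 * (1 / (d : ℝ) ^ 2) = 3 / (2 * (d : ℝ) ^ 2) := by field_simp
  rw [e, div_le_div_iff₀ (by positivity) (pos_q hd)]
  nlinarith [mul_nonneg (sub_nonneg.2 h1) (sub_nonneg.2 h1),
    mul_nonneg (mul_nonneg (sub_nonneg.2 h1) (sub_nonneg.2 h1)) (sub_nonneg.2 h1)]

private lemma q_b {d : ℕ} (hd : 2 ≤ d) :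
    1 / 2 * (1 / (d : ℝ)) + 1 / 2 * (1 / (d : ℝ) ^ 2)
      ≤ (d : ℝ) / ((2 * (d : ℝ) - 1) * ((d : ℝ) - 1)) := by
  have h1 : (2 : ℝ) ≤ d := by exact_mod_cast hd
  have e : 1 / 2 * (1 / (d : ℝ)) + 1 / 2 * (1 / (d : ℝ) ^ 2)
      = ((d : ℝ) + 1) / (2 * (d : ℝ) ^ 2) := by
    field_simp
  rw [e, div_le_div_iff₀ (by positivity) (pos_q hd)]
  nlinarith

/-- the main part, `X^ν R^(d-1) (X^2 / P + 1)` -/
theorem numK_a {d : ℕ} (hd : 2 ≤ d) {X P : ℝ} (hX : 1 ≤ X) (hP : 0 < P)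
    (hXP : X ^ (2 - 1 / (2 * (d : ℝ))) ≤ P) (hPX : P ≤ X ^ (2 + 1 / (2 * (d : ℝ)))) :
    X ^ (nuK d) * (P ^ (1 / (d : ℝ))) ^ (d - 1) * (X ^ 2 / P + 1)
      ≤ 2 * X ^ (2 - 1 / (d : ℝ) ^ 2) := by
  have h1 : (2 : ℝ) ≤ d := by exact_mod_cast hd
  have hX0 : 0 < X := by linarith
  have hd0 : (0 : ℝ) < d := by linarith
  have e1 : ((d - 1 : ℕ) : ℝ) = (d : ℝ) - 1 := by
    push_cast [Nat.cast_sub (by omega : 1 ≤ d)]
    ring
  have hR : (P ^ (1 / (d : ℝ))) ^ (d - 1) = P ^ (1 - 1 / (d : ℝ)) := by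
    rw [← Real.rpow_natCast, e1, ← Real.rpow_mul hP.le]
    congr 1
    field_simp
  rw [hR]
  have e5 : 0 ≤ 1 / (d : ℝ) := by positivity
  have e6 : 1 / (d : ℝ) ≤ 1 / 2 := one_div_le_one_div_of_le (by norm_num) h1
  have e9 : 2 / (d : ℝ) = 2 * (1 / (d : ℝ)) := by ring
  -- first term
  have t1 : X ^ (nuK d) * P ^ (1 - 1 / (d : ℝ)) * (X ^ 2 / P) ≤ X ^ (2 - 1 / (d : ℝ) ^ 2) := by
    have h2 : P ^ (1 - 1 / (d : ℝ)) * (X ^ 2 / P) = X ^ 2 * P ^ (-(1 / (d : ℝ))) := by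
      rw [Real.rpow_sub hP, Real.rpow_one, Real.rpow_neg hP.le]
      have h3 : P ^ (1 / (d : ℝ)) ≠ 0 := (Real.rpow_pos_of_pos hP _).ne'
      field_simp
    have h3 : P ^ (-(1 / (d : ℝ))) ≤ (X ^ (2 - 1 / (2 * (d : ℝ)))) ^ (-(1 / (d : ℝ))) := by
      apply Real.rpow_le_rpow_of_nonpos (by positivity) hXP
      linarith
    rw [mul_assoc, h2]
    calc X ^ (nuK d) * (X ^ 2 * P ^ (-(1 / (d : ℝ))))
        ≤ X ^ (nuK d) * (X ^ 2 * (X ^ (2 - 1 / (2 * (d : ℝ)))) ^ (-(1 / (d : ℝ)))) := by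
          gcongr
      _ = X ^ (nuK d + (2 + (2 - 1 / (2 * (d : ℝ))) * (-(1 / (d : ℝ))))) := by
          rw [← Real.rpow_mul hX0.le, ← Real.rpow_natCast X 2, ← Real.rpow_add hX0,
            ← Real.rpow_add hX0]
          norm_num
      _ ≤ X ^ (2 - 1 / (d : ℝ) ^ 2) := by
          apply Real.rpow_le_rpow_of_exponent_le hX
          unfold nuK
          have e7 : (2 - 1 / (2 * (d : ℝ))) * (-(1 / (d : ℝ)))
              = - (2 * (1 / (d : ℝ))) + 1 / 2 * (1 / (d : ℝ) ^ 2) := by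
            field_simp
            ring
          rw [e7, e9]
          have := q_a hd
          linarith
  have t2 : X ^ (nuK d) * P ^ (1 - 1 / (d : ℝ)) ≤ X ^ (2 - 1 / (d : ℝ) ^ 2) := by
    have h2 : P ^ (1 - 1 / (d : ℝ)) ≤ (X ^ (2 + 1 / (2 * (d : ℝ)))) ^ (1 - 1 / (d : ℝ)) :=
      Real.rpow_le_rpow hP.le hPX (by linarith)
    calc X ^ (nuK d) * P ^ (1 - 1 / (d : ℝ))
        ≤ X ^ (nuK d) * (X ^ (2 + 1 / (2 * (d : ℝ)))) ^ (1 - 1 / (d : ℝ)) := by gcongr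
      _ = X ^ (nuK d + (2 + 1 / (2 * (d : ℝ))) * (1 - 1 / (d : ℝ))) := by
          rw [← Real.rpow_mul hX0.le, ← Real.rpow_add hX0]
      _ ≤ X ^ (2 - 1 / (d : ℝ) ^ 2) := by
          apply Real.rpow_le_rpow_of_exponent_le hX
          unfold nuK
          have e7 : (2 + 1 / (2 * (d : ℝ))) * (1 - 1 / (d : ℝ))
              = 2 - 3 / 2 * (1 / (d : ℝ)) - 1 / 2 * (1 / (d : ℝ) ^ 2) := by
            field_simp
            ring
          rw [e7, e9]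
          have := q_b hd
          linarith
  calc X ^ (nuK d) * P ^ (1 - 1 / (d : ℝ)) * (X ^ 2 / P + 1)
      = X ^ (nuK d) * P ^ (1 - 1 / (d : ℝ)) * (X ^ 2 / P)
        + X ^ (nuK d) * P ^ (1 - 1 / (d : ℝ)) := by ring
    _ ≤ X ^ (2 - 1 / (d : ℝ) ^ 2) + X ^ (2 - 1 / (d : ℝ) ^ 2) := add_le_add t1 t2
    _ = _ := by ring

end

end Pool.Agent.Lib.SqfH2
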