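import Pool.Agent.Lib.SqfH2.RelPQ

set_option autoImplicit false

/-!
Binary forms, first range (MP_8842b2_nt): the relation `x P(s) = y Q(s)` of one window, with the
columns of all levels.
-/

namespace Pool.Agent.Lib.SqfH2

open Polynomial Matrix Pool.Agent.Lib.Sqf4

noncomputable section

variable {d : ℕ}

/-- the determinant of `N` solutions of one window is zero -/
theorem det_zeroK [NeZero d] (hd : 2 ≤ d) (θ : Fin d → ℂ) (C0 : ℝ) (hC0 : 1 ≤ C0) (K : ℕ) :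
    ∃ C : ℝ, 1 ≤ C ∧ ∀ (X P H τ : ℝ), 1 ≤ X → 1 ≤ H → 0 < P → 0 < τ → τ ≤ 1 →
      C * ((X * H ^ (2 * (d - 1))) ^ (2 * (d + K)) * H ^ (d + 2 * ∑ k ∈ Finset.range K, (k + 2)) *
        τ ^ ((d + K) * (d + K - 1))) < (P ^ 2) ^ (2 * (d + K)) →
      ∀ a : Fin d → ℤ, (∀ σ, ‖al θ a σ‖ ≤ C0 * H) → ∀ PB QB : Fin d → ℤ[X], PBQB θ a PB QB →
      ∀ (s x y : Col d K 2 → ℤ) (p : Col d K 2 → ℕ) (β : Col d K 2 → (Fin d → ℤ)),
        (∀ i, |(s i : ℝ)| ≤ τ * H) → (∀ i, |(x i : ℝ)| ≤ X) → (∀ i, |(y i : ℝ)| ≤ X) →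
        (∀ i, P < p i) → (∀ i, SolF PB QB (p i) (x i) (y i) (s i) (β i)) →
        Matrix.det (Matrix.of fun i c => s i ^ ce c * β i (cj (jj2 hd) c)) = 0 := by
  classical
  obtain ⟨C1, hC1, hdet⟩ := det_windowF (ι := Col d K 2) θ C0 hC0 ce (cj (jj2 hd))
  refine ⟨(2 * (d + K : ℕ) + 1) * C1, ?_, ?_⟩
  · have h2 : (0 : ℝ) ≤ ((d + K : ℕ) : ℝ) := by positivity
    nlinarith
  intro X P H τ hX hH hP hτ0 hτ1 hnum a hz PB QB hPB s x y p β hs hx hy hp hsol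
  have hX0 : (0 : ℝ) < X := by linarith
  have hH0 : (0 : ℝ) < H := by linarith
  have h1 := hdet X P H τ hX hH hP hτ0 hτ1 a hz PB QB hPB s x y p β hs hx hy hp hsol
  have hN : 2 * d + K * 2 = 2 * (d + K) := by ring
  rw [card_Col, sum_ce, hN] at h1
  set S := ∑ k ∈ Finset.range (2 * (d + K) + 1),
    τ ^ (k * (k - 1) / 2 + (2 * (d + K) - k) * (2 * (d + K) - k - 1) / 2) with hS
  have hSle : S ≤ (2 * (d + K : ℕ) + 1) * τ ^ ((d + K) * (d + K - 1)) := by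
    have h2 : ∀ k ∈ Finset.range (2 * (d + K) + 1),
        τ ^ (k * (k - 1) / 2 + (2 * (d + K) - k) * (2 * (d + K) - k - 1) / 2)
          ≤ τ ^ ((d + K) * (d + K - 1)) := by
      intro k hk
      rw [Finset.mem_range] at hk
      exact pow_le_pow_of_le_one hτ0.le hτ1 (ek_ge (d + K) k (by omega))
    refine (Finset.sum_le_sum h2).trans ?_
    rw [Finset.sum_const, Finset.card_range, nsmul_eq_mul]
    push_cast
    exact le_rfl
  have hfin : |((Matrix.det (Matrix.of fun i c => s i ^ ce c * β i (cj (jj2 hd) c)) : ℤ) : ℝ)|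
      < 1 := by
    refine lt_of_le_of_lt h1 ?_
    have hC10 : (0 : ℝ) ≤ C1 := by linarith
    calc (X * H ^ (2 * (d - 1)) / P ^ 2) ^ (2 * (d + K)) *
          H ^ (d + 2 * ∑ k ∈ Finset.range K, (k + 2)) * (C1 * S)
        ≤ (X * H ^ (2 * (d - 1)) / P ^ 2) ^ (2 * (d + K)) *
          H ^ (d + 2 * ∑ k ∈ Finset.range K, (k + 2)) *
          (C1 * ((2 * (d + K : ℕ) + 1) * τ ^ ((d + K) * (d + K - 1)))) := by
          apply mul_le_mul_of_nonneg_left _ (by positivity)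
          exact mul_le_mul_of_nonneg_left hSle hC10
      _ = ((2 * (d + K : ℕ) + 1) * C1 * ((X * H ^ (2 * (d - 1))) ^ (2 * (d + K)) *
          H ^ (d + 2 * ∑ k ∈ Finset.range K, (k + 2)) * τ ^ ((d + K) * (d + K - 1))))
          / (P ^ 2) ^ (2 * (d + K)) := by
          rw [div_pow]
          ring
      _ < 1 := by
          rw [div_lt_one (by positivity)]
          exact hnum
  have h9 : |Matrix.det (Matrix.of fun i c => s i ^ ce c * β i (cj (jj2 hd) c))| < 1 := by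
    have h6 : ((|Matrix.det (Matrix.of fun i c => s i ^ ce c * β i (cj (jj2 hd) c))| : ℤ) : ℝ)
        < ((1 : ℤ) : ℝ) := by
      rw [Int.cast_abs, Int.cast_one]
      exact hfin
    exact_mod_cast h6
  exact Int.abs_lt_one_iff.1 h9

/-- the common relation of a window -/
private theorem rel_windowK [NeZero d] (hd : 2 ≤ d) (θ : Fin d → ℂ) (C0 : ℝ) (hC0 : 1 ≤ C0)
    (K : ℕ) :
    ∃ C : ℝ, 1 ≤ C ∧ ∃ B : ℕ, ∀ (X P H τ : ℝ), 1 ≤ X → 1 ≤ H → 1 ≤ P → P ≤ X ^ 3 →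
      H ^ d ≤ C0 * P → 0 < τ → τ ≤ 1 →
      C * ((X * H ^ (2 * (d - 1))) ^ (2 * (d + K)) * H ^ (d + 2 * ∑ k ∈ Finset.range K, (k + 2)) *
        τ ^ ((d + K) * (d + K - 1))) < (P ^ 2) ^ (2 * (d + K)) →
      ∀ a : Fin d → ℤ, (∀ σ, ‖al θ a σ‖ ≤ C0 * H) →
      ∀ PB QB : Fin d → ℤ[X], PBQB θ a PB QB →
      ∃ g : Col d K 2 → ℤ, g ≠ 0 ∧ (∀ c, |(g c : ℝ)| ≤ C * X ^ B) ∧
        ∀ (s x y : ℤ) (β : Fin d → ℤ), WSolF PB QB X P H τ s x y β →
          ∑ c, g c * (s ^ ce c * β (cj (jj2 hd) c)) = 0 := by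
  classical
  have hd0 : 0 < d := Nat.pos_of_ne_zero (NeZero.ne d)
  have : Nonempty (Col d K 2) := ⟨Sum.inl 0⟩
  obtain ⟨C1, hC1, hdet⟩ := det_zeroK hd θ C0 hC0 K
  obtain ⟨C2, hC2, hbd⟩ := vecF_bound θ C0 hC0
  set C5 : ℝ := C0 ^ (K + 1) * C2 with hC5
  have hC51 : 1 ≤ C5 := one_le_mul_of_one_le_of_one_le (one_le_pow₀ hC0) hC2
  set N : ℕ := 2 * d + K * 2 with hN
  set B : ℕ := 3 * (K + 1) + 10 with hB
  refine ⟨max C1 ((N * (2 * C5)) ^ N), le_trans hC1 (le_max_left _ _), B * N, ?_⟩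
  intro X P H τ hX hH hP hPX hHP hτ0 hτ1 hnum a hz PB QB hPB
  have hX0 : (0 : ℝ) < X := by linarith
  have hH0 : (0 : ℝ) < H := by linarith
  have hHX : H ≤ C0 * X ^ 3 := (le_self_pow₀ hH hd0.ne').trans (hHP.trans (by gcongr))
  have hbd' : ∀ (s x y : ℤ) (β : Fin d → ℤ), WSolF PB QB X P H τ s x y β → ∀ c : Col d K 2,
      |((s ^ ce c * β (cj (jj2 hd) c) : ℤ) : ℝ)| ≤ C5 * X ^ B := by
    intro s x y β hs c
    have h1 := hbd X P H τ hX hH hP hPX hHP hτ0 hτ1 a hz PB QB hPB s x y β hs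
      (Sum.inl (cj (jj2 hd) c))
    simp only [vecF, Sum.elim_inl] at h1
    have h2 : |(s : ℝ)| ≤ C0 * X ^ 3 := (hs.1.trans (by nlinarith)).trans hHX
    have h3 : 1 ≤ C0 * X ^ 3 := one_le_mul_of_one_le_of_one_le hC0 (one_le_pow₀ hX)
    push_cast
    rw [abs_mul, abs_pow]
    calc |(s : ℝ)| ^ ce c * |(β (cj (jj2 hd) c) : ℝ)|
        ≤ (C0 * X ^ 3) ^ (K + 1) * (C2 * X ^ 10) := by
          apply mul_le_mul _ h1 (abs_nonneg _) (by positivity)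
          exact (pow_le_pow_left₀ (abs_nonneg _) h2 _).trans (pow_le_pow_right₀ h3 (ce_le c))
      _ = C5 * X ^ B := by
          rw [hC5, hB, mul_pow, ← pow_mul, pow_add]; ring
  set Kb : ℕ := ⌈C5 * X ^ B⌉₊ with hKb
  have hKX : 1 ≤ C5 * X ^ B := one_le_mul_of_one_le_of_one_le hC51 (one_le_pow₀ hX)
  have hK1 : 1 ≤ Kb := by
    rw [hKb]
    exact Nat.one_le_ceil_iff.mpr (by linarith)
  have hK2 : (Kb : ℝ) ≤ 2 * C5 * X ^ B := by
    have h1 := (Nat.ceil_lt_add_one (by linarith : 0 ≤ C5 * X ^ B)).le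
    rw [← hKb] at h1
    linarith
  set S : Set (Col d K 2 → ℤ) := {v | ∃ s x y β, WSolF PB QB X P H τ s x y β ∧
    v = fun c => s ^ ce c * β (cj (jj2 hd) c)} with hS
  obtain ⟨g, hg0, hg1, hg2⟩ := exists_rel Kb hK1 S (by
      rintro v ⟨s, x, y, β, hs, rfl⟩ j
      have h2 := (hbd' s x y β hs j).trans (Nat.le_ceil _)
      rw [← hKb] at h2
      have h3 : ((|s ^ ce j * β (cj (jj2 hd) j)| : ℤ) : ℝ) ≤ ((Kb : ℤ) : ℝ) := by
        rw [Int.cast_abs, Int.cast_natCast]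
        exact h2
      exact_mod_cast h3)
    (by
      intro v hv
      choose s x y β hs hv' using hv
      have h1 : (Matrix.of v : Matrix (Col d K 2) (Col d K 2) ℤ)
          = Matrix.of fun i c => s i ^ ce c * β i (cj (jj2 hd) c) := by
        ext i j
        rw [Matrix.of_apply, Matrix.of_apply, hv' i]
      rw [h1]
      choose hs1 hs2 hs3 p hp1 hp2 using hs
      refine hdet X P H τ hX hH (by linarith) hτ0 hτ1 ?_ a hz PB QB hPB s x y p β hs1 hs2 hs3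
        hp1 hp2
      refine lt_of_le_of_lt ?_ hnum
      exact mul_le_mul_of_nonneg_right (le_max_left _ _) (by positivity))
  refine ⟨g, hg0, ?_, ?_⟩
  · intro j
    have h1 := hg1 j
    have h2 : ((|g j| : ℤ) : ℝ) ≤ (((((Fintype.card (Col d K 2) * Kb : ℕ) : ℤ)
        ^ Fintype.card (Col d K 2) : ℤ)) : ℝ) := by exact_mod_cast h1
    rw [card_Col, ← hN] at h2
    push_cast at h2
    refine h2.trans ?_
    calc ((N : ℝ) * Kb) ^ N ≤ ((N : ℝ) * (2 * C5 * X ^ B)) ^ N := by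
          gcongr
      _ = (N * (2 * C5)) ^ N * X ^ (B * N) := by
          rw [pow_mul X, ← mul_pow]
          congr 1
          ring
      _ ≤ max C1 ((N * (2 * C5)) ^ N) * X ^ (B * N) :=
          mul_le_mul_of_nonneg_right (le_max_right _ _) (by positivity)
  · intro s x y β hs
    exact hg2 _ ⟨s, x, y, β, hs, rfl⟩

/-- THE RELATION `x P(s) = y Q(s)` of one window. -/
theorem windowK_PQ {f : ℤ[X]} [NeZero d] (hd : 2 ≤ d) {θ : Fin d → ℂ} (h : Rts f d θ) (C0 : ℝ)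
    (hC0 : 1 ≤ C0) (K : ℕ) :
    ∃ C : ℝ, 1 ≤ C ∧ ∃ B : ℕ, ∀ (X P H τ : ℝ), 1 ≤ X → 1 ≤ H → 1 ≤ P → P ≤ X ^ 3 →
      H ^ d ≤ C0 * P → 0 < τ → τ ≤ 1 →
      C * ((X * H ^ (2 * (d - 1))) ^ (2 * (d + K)) * H ^ (d + 2 * ∑ k ∈ Finset.range K, (k + 2)) *
        τ ^ ((d + K) * (d + K - 1))) < (P ^ 2) ^ (2 * (d + K)) →
      ∀ a : Fin d → ℤ, (∀ σ, ‖al θ a σ‖ ≤ C0 * H) → Function.Injective (al θ a) →
      ∃ P1 Q1 : ℤ[X], (P1 ≠ 0 ∨ Q1 ≠ 0) ∧ P1.natDegree ≤ 2 * d + K ∧ Q1.natDegree ≤ 2 * d + K ∧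
        (∀ i, |(P1.coeff i : ℝ)| ≤ C * X ^ B) ∧ (∀ i, |(Q1.coeff i : ℝ)| ≤ C * X ^ B) ∧
        ∀ (s x y n : ℤ) (p : ℕ) (β : Fin d → ℤ), |(s : ℝ)| ≤ τ * H → |(x : ℝ)| ≤ X →
          |(y : ℝ)| ≤ X → P < p → Sol θ p n (a + Pi.single 0 s) β → (p : ℤ) ^ 2 ∣ x - n * y →
          x * P1.eval s = y * Q1.eval s := by
  classical
  have hd0 : 0 < d := Nat.pos_of_ne_zero (NeZero.ne d)
  obtain ⟨C1, hC1, B, hrel⟩ := rel_windowK hd θ C0 hC0 K
  set Wb : ℝ := ∑ j, ∑ σ, ‖W θ j σ‖ with hWb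
  set Θ : ℝ := ∑ σ, ‖θ σ‖ with hΘ
  have hWb0 : 0 ≤ Wb := Finset.sum_nonneg (fun _ _ => Finset.sum_nonneg (fun _ _ => norm_nonneg _))
  have hΘ0 : 0 ≤ Θ := Finset.sum_nonneg (fun _ _ => norm_nonneg _)
  have hWle : ∀ j σ, ‖W θ j σ‖ ≤ Wb := by
    intro j σ
    rw [hWb]
    refine le_trans ?_ (Finset.single_le_sum (f := fun j => ∑ σ, ‖W θ j σ‖)
      (fun _ _ => Finset.sum_nonneg (fun _ _ => norm_nonneg _)) (Finset.mem_univ j))
    exact Finset.single_le_sum (f := fun σ => ‖W θ j σ‖) (fun _ _ => norm_nonneg _) (Finset.mem_univ σ)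
  have hΘle : ∀ σ, ‖θ σ‖ ≤ Θ := fun σ =>
    Finset.single_le_sum (f := fun σ => ‖θ σ‖) (fun _ _ => norm_nonneg _) (Finset.mem_univ σ)
  set C4 : ℝ := (2 * d + K * 2 : ℕ) * (C1 * (d * ((1 + Θ) * (Wb * ((2 * C0) ^ (2 * d) * C0 ^ 2)))))
    with hC4
  have hC40 : 0 ≤ C4 := by positivity
  refine ⟨C1 + C4, by linarith, B + 6, ?_⟩
  intro X P H τ hX hH hP hPX hHP hτ0 hτ1 hnum a hz hinj
  have hX0 : (0 : ℝ) < X := by linarith
  have hH0 : (0 : ℝ) < H := by linarith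
  obtain ⟨PB, QB, hPB⟩ := exists_PBQB h a
  obtain ⟨g, hg0, hgb, hsum⟩ := hrel X P H τ hX hH hP hPX hHP hτ0 hτ1 (by
    refine lt_of_le_of_lt ?_ hnum
    exact mul_le_mul_of_nonneg_right (by linarith) (by positivity)) a hz PB QB hPB
  have hZ : (1 + C0 * H) ^ (2 * d) ≤ (2 * C0) ^ (2 * d) * C0 ^ 2 * X ^ 6 := by
    have hHdX : H ^ d ≤ C0 * X ^ 3 := hHP.trans (by gcongr)
    calc (1 + C0 * H) ^ (2 * d) ≤ (2 * C0 * H) ^ (2 * d) := by
          apply pow_le_pow_left₀ (by positivity)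
          nlinarith
      _ = (2 * C0) ^ (2 * d) * (H ^ d) ^ 2 := by
          rw [mul_pow, mul_comm 2 d, ← pow_mul H]
      _ ≤ (2 * C0) ^ (2 * d) * (C0 * X ^ 3) ^ 2 := by gcongr
      _ = _ := by ring
  set M : ℝ := d * ((1 + Θ) * (Wb * ((2 * C0) ^ (2 * d) * C0 ^ 2 * X ^ 6))) with hM
  have hM0 : 0 ≤ M := by positivity
  have hbP : ∀ j i, |((PB j).coeff i : ℝ)| ≤ M := by
    intro j i
    refine (hPB.coeff_P_bd Wb (C0 * H) (by positivity) hz hWb0 hWle j i).trans ?_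
    rw [hM]
    apply mul_le_mul_of_nonneg_left _ (by positivity)
    have h1 : Wb * (1 + C0 * H) ^ (2 * d) ≤ Wb * ((2 * C0) ^ (2 * d) * C0 ^ 2 * X ^ 6) :=
      mul_le_mul_of_nonneg_left hZ hWb0
    have h2 : 0 ≤ Wb * ((2 * C0) ^ (2 * d) * C0 ^ 2 * X ^ 6) := by positivity
    nlinarith
  have hbQ : ∀ j i, |((QB j).coeff i : ℝ)| ≤ M := by
    intro j i
    refine (hPB.coeff_Q_bd Wb (C0 * H) Θ (by positivity) hz hWb0 hWle hΘ0 hΘle j i).trans ?_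
    rw [hM]
    apply mul_le_mul_of_nonneg_left _ (by positivity)
    apply mul_le_mul (by linarith) _ (by positivity) (by positivity)
    exact mul_le_mul_of_nonneg_left hZ hWb0
  have hG0 : 0 ≤ C1 * X ^ B := by positivity
  have hlast : ((2 * d + K * 2 : ℕ) : ℝ) * (C1 * X ^ B * M) ≤ (C1 + C4) * X ^ (B + 6) := by
    calc ((2 * d + K * 2 : ℕ) : ℝ) * (C1 * X ^ B * M) = C4 * X ^ (B + 6) := by
          rw [hM, hC4, pow_add]; ring
      _ ≤ (C1 + C4) * X ^ (B + 6) := by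
          apply mul_le_mul_of_nonneg_right _ (by positivity)
          linarith
  have hdegP : ∀ j, (PB j).natDegree ≤ 2 * (d - 1) := hPB.natDegree_P
  have hdegQ : ∀ j, (QB j).natDegree ≤ 2 * (d - 1) := hPB.natDegree_Q
  refine ⟨comb (jj2 hd) PB g, comb (jj2 hd) QB g, ?_, ?_, ?_, ?_, ?_, ?_⟩
  · by_contra hcon
    push Not at hcon
    exact hg0 (surf_indep hd PB QB (2 * (d - 1)) hdegP hdegQ (hPB.coeff_P h.inj)
      (hPB.coeff_Q h.inj hd) (hPB.level_one h.inj hinj) K g hcon.1 hcon.2)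
  · have := comb_natDegree (jj2 hd) PB _ hdegP g
    omega
  · have := comb_natDegree (jj2 hd) QB _ hdegQ g
    omega
  · intro i
    exact (comb_coeff_bd (jj2 hd) PB g _ M hG0 hM0 hgb hbP i).trans hlast
  · intro i
    exact (comb_coeff_bd (jj2 hd) QB g _ M hG0 hM0 hgb hbQ i).trans hlast
  · intro s x y n p β hs hx hy hp hsol hdvd
    obtain ⟨k, hk⟩ := hdvd
    have hsolF : SolF PB QB p x y s (fun j => y * β j + k * (PB j).eval s) := by
      intro j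
      have h2 := hPB.rel h.inj hsol j
      simp only
      linear_combination y * h2 - (PB j).eval s * hk
    have h1 := hsum s x y (fun j => y * β j + k * (PB j).eval s) ⟨hs, hx, hy, p, hp, hsolF⟩
    rw [comb_eval, comb_eval]
    have h4 : (p : ℤ) ^ 2 * ∑ c, g c * (s ^ ce c *
        (fun j => y * β j + k * (PB j).eval s) (cj (jj2 hd) c)) = 0 := by
      rw [h1, mul_zero]
    have h5 : (p : ℤ) ^ 2 * ∑ c, g c * (s ^ ce c *
        (fun j => y * β j + k * (PB j).eval s) (cj (jj2 hd) c))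
        = x * ∑ c, g c * (s ^ ce c * (PB (cj (jj2 hd) c)).eval s)
          - y * ∑ c, g c * (s ^ ce c * (QB (cj (jj2 hd) c)).eval s) := by
      rw [Finset.mul_sum, Finset.mul_sum, Finset.mul_sum, ← Finset.sum_sub_distrib]
      refine Finset.sum_congr rfl fun c _ => ?_
      have h2 := hsolF (cj (jj2 hd) c)
      linear_combination (g c * s ^ ce c) * h2
    rw [h4] at h5
    linarith

end

end Pool.Agent.Lib.SqfH2
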