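import Pool.Agent.Lib.SqfH2.Asm
import Pool.Agent.Lib.SqfH2.RelK
import Pool.Agent.Lib.SqfH2.NumK

set_option autoImplicit false

/-!
Binary forms, first range (MP_8842b2_nt): the count in one window.
-/

namespace Pool.Agent.Lib.SqfH2

open Polynomial Matrix Pool.Agent.Lib.Sqf4

noncomputable section

variable {d : ℕ}

/-- the polynomial with coefficients `a` -/
def polA (a : Fin d → ℤ) : ℤ[X] := ∑ j : Fin d, C (a j) * X ^ (j : ℕ)

lemma polA_coeff (a : Fin d → ℤ) (i : ℕ) :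
    (polA a).coeff i = if h : i < d then a ⟨i, h⟩ else 0 := by
  simp only [polA, finsetSum_coeff, coeff_C_mul, coeff_X_pow]
  split_ifs with h
  · rw [Finset.sum_eq_single (⟨i, h⟩ : Fin d)]
    · simp
    · intro j _ hj
      have : ¬ i = (j : ℕ) := by
        intro h2; apply hj; ext; exact h2.symm
      simp [this]
    · intro h2; exact absurd (Finset.mem_univ _) h2
  · apply Finset.sum_eq_zero
    intro j _
    have : ¬ i = (j : ℕ) := by
      intro h2; exact h (by rw [h2]; exact j.isLt)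
    simp [this]

lemma polA_natDegree (a : Fin d → ℤ) : (polA a).natDegree ≤ d := by
  apply natDegree_sum_le_of_forall_le
  intro i _
  refine (natDegree_C_mul_X_pow_le _ _).trans ?_
  exact i.isLt.le

lemma polA_eval [NeZero d] (a : Fin d → ℤ) (w s : ℤ) :
    (polA a).eval w + s = ∑ j : Fin d, (a + Pi.single 0 s : Fin d → ℤ) j * w ^ (j : ℕ) := by
  have h1 : ∑ j : Fin d, (a + Pi.single 0 s : Fin d → ℤ) j * w ^ (j : ℕ)
      = ∑ j : Fin d, a j * w ^ (j : ℕ) + ∑ j : Fin d, (Pi.single 0 s : Fin d → ℤ) j * w ^ (j : ℕ) := by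
    rw [← Finset.sum_add_distrib]
    refine Finset.sum_congr rfl fun j _ => ?_
    rw [Pi.add_apply]; ring
  rw [h1]
  congr 1
  · simp [polA, eval_finsetSum]
  · rw [Finset.sum_eq_single (0 : Fin d)]
    · simp
    · intro j _ hj
      simp [Pi.single_eq_of_ne hj]
    · intro h; exact absurd (Finset.mem_univ _) h

/-- THE COUNT IN ONE WINDOW -/
theorem window_count {f : ℤ[X]} [NeZero d] (hd : 2 ≤ d) {θ : Fin d → ℂ} (h : Rts f d θ)
    (hS : S2 f) (C0 : ℝ)
    (hC0 : 1 ≤ C0) (ε : ℝ) (hε : 0 < ε) : ∃ C : ℝ, 1 ≤ C ∧ ∀ (X P H τ : ℝ) (L : ℕ), C ≤ X →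
    X ≤ P → P ≤ X ^ 3 → 1 ≤ H → 2 * H < P → H ^ d ≤ C0 * P → 0 < τ → τ ≤ 1 →
    C * ((X * H ^ (2 * (d - 1))) ^ (2 * (d + (d - 1))) *
      H ^ (d + 2 * ∑ k ∈ Finset.range (d - 1), (k + 2)) *
        τ ^ ((d + (d - 1)) * (d + (d - 1) - 1))) < (P ^ 2) ^ (2 * (d + (d - 1))) →
    1 ≤ L → X ^ 2 ≤ L * P →
    ∀ a : Fin d → ℤ, (∀ j, |(a j : ℝ)| ≤ H) → (∀ σ, ‖al θ a σ‖ ≤ C0 * H) →
    Function.Injective (al θ a) →
    ∀ T : Finset ℤ, (∀ s ∈ T, |(s : ℝ)| ≤ τ * H ∧ ∃ (x y w : ℤ) (p : ℕ) (β : Fin d → ℤ),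
      p.Prime ∧ P < p ∧ IsCoprime x y ∧ |(x : ℝ)| ≤ X ∧ |(y : ℝ)| ≤ X ∧
      (p : ℤ) ^ 2 ∣ x - w * y ∧ (p : ℤ) ^ 2 ∣ f.eval w ∧
      (p : ℤ) ∣ ∑ j : Fin d, (a + Pi.single 0 s : Fin d → ℤ) j * w ^ (j : ℕ) ∧
      ¬ (p : ℤ) ^ 2 ∣ ∑ j : Fin d, (a + Pi.single 0 s : Fin d → ℤ) j * w ^ (j : ℕ) ∧
      Sol θ p w (a + Pi.single 0 s) β) →
    (T.card : ℝ) ≤ C * L * X ^ ε := by
  classical
  obtain ⟨Cr, hCr, B, hrel⟩ := windowK_PQ hd h C0 hC0 (d - 1)
  obtain ⟨C2, hC2, hstep⟩ := hS (2 * d + (d - 1)) d ((B + 5 : ℕ) : ℝ) ε hε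
  refine ⟨Cr + C2 + 2, by linarith, ?_⟩
  intro X P H τ L hX hXP hPX hH hHP2 hHP hτ0 hτ1 hnum hL hXL a haH hz hinj T hT
  have hX2 : 2 ≤ X := by linarith
  have hX1 : 1 ≤ X := by linarith
  have hX0 : 0 < X := by linarith
  have hP1 : 1 ≤ P := by linarith
  obtain ⟨P1, Q1, hP0, hPd, hQd, hPc, hQc, hxy⟩ := hrel X P H τ hX1 hH hP1 hPX hHP hτ0 hτ1 (by
    refine lt_of_le_of_lt ?_ hnum
    exact mul_le_mul_of_nonneg_right (by linarith) (by positivity)) a hz hinj
  have hpow : ∀ t : ℝ, t ≤ Cr * X ^ B → t ≤ X ^ (((B + 5 : ℕ) : ℝ)) := by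
    intro t ht
    rw [Real.rpow_natCast]
    calc t ≤ Cr * X ^ B := ht
      _ ≤ X * X ^ B := by
          apply mul_le_mul_of_nonneg_right _ (by positivity)
          linarith
      _ = X ^ (B + 1) := by ring
      _ ≤ X ^ (B + 5) := pow_le_pow_right₀ hX1 (by omega)
  have hA : ∀ i, |((polA a).coeff i : ℝ)| ≤ X ^ (((B + 5 : ℕ) : ℝ)) := by
    intro i
    rw [polA_coeff, Real.rpow_natCast]
    have h1 : H ≤ X ^ (B + 5) := by
      calc H ≤ P := by linarith
        _ ≤ X ^ 3 := hPX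
        _ ≤ X ^ (B + 5) := pow_le_pow_right₀ hX1 (by omega)
    split_ifs
    · exact (haH _).trans h1
    · simp
      positivity
  have h1 := hstep L hL X P hX2 hXL (polA a) P1 Q1 (polA_natDegree a) hPd hQd hP0 hA
    (fun i => hpow _ (hPc i)) (fun i => hpow _ (hQc i)) T (by
      intro s hs
      obtain ⟨hs1, x, y, w, p, β, hp, hPp, hco, hx, hy, hxw, hfw, hpA, hpA2, hsol⟩ := hT s hs
      refine ⟨?_, x, y, w, p, hp, hPp, by linarith, hco, hx, hy, hxw, hfw, ?_, ?_, ?_⟩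
      · have : |(s : ℝ)| ≤ H := hs1.trans (by nlinarith)
        linarith
      · rw [polA_eval]; exact hpA
      · rw [polA_eval]; exact hpA2
      · exact hxy s x y w p β hs1 hx hy hPp hsol hxw)
  refine h1.trans ?_
  have h2 : 0 ≤ (L : ℝ) * X ^ ε := by positivity
  calc C2 * L * X ^ ε = C2 * (L * X ^ ε) := by ring
    _ ≤ (Cr + C2 + 2) * (L * X ^ ε) := mul_le_mul_of_nonneg_right (by linarith) h2
    _ = _ := by ring

/-- THE DYADIC COUNT. -/
theorem dyF_of (f : ℤ[X]) (hm : f.Monic) (hi : Irreducible f) (hd : 2 ≤ f.natDegree)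
    (hS : S2 f) : DyF f := by
  classical
  intro ε hε
  obtain ⟨d, hdd⟩ : ∃ d, d = f.natDegree := ⟨_, rfl⟩
  rw [← hdd] at hd
  have hne : NeZero d := ⟨by omega⟩
  obtain ⟨θ, h⟩ : ∃ θ : Fin d → ℂ, Rts f d θ := by
    subst hdd
    exact exists_rts f hm hi
  obtain ⟨Ca, hCa, hal⟩ := al_bound θ
  obtain ⟨D0, hsolv⟩ := exists_sol h
  obtain ⟨D1, hsimple⟩ := exists_simple f (sep_of_irr f hm hi)
  obtain ⟨Cb, hCb, hbad⟩ := cnt_bad hd θ h.inj
  have hd0 : 0 < d := by omega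
  have hdR : (2 : ℝ) ≤ d := by exact_mod_cast hd
  set C0 : ℝ := Ca + 4 ^ d with hC0
  have h4d : (1 : ℝ) ≤ 4 ^ d := one_le_pow₀ (by norm_num)
  have hC0' : 1 ≤ C0 := by linarith
  obtain ⟨Cw, hCw, hwin⟩ := window_count hd h hS C0 hC0' ε hε
  set K : ℝ := 50 * d with hK
  have hK0 : 0 ≤ K := by positivity
  set C1 : ℝ := 8 ^ (d - 1) * 4 * (K * (Cw * 2)) * 2 with hC1
  set C2 : ℝ := K * (Cb * 8 ^ (d - 1)) with hC2
  have hC10 : 0 ≤ C1 := by positivity
  have hC20 : 0 ≤ C2 := by positivity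
  set C3 : ℝ := Cw * 4 ^ (2 * (d - 1) * (2 * (d + (d - 1))) + (d ^ 2 + 2 * d - 2)) with hC3
  have hC30 : 0 ≤ C3 := by positivity
  set C : ℝ := C0 ^ (d + 1) + 1 + D0 + D1 + C1 + C2 + Cw + C3 + 100 with hC
  have hC01 : (0 : ℝ) ≤ C0 ^ (d + 1) := by positivity
  have hD00 : (0 : ℝ) ≤ D0 := by positivity
  have hD10 : (0 : ℝ) ≤ D1 := by positivity
  refine ⟨C, by linarith, ?_⟩
  rw [← hdd]
  intro X P hCX hXP hPX N hN
  have hX1 : 1 ≤ X := by linarith
  have hX0 : 0 < X := by linarith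
  have hX100 : 100 ≤ X := by linarith
  -- X ≤ X^(7/4) ≤ P ≤ X^3
  have hX74 : X ^ (7 / 4 : ℝ) ≤ P := by
    refine le_trans ?_ hXP
    apply Real.rpow_le_rpow_of_exponent_le hX1
    have : 1 / (2 * (d : ℝ)) ≤ 1 / 4 := by
      apply one_div_le_one_div_of_le (by norm_num)
      linarith
    linarith
  have hXleP : X ≤ P := by
    refine le_trans ?_ hX74
    calc X = X ^ (1 : ℝ) := (Real.rpow_one X).symm
      _ ≤ X ^ (7 / 4 : ℝ) := Real.rpow_le_rpow_of_exponent_le hX1 (by norm_num)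
  have hP0 : 0 < P := by linarith
  have hP1 : 1 ≤ P := by linarith
  have hPX3 : P ≤ X ^ 3 := by
    refine hPX.trans ?_
    rw [← Real.rpow_natCast X 3]
    apply Real.rpow_le_rpow_of_exponent_le hX1
    have : 1 / (2 * (d : ℝ)) ≤ 1 := by
      rw [div_le_one (by positivity)]
      linarith
    push_cast
    linarith
  set R : ℝ := P ^ (1 / (d : ℝ)) with hR
  have hR1 : 1 ≤ R := Real.one_le_rpow hP1 (by positivity)
  have hRd : R ^ d = P := by
    rw [hR, ← Real.rpow_natCast, ← Real.rpow_mul hP0.le]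
    rw [one_div_mul_cancel (by positivity), Real.rpow_one]
  have hRsq : R ^ 2 ≤ P := by
    rw [← hRd]
    exact pow_le_pow_right₀ hR1 hd
  set m : ℕ := ⌊2 * R⌋₊ with hm'
  set H : ℝ := (m : ℝ) + 1 with hH
  have hmR : (m : ℝ) ≤ 2 * R := Nat.floor_le (by linarith)
  have hRm : 2 * R < H := Nat.lt_floor_add_one _
  have hH4 : H ≤ 4 * R := by linarith
  have hH1 : 1 ≤ H := by linarith
  have hHd : H ^ d ≤ C0 * P := by
    calc H ^ d ≤ (4 * R) ^ d := pow_le_pow_left₀ (by linarith) hH4 _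
      _ = 4 ^ d * P := by rw [mul_pow, hRd]
      _ ≤ C0 * P := by
          apply mul_le_mul_of_nonneg_right _ (by linarith)
          linarith
  have h2P : 2 * P < H ^ d := by
    have h1 : (2 * R) ^ d < H ^ d := pow_lt_pow_left₀ hRm (by linarith) hd0.ne'
    have h2 : 2 * P ≤ (2 * R) ^ d := by
      rw [mul_pow, hRd]
      have : (2 : ℝ) ≤ 2 ^ d := by
        calc (2 : ℝ) = 2 ^ 1 := by norm_num
          _ ≤ 2 ^ d := pow_le_pow_right₀ (by norm_num) hd0
      nlinarith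
    linarith
  have h2HP : 2 * H < P := by
    have h1 : 8 * R < P := by
      by_contra hcon
      push Not at hcon
      have h2 : R ^ 2 ≤ 8 * R := hRsq.trans hcon
      have h3 : R ≤ 8 := by nlinarith
      have h4 : P ≤ 64 := by linarith
      linarith
    linarith
  -- choose the data
  have hchoice : ∀ v : ℤ × ℤ, v ∈ N → ∃ (p : ℕ) (a : Fin d → ℤ) (w : ℤ) (β : Fin d → ℤ),
      p.Prime ∧ P < p ∧ (p : ℤ) ^ 2 ∣ bf f d v.1 v.2 ∧ (p : ℤ) ^ 2 ∣ v.1 - w * v.2 ∧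
      (p : ℤ) ^ 2 ∣ f.eval w ∧ a ≠ 0 ∧ (∀ j, |a j| ≤ m) ∧ ((p : ℤ) ∣ ∑ j, a j * w ^ (j : ℕ)) ∧
      ((p : ℤ) ∣ (mm f a).det) ∧ Sol θ p w a β := by
    intro v hv
    obtain ⟨hco, -, -, p, hp, hPp, hp2, hpf⟩ := hN v hv
    have hpp : Prime (p : ℤ) := Nat.prime_iff_prime_int.1 hp
    obtain ⟨w, hw1, hw2⟩ := exists_class f (hdd.ge) hco hp (by
      rw [hdd, hm.coeff_natDegree]
      exact fun h => hpp.not_isUnit (isUnit_of_dvd_one h)) hpf
    have hpm : p < (m + 1) ^ d := by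
      have : (p : ℝ) < ((m + 1) ^ d : ℕ) := by
        push_cast
        rw [← hH]
        linarith
      exact_mod_cast this
    obtain ⟨a, ha0, ham, hpa⟩ := pig p m hp.pos hpm w
    have hD0p : D0 < p := by
      have h1 : (D0 : ℝ) < p := by linarith
      exact_mod_cast h1
    obtain ⟨hpd, β, hβ⟩ := hsolv p hp hD0p w hw2 a ha0 hpa
    exact ⟨p, a, w, β, hp, hPp, hpf, hw1, hw2, ha0, ham, hpa, hpd, hβ⟩
  choose! pp aa ww ββ hpp hPpp hppf hw1 hw2 haa0 haam hppa hppd hsol using hchoice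
  have hCa0 : Ca ≤ C0 := by linarith
  have hmH : (m : ℝ) ≤ H := by linarith
  have hzz : ∀ v ∈ N, ∀ σ, ‖al θ (aa v) σ‖ ≤ C0 * H := by
    intro v hv σ
    refine (hal _ H (by linarith) ?_ σ).trans (mul_le_mul_of_nonneg_right hCa0 (by linarith))
    intro j
    have h1 := haam v hv j
    have h2 : ((|aa v j| : ℤ) : ℝ) ≤ ((m : ℤ) : ℝ) := by exact_mod_cast h1
    push_cast at h2
    linarith
  -- fibre over one alpha
  have hfib : ∀ (a : Fin d → ℤ), ((N.filter (fun v => aa v = a)).card : ℝ) ≤ K := by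
    intro a
    rcases (N.filter (fun v => aa v = a)).eq_empty_or_nonempty with he | ⟨v0, hv0⟩
    · rw [he]
      simpa using hK0
    · rw [Finset.mem_filter] at hv0
      have h1 := fibre_alpha h C0 hC0' X P H hX0 hXleP hH1 (by linarith) hHd (by
          intro p hp hPp w hw
          exact hsimple p hp (by
            have h1 : (D1 : ℝ) < p := by linarith
            exact_mod_cast h1) w hw) a (by rw [← hv0.2]; exact haa0 v0 hv0.1)
        (by rw [← hv0.2]; exact hzz v0 hv0.1) (N.filter (fun v => aa v = a)) (by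
          intro v hv
          rw [Finset.mem_filter] at hv
          obtain ⟨h1, h2, h3, -⟩ := hN v hv.1
          refine ⟨h1, h2, h3, pp v, hpp v hv.1, hPpp v hv.1, hppf v hv.1, ?_⟩
          have := hppd v hv.1
          rwa [hv.2] at this)
      rw [hK]
      exact_mod_cast h1
  -- the window
  set τ : ℝ := X ^ (- nuK d) with hτ
  have hτ0 : 0 < τ := Real.rpow_pos_of_pos hX0 _
  have hτ1 : τ ≤ 1 := Real.rpow_le_one_of_one_le_of_nonpos hX1 (by
    have := nuK_nonneg hd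
    linarith)
  have hnum := num_det hd hX1 hP0 (by linarith : (0 : ℝ) ≤ Cw) (by linarith : (0 : ℝ) ≤ H) hH4
    (by rw [← hC3]; linarith) hXP hPX
  rw [← hτ] at hnum
  set L : ℕ := ⌈X ^ 2 / P⌉₊ with hL
  have hL1 : 1 ≤ L := by
    rw [hL]
    exact Nat.one_le_ceil_iff.mpr (by positivity)
  have hXL : X ^ 2 ≤ L * P := by
    have h1 := Nat.le_ceil (X ^ 2 / P)
    rw [← hL, div_le_iff₀ hP0] at h1
    exact h1
  have hLle : (L : ℝ) ≤ X ^ 2 / P + 1 := (Nat.ceil_lt_add_one (by positivity)).le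
  set w : ℕ := ⌊τ * H⌋₊ + 1 with hw
  have hw0 : 0 < w := by omega
  have hwτ : τ * H < w := by
    rw [hw]
    push_cast
    exact Nat.lt_floor_add_one _
  set bad : Finset (Fin d → ℤ) := (box0 d m).filter fun a =>
    ∃ σ ρ, σ ≠ ρ ∧ ‖al θ a σ - al θ a ρ‖ ≤ 0 with hbadd
  set T : ℝ := K * (Cw * L * X ^ ε) with hT
  have hT0 : 0 ≤ T := by positivity
  have hcount := wcount N aa m w hw0 haam bad K T hK0 hT0 hfib (by
    intro b hb hbbad u hu F hFN hF
    rcases F.eq_empty_or_nonempty with he | ⟨v0, hv0⟩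
    · rw [he]; simpa using hT0
    set base : Fin d → ℤ := b + Pi.single 0 u with hbase
    have hb0 : b 0 = 0 := by
      have := hb
      rw [box0, Fintype.mem_piFinset] at this
      have h1 := this 0
      simpa using h1
    have hbasebd : ∀ j, |(base j : ℝ)| ≤ H := by
      intro j
      by_cases hj : j = 0
      · subst hj
        have h1 : base 0 = u := by simp [hbase, hb0]
        rw [h1]
        have h2 : ((|u| : ℤ) : ℝ) ≤ ((m : ℤ) : ℝ) := by exact_mod_cast hu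
        push_cast at h2
        linarith
      · have h1 : base j = b j := by
          rw [hbase, Pi.add_apply, Pi.single_eq_of_ne hj, add_zero]
        rw [h1]
        have h2 := hb
        rw [box0, Fintype.mem_piFinset] at h2
        have h3 := h2 j
        rw [if_neg hj, Finset.mem_Icc] at h3
        have h4 : |b j| ≤ (m : ℤ) := abs_le.2 h3
        have h5 : ((|b j| : ℤ) : ℝ) ≤ ((m : ℤ) : ℝ) := by exact_mod_cast h4
        push_cast at h5
        linarith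
    have hzb : ∀ σ, ‖al θ base σ‖ ≤ C0 * H := by
      intro σ
      refine (hal _ H (by linarith) hbasebd σ).trans ?_
      exact mul_le_mul_of_nonneg_right hCa0 (by linarith)
    have hinjb : Function.Injective (al θ base) := by
      intro σ ρ hσρ
      by_contra hne
      apply hbbad
      rw [hbadd, Finset.mem_filter]
      refine ⟨hb, σ, ρ, hne, ?_⟩
      have h1 := hσρ
      rw [hbase, al_add_single, al_add_single] at h1
      have h2 : al θ b σ = al θ b ρ := add_left_cancel h1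
      rw [h2, sub_self, norm_zero]
    choose! s hs0 hsw hsa using hF
    have hcardT := hwin X P H τ L (by linarith) hXleP hPX3 hH1 h2HP hHd hτ0 hτ1 hnum hL1 hXL base
      hbasebd hzb hinjb (F.image s) (by
        intro t ht
        obtain ⟨v, hv, rfl⟩ := Finset.mem_image.1 ht
        have hvN := hFN hv
        obtain ⟨hco, hx, hy, -⟩ := hN v hvN
        refine ⟨?_, v.1, v.2, ww v, pp v, ββ v, hpp v hvN, hPpp v hvN, hco, hx, hy, hw1 v hvN,
          hw2 v hvN, ?_, ?_, ?_⟩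
        · have h1 := hs0 v hv
          have h2 := hsw v hv
          have h3 : (s v).toNat ≤ ⌊τ * H⌋₊ := by omega
          have h4 : ((s v).toNat : ℝ) ≤ τ * H := by
            calc (((s v).toNat : ℕ) : ℝ) ≤ (⌊τ * H⌋₊ : ℝ) := by exact_mod_cast h3
              _ ≤ τ * H := Nat.floor_le (by positivity)
          have h5 : (((s v).toNat : ℕ) : ℤ) = s v := Int.toNat_of_nonneg h1
          have h6 : (((s v).toNat : ℕ) : ℝ) = ((s v : ℤ) : ℝ) := by
            exact_mod_cast congrArg (Int.cast : ℤ → ℝ) h5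
          rw [h6] at h4
          rw [abs_of_nonneg (by exact_mod_cast h1)]
          exact h4
        · rw [← hsa v hv]; exact hppa v hvN
        · rw [← hsa v hv]
          intro hdvd
          have h1 : (((pp v) ^ 2 : ℕ) : ℤ) ∣ (mm f (aa v)).det := by
            apply det_mod ((pp v) ^ 2) f hm hdd.symm (ww v)
            · push_cast; exact hw2 v hvN
            · push_cast; exact hdvd
          obtain ⟨hne0, hlt⟩ := det_lt h C0 hC0' P H hH1 (by linarith) hHd (aa v) (haa0 v hvN)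
            (hzz v hvN)
          have h2 := Int.le_of_dvd (abs_pos.mpr hne0) ((dvd_abs _ _).mpr h1)
          have h3 : ((pp v : ℝ)) ^ 2 ≤ |((mm f (aa v)).det : ℝ)| := by
            have : ((((pp v) ^ 2 : ℕ) : ℤ) : ℝ) ≤ ((|(mm f (aa v)).det| : ℤ) : ℝ) := by
              exact_mod_cast h2
            rw [Int.cast_abs, Int.cast_natCast, Nat.cast_pow] at this
            exact this
          have h4 : P ^ 2 ≤ (pp v : ℝ) ^ 2 := pow_le_pow_left₀ hP0.le (hPpp v hvN).le 2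
          linarith
        · rw [← hsa v hv]; exact hsol v hvN)
    have h1 : (F.card : ℝ) ≤ K * ((F.image s).card : ℝ) := by
      have h2 : F.card = ∑ t ∈ F.image s, (F.filter (fun v => s v = t)).card :=
        Finset.card_eq_sum_card_image s F
      rw [h2]
      push_cast
      have h3 : ∀ t ∈ F.image s, ((F.filter (fun v => s v = t)).card : ℝ) ≤ K := by
        intro t _
        refine le_trans ?_ (hfib (base + Pi.single 0 t))
        have h4 : F.filter (fun v => s v = t) ⊆ N.filter (fun v => aa v = base + Pi.single 0 t) := by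
          intro v hv
          rw [Finset.mem_filter] at hv ⊢
          refine ⟨hFN hv.1, ?_⟩
          rw [← hv.2]
          exact hsa v hv.1
        exact_mod_cast Finset.card_le_card h4
      refine (Finset.sum_le_sum h3).trans ?_
      rw [Finset.sum_const, nsmul_eq_mul, mul_comm]
    refine h1.trans ?_
    rw [hT]
    exact mul_le_mul_of_nonneg_left hcardT hK0)
  -- sizes
  have h2m : ((2 * m + 1 : ℕ) : ℝ) ≤ 8 * R := by
    push_cast
    linarith
  have h2m0 : (0 : ℝ) ≤ ((2 * m + 1 : ℕ) : ℝ) := by positivity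
  have hMb2 : ((2 * m / w + 1 : ℕ) : ℝ) ≤ 4 * (1 / τ) := by
    push_cast
    have h1 : ((2 * m / w : ℕ) : ℝ) ≤ ((2 * m : ℕ) : ℝ) / w := Nat.cast_div_le
    have h2 : ((2 * m : ℕ) : ℝ) / w ≤ 2 * (1 / τ) := by
      rw [div_le_iff₀ (by exact_mod_cast hw0)]
      push_cast
      have h4 : 1 / τ * (τ * H) ≤ 1 / τ * w := mul_le_mul_of_nonneg_left hwτ.le (by positivity)
      have h5 : 1 / τ * (τ * H) = H := by field_simp
      rw [h5] at h4
      nlinarith
    have h3 : 1 ≤ 1 / τ := by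
      rw [le_div_iff₀ hτ0]
      linarith
    linarith
  have h1τ : 1 / τ = X ^ (nuK d) := by
    rw [hτ, Real.rpow_neg hX0.le, one_div, inv_inv]
  have hgood : ((2 * m + 1 : ℕ) : ℝ) ^ (d - 1) * ((2 * m / w + 1 : ℕ) : ℝ) * T
      ≤ C1 * (X ^ (2 - 1 / (d : ℝ) ^ 2) * X ^ ε) := by
    have h1 : ((2 * m + 1 : ℕ) : ℝ) ^ (d - 1) ≤ 8 ^ (d - 1) * R ^ (d - 1) := by
      rw [← mul_pow]
      exact pow_le_pow_left₀ h2m0 h2m _
    have h2 : T ≤ K * (Cw * (X ^ 2 / P + 1) * X ^ ε) := by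
      rw [hT]
      gcongr
    have h3 := numK_a hd hX1 hP0 hXP hPX
    rw [← hR] at h3
    calc ((2 * m + 1 : ℕ) : ℝ) ^ (d - 1) * ((2 * m / w + 1 : ℕ) : ℝ) * T
        ≤ (8 ^ (d - 1) * R ^ (d - 1)) * (4 * X ^ (nuK d)) *
          (K * (Cw * (X ^ 2 / P + 1) * X ^ ε)) := by
          rw [← h1τ]
          gcongr
      _ = 8 ^ (d - 1) * 4 * (K * Cw) * X ^ ε * (X ^ (nuK d) * R ^ (d - 1) * (X ^ 2 / P + 1)) := by
          ring
      _ ≤ 8 ^ (d - 1) * 4 * (K * Cw) * X ^ ε * (2 * X ^ (2 - 1 / (d : ℝ) ^ 2)) := by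
          gcongr
      _ ≤ C1 * (X ^ (2 - 1 / (d : ℝ) ^ 2) * X ^ ε) := by
          rw [hC1]
          have h4 : 0 ≤ 8 ^ (d - 1) * 4 * (K * Cw) * X ^ ε * (2 * X ^ (2 - 1 / (d : ℝ) ^ 2)) := by
            positivity
          nlinarith
  have hbadle : K * ((bad.card : ℝ) * (2 * m + 1)) ≤ C2 * X ^ (2 - 1 / (d : ℝ) ^ 2) := by
    have h1 := hbad m 0 le_rfl
    rw [← hbadd] at h1
    have h2 : (2 * (m : ℝ) + 1) ≤ 8 * R := by linarith
    have h3 : (bad.card : ℝ) * (2 * m + 1) ≤ Cb * (2 * m + 1) ^ (d - 1) := by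
      calc (bad.card : ℝ) * (2 * m + 1) ≤ (Cb * (2 * m + 1) ^ (d - 2) * (0 + 1)) * (2 * m + 1) :=
            mul_le_mul_of_nonneg_right h1 (by positivity)
        _ = Cb * (2 * m + 1) ^ (d - 1) := by
            have : d - 1 = (d - 2) + 1 := by omega
            rw [this, pow_succ]
            ring
    have h4 := numK_b hd hX1 hP0 hPX
    rw [← hR] at h4
    calc K * ((bad.card : ℝ) * (2 * m + 1)) ≤ K * (Cb * (2 * m + 1) ^ (d - 1)) :=
          mul_le_mul_of_nonneg_left h3 hK0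
      _ ≤ K * (Cb * (8 * R) ^ (d - 1)) := by
          gcongr
      _ = C2 * R ^ (d - 1) := by
          rw [hC2, mul_pow]
          ring
      _ ≤ C2 * X ^ (2 - 1 / (d : ℝ) ^ 2) := mul_le_mul_of_nonneg_left h4 hC20
  refine hcount.trans ?_
  have hXε : 1 ≤ X ^ ε := Real.one_le_rpow hX1 hε.le
  have hY0 : 0 ≤ X ^ (2 - 1 / (d : ℝ) ^ 2) := by positivity
  have hfin : X ^ (2 - 1 / (d : ℝ) ^ 2 + ε) = X ^ (2 - 1 / (d : ℝ) ^ 2) * X ^ ε :=
    Real.rpow_add hX0 _ _
  rw [hfin]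
  have h5 : X ^ (2 - 1 / (d : ℝ) ^ 2) ≤ X ^ (2 - 1 / (d : ℝ) ^ 2) * X ^ ε :=
    le_mul_of_one_le_right hY0 hXε
  have h6 : C2 * X ^ (2 - 1 / (d : ℝ) ^ 2) ≤ C2 * (X ^ (2 - 1 / (d : ℝ) ^ 2) * X ^ ε) :=
    mul_le_mul_of_nonneg_left h5 hC20
  have h7 : (C1 + C2) * (X ^ (2 - 1 / (d : ℝ) ^ 2) * X ^ ε)
      ≤ C * (X ^ (2 - 1 / (d : ℝ) ^ 2) * X ^ ε) := by
    apply mul_le_mul_of_nonneg_right _ (by positivity)
    linarith
  linarith

end

end Pool.Agent.Lib.SqfH2
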