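import Pool.Agent.Lib.Sqf4.DetN

set_option autoImplicit false

/-!
Binary forms, first range (MP_8842b2_nt): the determinant of a window, rows with two
parameters `u`, `v` in the place of `n` and `1`.
-/

namespace Pool.Agent.Lib.SqfH2

open Polynomial Matrix Pool.Agent.Lib.Sqf4

noncomputable section

/-- expansion of a determinant whose rows are sums of two multiples -/
private lemma DetF_expand {n : Type*} [Fintype n] [DecidableEq n]
    (k : n → Bool → ℂ) (G : n → Bool → n → ℂ) :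
    Matrix.det (Matrix.of fun i c => ∑ t, k i t * G i t c) =
      ∑ r : n → Bool, (∏ i, k i (r i)) * Matrix.det (Matrix.of fun i c => G i (r i) c) := by
  classical
  have h1 : ∀ M : Matrix n n ℂ,
      M.det = (Matrix.detRowAlternating (n := n) (R := ℂ)).toMultilinearMap M := fun _ => rfl
  rw [h1]
  have h2 : (Matrix.of fun i c => ∑ t, k i t * G i t c) =
      (fun i : n => ∑ t, (k i t • G i t : n → ℂ)) := by
    funext i c
    simp [Finset.sum_apply]
  rw [h2, MultilinearMap.map_sum]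
  refine Finset.sum_congr rfl ?_
  intro r _
  rw [MultilinearMap.map_smul_univ, smul_eq_mul]
  rfl

/-- THE DETERMINANT OF A WINDOW for binary forms.  Rows `i : ι`, columns `c : ι`, entry
`x_i^(e c) * ∑ σ, w (jc c) σ * (u_i - v_i θ_σ) * ∏_(ρ ≠ σ) (x_i + z_ρ)^2`, with `|x_i| ≤ τ ≤ 1`,
`|u_i|, |v_i| ≤ 1`, `|z_ρ| ≤ C0`, `N = card ι`.  Then the determinant is at most
`C * ∑_(k ≤ N) τ^(C(k,2) + C(N-k,2))`. -/
theorem det_bdF {d : ℕ} {ι : Type*} [Fintype ι] [DecidableEq ι]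
    (w : Matrix (Fin d) (Fin d) ℂ) (θ : Fin d → ℂ) (C0 : ℝ)
    (hC0 : 1 ≤ C0) (e : ι → ℕ) (jc : ι → Fin d) : ∃ C : ℝ, 1 ≤ C ∧
    ∀ (z : Fin d → ℂ) (_ : ∀ ρ, ‖z ρ‖ ≤ C0) (τ : ℝ) (_ : 0 ≤ τ) (_ : τ ≤ 1)
      (x u v : ι → ℝ) (_ : ∀ i, |x i| ≤ τ) (_ : ∀ i, |u i| ≤ 1) (_ : ∀ i, |v i| ≤ 1),
      ‖Matrix.det (Matrix.of fun i c : ι => (x i : ℂ) ^ (e c) *
          ∑ σ, w (jc c) σ * ((u i : ℂ) - (v i : ℂ) * θ σ)
            * (∏ ρ ∈ Finset.univ.erase σ, ((x i : ℂ) + z ρ)) ^ 2)‖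
        ≤ C * ∑ k ∈ Finset.range (Fintype.card ι + 1), τ ^ (k * (k - 1) / 2 +
            (Fintype.card ι - k) * (Fintype.card ι - k - 1) / 2) := by
  classical
  obtain ⟨C1, hC1, hdet⟩ := det_bdN w θ C0 hC0 e jc
  have h4 : (1 : ℝ) ≤ 4 ^ (Fintype.card ι) := one_le_pow₀ (by norm_num)
  refine ⟨4 ^ (Fintype.card ι) * C1, one_le_mul_of_one_le_of_one_le h4 hC1, ?_⟩
  intro z hz τ hτ hτ1 x u v hx hu hv
  set V : ℝ := ∑ k ∈ Finset.range (Fintype.card ι + 1), τ ^ (k * (k - 1) / 2 +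
            (Fintype.card ι - k) * (Fintype.card ι - k - 1) / 2) with hV
  have hV0 : 0 ≤ V := Finset.sum_nonneg (fun k _ => by positivity)
  set k : ι → Bool → ℂ := fun i t => if t then ((v i : ℂ) - (u i : ℂ)) else (u i : ℂ) with hk
  set y : (ι → Bool) → ι → ℝ := fun r i => if r i then 0 else 1 with hy
  set G : ι → Bool → ι → ℂ := fun i t c => (x i : ℂ) ^ (e c) *
          ∑ σ, w (jc c) σ * ((if t then 0 else 1 : ℂ) - ((1 : ℝ) : ℂ) * θ σ)
            * (∏ ρ ∈ Finset.univ.erase σ, ((x i : ℂ) + z ρ)) ^ 2 with hG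
  have hmat : (Matrix.of fun i c : ι => (x i : ℂ) ^ (e c) *
          ∑ σ, w (jc c) σ * ((u i : ℂ) - (v i : ℂ) * θ σ)
            * (∏ ρ ∈ Finset.univ.erase σ, ((x i : ℂ) + z ρ)) ^ 2)
      = Matrix.of fun i c => ∑ t, k i t * G i t c := by
    ext i c
    simp only [Matrix.of_apply, Fintype.sum_bool, hk, hG, if_true, Bool.false_eq_true, if_false]
    simp only [Finset.mul_sum]
    rw [← Finset.sum_add_distrib]
    refine Finset.sum_congr rfl fun σ _ => ?_
    push_cast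
    ring
  rw [hmat, DetF_expand]
  refine (norm_sum_le _ _).trans ?_
  have hterm : ∀ r ∈ (Finset.univ : Finset (ι → Bool)),
      ‖(∏ i, k i (r i)) * Matrix.det (Matrix.of fun i c => G i (r i) c)‖
        ≤ 2 ^ (Fintype.card ι) * (C1 * V) := by
    intro r _
    rw [norm_mul, norm_prod]
    have h1 : ∏ i, ‖k i (r i)‖ ≤ 2 ^ (Fintype.card ι) := by
      calc ∏ i, ‖k i (r i)‖ ≤ ∏ _i : ι, (2 : ℝ) := by
            refine Finset.prod_le_prod (fun _ _ => norm_nonneg _) fun i _ => ?_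
            simp only [hk]
            have h5 : ‖(u i : ℂ)‖ ≤ 1 := by rw [Complex.norm_real]; exact hu i
            have h6 : ‖(v i : ℂ)‖ ≤ 1 := by rw [Complex.norm_real]; exact hv i
            split_ifs
            · refine (norm_sub_le _ _).trans ?_
              linarith
            · linarith
        _ = 2 ^ (Fintype.card ι) := by rw [Finset.prod_const, Finset.card_univ]
    have h2 := hdet z hz 1 τ zero_le_one hτ hτ1 x (y r) hx (by
      intro i
      simp only [hy]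
      split_ifs <;> simp)
    have h3 : (Matrix.of fun i c => G i (r i) c) = (Matrix.of fun i c : ι => (x i : ℂ) ^ (e c) *
          ∑ σ, w (jc c) σ * ((y r i : ℂ) - ((1 : ℝ) : ℂ) * θ σ)
            * (∏ ρ ∈ Finset.univ.erase σ, ((x i : ℂ) + z ρ)) ^ 2) := by
      ext i c
      simp only [Matrix.of_apply, hG, hy]
      by_cases hr : r i = true
      · simp [hr]
      · simp [hr]
    rw [h3]
    simp only [one_pow, one_mul] at h2
    exact mul_le_mul h1 h2 (norm_nonneg _) (by positivity)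
  refine (Finset.sum_le_sum hterm).trans ?_
  rw [Finset.sum_const, Finset.card_univ, Fintype.card_fun, Fintype.card_bool, nsmul_eq_mul]
  have h5 : (4 : ℝ) ^ (Fintype.card ι) = 2 ^ (Fintype.card ι) * 2 ^ (Fintype.card ι) := by
    rw [← mul_pow]; norm_num
  rw [h5]
  push_cast
  exact le_of_eq (by ring)

end

end Pool.Agent.Lib.SqfH2
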