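import Mathlib
import Pool.Agent.Lib.SQF.Balls
import Pool.Agent.Lib.SQF.OneRootP

/-!
# Two polynomials: a pencil carries few solutions (helper38, SqfH2)

`two_root_class`: `A`, `B` integer polynomials with nonzero Wronskian, all values divisible by `c`;
a finite set of arguments with `|A|, |B| ≤ c X` where a prime `p ≥ X ^ 2 / L`, `p ∤ c`, divides
`A' x0 - B' y0`, `A = c y0`, `B = c x0`: at most `K(D) L` of them.
`two_root_card`: the same with only the values at the points divisible by `c`: at most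
`K(D) L D ^ (2 ω(c))` of them.
-/

set_option autoImplicit false

open Finset Polynomial

namespace Pool.Agent.Lib.SqfH2

open Pool.Agent.Lib.SQF

lemma real_eval (G : ℤ[X]) (y : ℤ) :
    (G.map (Int.castRingHom ℝ)).eval (y : ℝ) = ((G.eval y : ℤ) : ℝ) := by
  rw [eval_map, ← eq_intCast (Int.castRingHom ℝ) y, eval₂_at_apply]
  simp

/-- between two points without a critical point in between -/
lemma between_int (G : ℤ[X]) (a b : ℤ) (M : ℝ) (hab : a ≤ b)
    (ha : |((G.eval a : ℤ) : ℝ)| ≤ M) (hb : |((G.eval b : ℤ) : ℝ)| ≤ M)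
    (hno : ∀ x : ℝ, (a : ℝ) < x → x < b →
      x ∉ ((G.map (Int.castRingHom ℝ)).derivative).roots.toFinset) :
    ∀ y : ℤ, a ≤ y → y ≤ b → |((G.eval y : ℤ) : ℝ)| ≤ M := by
  intro y hay hyb
  set g := G.map (Int.castRingHom ℝ) with hg
  by_cases h0 : g.derivative = 0
  · have h1 := derivative_eq_zero.1 h0
    have h2 : G.natDegree = 0 := by
      rw [← natDegree_map_eq_of_injective (RingHom.injective_int (Int.castRingHom ℝ)) G]
      exact h1
    rw [eq_C_of_natDegree_eq_zero h2, eval_C] at ha ⊢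
    exact ha
  · have h1 := OneRootP_between g a b M (by exact_mod_cast hab)
      (by rw [hg, real_eval]; exact ha) (by rw [hg, real_eval]; exact hb)
      (fun x hax hxb hx => hno x hax hxb (Multiset.mem_toFinset.2 ((mem_roots h0).2 hx)))
      y (by exact_mod_cast hay) (by exact_mod_cast hyb)
    rwa [hg, real_eval] at h1

/-- size of the derivative by integer weights -/
lemma deriv_size {D N : ℕ} {w : ℕ → ℤ}
    (hw : ∀ G : ℤ[X], G.natDegree ≤ D → ∀ y h : ℤ, (N : ℤ) * (h * G.derivative.eval y) =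
        ∑ j ∈ range (D + 1), w j * G.eval (y + j * h))
    (G : ℤ[X]) (hGD : G.natDegree ≤ D) (c : ℕ) (hc : c ≠ 0) (hdiv : ∀ y : ℤ, (c : ℤ) ∣ G.eval y)
    (X : ℝ) (y s : ℤ) (hs : s = 1 ∨ s = -1) (h0 : ℕ)
    (hb : ∀ j ∈ range (D + 1), |((G.eval (y + j * (s * h0)) : ℤ) : ℝ)| ≤ c * X) :
    ∃ E : ℤ, (N : ℤ) * G.derivative.eval y = c * E ∧
      (h0 : ℝ) * |(E : ℝ)| ≤ ((∑ j ∈ range (D + 1), (w j).natAbs : ℕ) : ℝ) * X := by
  have hcR : (0 : ℝ) < c := by exact_mod_cast Nat.pos_of_ne_zero hc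
  have hint : (c : ℤ) ∣ (N : ℤ) * G.derivative.eval y := by
    have h1 := hw G hGD y 1
    rw [one_mul] at h1
    rw [h1]
    exact dvd_sum fun j _ => (hdiv _).mul_left _
  obtain ⟨E, hE⟩ := hint
  refine ⟨E, hE, ?_⟩
  have h1 := hw G hGD y (s * h0)
  have h2 : (N : ℤ) * (s * h0 * G.derivative.eval y) = s * h0 * (c * E) := by
    rw [← hE]; ring
  rw [h2] at h1
  have h3 : ((s * h0 * (c * E) : ℤ) : ℝ) =
      ∑ j ∈ range (D + 1), (w j : ℝ) * ((G.eval (y + j * (s * h0)) : ℤ) : ℝ) := by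
    rw [h1]; push_cast; rfl
  have h4 : |((s * h0 * (c * E) : ℤ) : ℝ)| ≤
      ((∑ j ∈ range (D + 1), (w j).natAbs : ℕ) : ℝ) * (c * X) := by
    rw [h3]
    calc |∑ j ∈ range (D + 1), (w j : ℝ) * ((G.eval (y + j * (s * h0)) : ℤ) : ℝ)|
        ≤ ∑ j ∈ range (D + 1), |(w j : ℝ) * ((G.eval (y + j * (s * h0)) : ℤ) : ℝ)| :=
          abs_sum_le_sum_abs _ _
      _ ≤ ∑ j ∈ range (D + 1), ((w j).natAbs : ℝ) * (c * X) := by
          refine sum_le_sum fun j hj => ?_
          rw [abs_mul]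
          have h5 : |(w j : ℝ)| = ((w j).natAbs : ℝ) := by
            rw [Nat.cast_natAbs]; push_cast; rfl
          rw [h5]
          exact mul_le_mul_of_nonneg_left (hb j hj) (Nat.cast_nonneg _)
      _ = ((∑ j ∈ range (D + 1), (w j).natAbs : ℕ) : ℝ) * (c * X) := by
          rw [← sum_mul]; push_cast; rfl
  have h5 : |((s * h0 * (c * E) : ℤ) : ℝ)| = c * (h0 * |(E : ℝ)|) := by
    push_cast
    rw [abs_mul, abs_mul, abs_mul]
    have h6 : |(s : ℝ)| = 1 := by rcases hs with rfl | rfl <;> simp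
    rw [h6, Nat.abs_cast, Nat.abs_cast]
    ring
  rw [h5] at h4
  have h6 : (c : ℝ) * (h0 * |(E : ℝ)|) ≤
      c * (((∑ j ∈ range (D + 1), (w j).natAbs : ℕ) : ℝ) * X) := by linarith
  exact le_of_mul_le_mul_left h6 hcR

/-- one class: all values of `A` and `B` are divisible by `c` -/
theorem two_root_class (D : ℕ) : ∃ K : ℕ, ∀ L : ℕ, 1 ≤ L → ∀ A B : ℤ[X],
    A.natDegree ≤ D → B.natDegree ≤ D →
    derivative A * B - derivative B * A ≠ 0 →
    ∀ c : ℕ, c ≠ 0 → (∀ y : ℤ, (c : ℤ) ∣ A.eval y) → (∀ y : ℤ, (c : ℤ) ∣ B.eval y) →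
    ∀ (X : ℝ) (T : Finset ℤ),
    (∀ y ∈ T, ∃ (x0 y0 : ℤ) (p : ℕ), A.eval y = c * y0 ∧ B.eval y = c * x0 ∧
      |(x0 : ℝ)| ≤ X ∧ |(y0 : ℝ)| ≤ X ∧ p.Prime ∧ X ^ 2 ≤ L * p ∧ ¬ p ∣ c ∧
      (p : ℤ) ∣ A.derivative.eval y * x0 - B.derivative.eval y * y0) →
    T.card ≤ K * L := by
  classical
  obtain ⟨N, w, hN, hw⟩ := weights D
  set W : ℕ := ∑ j ∈ range (D + 1), (w j).natAbs with hW
  refine ⟨(2 * D + 1) * (4 * D * W + 4 * D + 3),
    fun L hL A B hAD hBD hJ c hc hdivA hdivB X T hT => ?_⟩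
  set h0 : ℕ := 2 * W * L + 1 with hh0
  set K0 : ℕ := 2 * D * h0 + 2 * D + 2 with hK0
  have hK0L : K0 + 1 ≤ (4 * D * W + 4 * D + 3) * L := by
    have h1 : K0 + 1 = 4 * D * W * L + (4 * D + 3) * 1 := by rw [hK0, hh0]; ring
    rw [h1]
    calc 4 * D * W * L + (4 * D + 3) * 1 ≤ 4 * D * W * L + (4 * D + 3) * L :=
          Nat.add_le_add_left (Nat.mul_le_mul_left _ hL) _
      _ = (4 * D * W + 4 * D + 3) * L := by ring
  have hcR : (0 : ℝ) < c := by exact_mod_cast Nat.pos_of_ne_zero hc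
  have hbd : ∀ y ∈ T, |((A.eval y : ℤ) : ℝ)| ≤ c * X ∧ |((B.eval y : ℤ) : ℝ)| ≤ c * X := by
    intro y hy
    obtain ⟨x0, y0, p, h1, h2, h3, h4, -⟩ := hT y hy
    constructor
    · rw [h1]; push_cast; rw [abs_mul, Nat.abs_cast]
      exact mul_le_mul_of_nonneg_left h4 hcR.le
    · rw [h2]; push_cast; rw [abs_mul, Nat.abs_cast]
      exact mul_le_mul_of_nonneg_left h3 hcR.le
  have hdegR : ∀ G : ℤ[X], G.natDegree ≤ D →
      ((G.map (Int.castRingHom ℝ)).derivative).roots.toFinset.card ≤ D := by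
    intro G hG
    calc ((G.map (Int.castRingHom ℝ)).derivative).roots.toFinset.card
        ≤ ((G.map (Int.castRingHom ℝ)).derivative).roots.card := Multiset.toFinset_card_le _
      _ ≤ ((G.map (Int.castRingHom ℝ)).derivative).natDegree := card_roots' _
      _ ≤ (G.map (Int.castRingHom ℝ)).natDegree - 1 := natDegree_derivative_le _
      _ ≤ D := by
          have : (G.map (Int.castRingHom ℝ)).natDegree ≤ G.natDegree := natDegree_map_le
          omega
  set R : Finset ℝ := ((A.map (Int.castRingHom ℝ)).derivative).roots.toFinset ∪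
    ((B.map (Int.castRingHom ℝ)).derivative).roots.toFinset with hR
  have hRcard : R.card ≤ 2 * D := by
    refine (card_union_le _ _).trans ?_
    have h1 := hdegR A hAD
    have h2 := hdegR B hBD
    omega
  set φ : ℤ → ℕ := fun y => (R.filter (fun x => x < (y : ℝ))).card with hφ
  have hmaps : ∀ y ∈ T, φ y ∈ range (2 * D + 1) := by
    intro y _
    have h1 : φ y ≤ R.card := card_filter_le _ _
    exact mem_range.2 (by omega)
  by_contra hcon
  push Not at hcon
  obtain ⟨k, hk, hcard⟩ := exists_lt_card_fiber_of_mul_lt_card_of_maps_to hmaps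
    (by
      rw [card_range]
      refine lt_of_le_of_lt (Nat.mul_le_mul_left _ hK0L) ?_
      rw [← mul_assoc]
      exact hcon : (range (2 * D + 1)).card * (K0 + 1) < T.card)
  set S := T.filter (fun y => φ y = k) with hS
  have hSne : S.Nonempty := card_pos.1 (by omega)
  set a := S.min' hSne with ha
  set b := S.max' hSne with hb
  have haS : a ∈ S := S.min'_mem hSne
  have hbS : b ∈ S := S.max'_mem hSne
  have hST : ∀ y ∈ S, y ∈ T ∧ φ y = k := fun y hy => by
    rw [hS, mem_filter] at hy; exact hy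
  have hle : ∀ y ∈ S, a ≤ y ∧ y ≤ b := fun y hy => ⟨S.min'_le y hy, S.le_max' y hy⟩
  have hlen : (K0 : ℤ) + 1 ≤ b - a := by
    have h1 : S ⊆ Icc a b := fun y hy => mem_Icc.2 (hle y hy)
    have h2 := card_le_card h1
    rw [Int.card_Icc] at h2
    have h3 : (K0 : ℤ) + 1 < (b + 1 - a).toNat := by exact_mod_cast lt_of_lt_of_le hcard h2
    have h4 : ((b + 1 - a).toNat : ℤ) = b + 1 - a := Int.toNat_of_nonneg (by
      by_contra h
      push Not at h
      rw [Int.toNat_of_nonpos h.le] at h3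
      simp at h3
      omega)
    omega
  have hno : ∀ x : ℝ, (a : ℝ) < x → x < b → x ∉ R := by
    intro x hax hxb hxR
    have h1 : R.filter (fun x => x < (a : ℝ)) ⊂ R.filter (fun x => x < (b : ℝ)) := by
      rw [ssubset_iff_of_subset]
      · refine ⟨x, mem_filter.2 ⟨hxR, hxb⟩, fun h => ?_⟩
        exact absurd (mem_filter.1 h).2 (not_lt.2 hax.le)
      · intro z hz
        rw [mem_filter] at hz ⊢
        refine ⟨hz.1, hz.2.trans (hax.trans hxb)⟩
    have h2 : φ a < φ b := card_lt_card h1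
    rw [(hST a haS).2, (hST b hbS).2] at h2
    exact lt_irrefl _ h2
  have hboundA := between_int A a b (c * X) (hle a haS).2 (hbd a (hST a haS).1).1
    (hbd b (hST b hbS).1).1 (fun x h1 h2 h3 => hno x h1 h2 (mem_union_left _ h3))
  have hboundB := between_int B a b (c * X) (hle a haS).2 (hbd a (hST a haS).1).2
    (hbd b (hST b hbS).1).2 (fun x h1 h2 h3 => hno x h1 h2 (mem_union_right _ h3))
  have hcrit : ∀ y ∈ S, (derivative A * B - derivative B * A).eval y = 0 := by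
    intro y hy
    obtain ⟨hyT, _⟩ := hST y hy
    obtain ⟨x0, y0, p, hA0, hB0, hx0, hy0, hp, hXp, hpc, hpd⟩ := hT y hyT
    obtain ⟨hay, hyb⟩ := hle y hy
    have hstep : ∃ s : ℤ, (s = 1 ∨ s = -1) ∧ ∀ j ∈ range (D + 1),
        a ≤ y + j * (s * h0) ∧ y + j * (s * h0) ≤ b := by
      have hjD : ∀ j ∈ range (D + 1), (0 : ℤ) ≤ j * h0 ∧ (j : ℤ) * h0 ≤ D * h0 := by
        intro j hj
        have hj' : j ≤ D := Nat.lt_succ_iff.1 (mem_range.1 hj)
        refine ⟨by positivity, ?_⟩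
        exact_mod_cast Nat.mul_le_mul_right h0 hj'
      have hK0' : (K0 : ℤ) = 2 * (D * h0) + 2 * D + 2 := by rw [hK0]; push_cast; ring
      rcases le_or_gt (2 * (y - a)) (b - a) with h | h
      · refine ⟨1, Or.inl rfl, fun j hj => ?_⟩
        obtain ⟨h1, h2⟩ := hjD j hj
        rw [one_mul]
        constructor <;> linarith
      · refine ⟨-1, Or.inr rfl, fun j hj => ?_⟩
        obtain ⟨h1, h2⟩ := hjD j hj
        have h3 : (j : ℤ) * (-1 * h0) = -(j * h0) := by ring
        rw [h3]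
        constructor <;> linarith
    obtain ⟨s, hs, hsj⟩ := hstep
    obtain ⟨EA, hEA, hsA⟩ := deriv_size hw A hAD c hc hdivA X y s hs h0
      (fun j hj => hboundA _ (hsj j hj).1 (hsj j hj).2)
    obtain ⟨EB, hEB, hsB⟩ := deriv_size hw B hBD c hc hdivB X y s hs h0
      (fun j hj => hboundB _ (hsj j hj).1 (hsj j hj).2)
    have hpE : (p : ℤ) ∣ EA * x0 - EB * y0 := by
      have h1 : (p : ℤ) ∣ c * (EA * x0 - EB * y0) := by
        have h2 : (c : ℤ) * (EA * x0 - EB * y0) =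
            N * (A.derivative.eval y * x0 - B.derivative.eval y * y0) := by
          linear_combination (-x0) * hEA + y0 * hEB
        rw [h2]; exact hpd.mul_left _
      have h2 : IsCoprime (p : ℤ) (c : ℤ) := by
        rw [Nat.isCoprime_iff_coprime]
        exact (Nat.Prime.coprime_iff_not_dvd hp).2 hpc
      exact h2.dvd_of_dvd_mul_left h1
    have hX0 : 0 ≤ X := (abs_nonneg _).trans hx0
    have hE0 : EA * x0 - EB * y0 = 0 := by
      by_contra hne
      have h1 : (p : ℝ) ≤ |((EA * x0 - EB * y0 : ℤ) : ℝ)| := by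
        have h2 : p ≤ (EA * x0 - EB * y0).natAbs := Nat.le_of_dvd (Int.natAbs_pos.2 hne)
          (by simpa using Int.natAbs_dvd_natAbs.2 hpE)
        have h3 : |((EA * x0 - EB * y0 : ℤ) : ℝ)| = ((EA * x0 - EB * y0).natAbs : ℝ) := by
          rw [Nat.cast_natAbs]; push_cast; rfl
        rw [h3]; exact_mod_cast h2
      have hp0 : (0 : ℝ) < p := by exact_mod_cast hp.pos
      have h4 : (h0 : ℝ) * |((EA * x0 - EB * y0 : ℤ) : ℝ)| ≤ 2 * W * X ^ 2 := by
        have h5 : |((EA * x0 - EB * y0 : ℤ) : ℝ)| ≤ |(EA : ℝ)| * X + |(EB : ℝ)| * X := by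
          push_cast
          refine (abs_sub _ _).trans ?_
          rw [abs_mul, abs_mul]
          exact add_le_add (mul_le_mul_of_nonneg_left hx0 (abs_nonneg _))
            (mul_le_mul_of_nonneg_left hy0 (abs_nonneg _))
        calc (h0 : ℝ) * |((EA * x0 - EB * y0 : ℤ) : ℝ)|
            ≤ h0 * (|(EA : ℝ)| * X + |(EB : ℝ)| * X) :=
              mul_le_mul_of_nonneg_left h5 (Nat.cast_nonneg _)
          _ = (h0 * |(EA : ℝ)|) * X + (h0 * |(EB : ℝ)|) * X := by ring
          _ ≤ (W * X) * X + (W * X) * X :=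
              add_le_add (mul_le_mul_of_nonneg_right hsA hX0)
                (mul_le_mul_of_nonneg_right hsB hX0)
          _ = 2 * W * X ^ 2 := by ring
      have h2 : (h0 : ℝ) * p ≤ 2 * W * (L * p) := by
        calc (h0 : ℝ) * p ≤ h0 * |((EA * x0 - EB * y0 : ℤ) : ℝ)| :=
              mul_le_mul_of_nonneg_left h1 (Nat.cast_nonneg _)
          _ ≤ 2 * W * X ^ 2 := h4
          _ ≤ 2 * W * (L * p) := mul_le_mul_of_nonneg_left hXp (by positivity)
      have h3 : (h0 : ℝ) = 2 * W * L + 1 := by rw [hh0]; push_cast; ring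
      rw [h3] at h2
      nlinarith
    have h6 : (N : ℤ) * (derivative A * B - derivative B * A).eval y = 0 := by
      rw [eval_sub, eval_mul, eval_mul, hA0, hB0]
      linear_combination (c * x0) * hEA - (c * y0) * hEB + (c : ℤ) * c * hE0
    exact (mul_eq_zero.1 h6).resolve_left (by exact_mod_cast hN.ne')
  have hJdeg : (derivative A * B - derivative B * A).natDegree ≤ 2 * D := by
    refine (natDegree_sub_le _ _).trans (max_le ?_ ?_)
    · refine natDegree_mul_le.trans ?_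
      have := natDegree_derivative_le A
      omega
    · refine natDegree_mul_le.trans ?_
      have := natDegree_derivative_le B
      omega
  have hScard : S.card ≤ 2 * D := by
    have h1 : S ⊆ (derivative A * B - derivative B * A).roots.toFinset := by
      intro y hy
      rw [Multiset.mem_toFinset, mem_roots hJ]
      exact hcrit y hy
    exact (card_le_card h1).trans ((Multiset.toFinset_card_le _).trans
      ((card_roots' _).trans hJdeg))
  omega

/-- the linear substitution -/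
lemma comp_facts (A B : ℤ[X]) (r h : ℤ) (hh : h ≠ 0) :
    (∀ y : ℤ, (A.comp (C r + C h * X)).eval y = A.eval (r + h * y)) ∧
    (∀ y : ℤ, (A.comp (C r + C h * X)).derivative.eval y = h * A.derivative.eval (r + h * y)) ∧
    (A.comp (C r + C h * X)).natDegree = A.natDegree ∧
    (derivative A * B - derivative B * A ≠ 0 →
      derivative (A.comp (C r + C h * X)) * B.comp (C r + C h * X) -
        derivative (B.comp (C r + C h * X)) * A.comp (C r + C h * X) ≠ 0) := by
  have hlin : (C r + C h * X : ℤ[X]).natDegree = 1 := by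
    rw [add_comm]
    exact natDegree_linear hh
  have hd : ∀ F : ℤ[X], derivative (F.comp (C r + C h * X)) =
      C h * (derivative F).comp (C r + C h * X) := by
    intro F
    rw [derivative_comp]
    simp
  refine ⟨fun y => by simp [eval_comp], fun y => by rw [hd]; simp [eval_comp], ?_, ?_⟩
  · rw [natDegree_comp, hlin, mul_one]
  · intro hJ h0
    rw [hd, hd] at h0
    have h1 : C h * ((derivative A * B - derivative B * A).comp (C r + C h * X)) = 0 := by
      rw [sub_comp, mul_comp, mul_comp]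
      linear_combination h0
    rcases mul_eq_zero.1 h1 with h2 | h2
    · exact hh (C_eq_zero.1 h2)
    · have h3 : (C r + C h * X : ℤ[X]).natDegree ≠ 0 := by omega
      rcases comp_eq_zero_iff.1 h2 with h4 | h4
      · exact hJ h4
      · have h5 := congrArg natDegree h4.2
        rw [natDegree_C] at h5
        omega

/-- **Two polynomials**: all classes -/
theorem two_root_card (D : ℕ) (hD : 1 ≤ D) : ∃ K : ℕ, ∀ L : ℕ, 1 ≤ L → ∀ A B : ℤ[X],
    A.natDegree ≤ D → B.natDegree ≤ D → derivative A * B - derivative B * A ≠ 0 →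
    ∀ c : ℕ, c ≠ 0 → ∀ (X : ℝ) (T : Finset ℤ),
    (∀ y ∈ T, ∃ (x0 y0 : ℤ) (p : ℕ), A.eval y = c * y0 ∧ B.eval y = c * x0 ∧
      |(x0 : ℝ)| ≤ X ∧ |(y0 : ℝ)| ≤ X ∧ p.Prime ∧ X ^ 2 ≤ L * p ∧ ¬ p ∣ c ∧
      (p : ℤ) ∣ A.derivative.eval y * x0 - B.derivative.eval y * y0) →
    T.card ≤ (K * L) * (D ^ c.primeFactors.card * D ^ c.primeFactors.card) := by
  classical
  obtain ⟨K, hK⟩ := two_root_class D
  refine ⟨K, fun L hL A B hAD hBD hJ c hc X T hT => ?_⟩
  obtain ⟨RA, hRA1, hRA2, hRA3, hRA4⟩ := balls_cover D hD A hAD c hc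
  have hnz : ∀ q : ℤ × ℕ, q.2 ∣ c → (q.2 : ℤ) ≠ 0 := by
    intro q hq h0
    have h1 : q.2 = 0 := by exact_mod_cast h0
    rw [h1] at hq
    exact hc (Nat.eq_zero_of_zero_dvd hq)
  have hB : ∀ q ∈ RA, ∃ RB : Finset (ℤ × ℕ), RB.card ≤ D ^ c.primeFactors.card ∧
      (∀ p ∈ RB, p.2 ∣ c) ∧
      (∀ x : ℤ, (c : ℤ) ∣ B.eval (q.1 + q.2 * x) → ∃ p ∈ RB, (p.2 : ℤ) ∣ x - p.1) ∧
      (∀ p ∈ RB, ∀ y : ℤ, (c : ℤ) ∣ B.eval (q.1 + q.2 * (p.1 + p.2 * y))) := by
    intro q hq
    obtain ⟨h1, h2, h3, h4⟩ := comp_facts B A q.1 q.2 (hnz q (hRA2 q hq))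
    obtain ⟨RB, k1, k2, k3, k4⟩ := balls_cover D hD (B.comp (C q.1 + C (q.2 : ℤ) * Polynomial.X))
      (by rw [h3]; exact hBD) c hc
    refine ⟨RB, k1, k2, fun x hx => k3 x (by rw [h1]; exact hx), fun p hp y => ?_⟩
    have := k4 p hp y
    rwa [h1] at this
  choose! RB hRB1 hRB2 hRB3 hRB4 using hB
  set P : Finset ((_ : ℤ × ℕ) × (ℤ × ℕ)) := RA.sigma fun q => RB q with hP
  have hPcard : P.card ≤ D ^ c.primeFactors.card * D ^ c.primeFactors.card := by
    rw [hP, card_sigma]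
    calc ∑ q ∈ RA, (RB q).card ≤ ∑ _q ∈ RA, D ^ c.primeFactors.card :=
          sum_le_sum fun q hq => hRB1 q hq
      _ = RA.card * D ^ c.primeFactors.card := by rw [sum_const, smul_eq_mul]
      _ ≤ D ^ c.primeFactors.card * D ^ c.primeFactors.card := Nat.mul_le_mul_right _ hRA1
  have hcover : T ⊆ P.biUnion fun π =>
      T.filter fun s => ∃ y : ℤ, s = π.1.1 + π.1.2 * (π.2.1 + π.2.2 * y) := by
    intro s hs
    obtain ⟨x0, y0, p, hA0, hB0, -⟩ := hT s hs
    obtain ⟨q, hq, t, ht⟩ := hRA3 s ⟨y0, hA0⟩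
    have hst : s = q.1 + q.2 * t := by linarith
    obtain ⟨q', hq', t', ht'⟩ := hRB3 q hq t (by rw [← hst]; exact ⟨x0, hB0⟩)
    refine mem_biUnion.2 ⟨⟨q, q'⟩, mem_sigma.2 ⟨hq, hq'⟩, mem_filter.2 ⟨hs, t', ?_⟩⟩
    have h2 : t = q'.1 + q'.2 * t' := by linarith
    rw [hst, h2]
  have hfib : ∀ π ∈ P, (T.filter fun s => ∃ y : ℤ,
      s = π.1.1 + π.1.2 * (π.2.1 + π.2.2 * y)).card ≤ K * L := by
    intro π hπ
    obtain ⟨hq, hq'⟩ := mem_sigma.1 hπ
    set r : ℤ := π.1.1 + π.1.2 * π.2.1 with hr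
    set h : ℤ := π.1.2 * π.2.2 with hh
    have hh0 : h ≠ 0 := mul_ne_zero (hnz _ (hRA2 _ hq)) (hnz _ (hRB2 _ hq _ hq'))
    have hrw : ∀ y : ℤ, π.1.1 + π.1.2 * (π.2.1 + π.2.2 * y) = r + h * y := by
      intro y; rw [hr, hh]; ring
    obtain ⟨a1, a2, a3, a4⟩ := comp_facts A B r h hh0
    obtain ⟨b1, b2, b3, -⟩ := comp_facts B A r h hh0
    have hex : ∀ s ∈ T.filter (fun s => ∃ y : ℤ, s = π.1.1 + π.1.2 * (π.2.1 + π.2.2 * y)),
        ∃ y : ℤ, s = r + h * y := by
      intro s hs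
      obtain ⟨y, hy⟩ := (mem_filter.1 hs).2
      exact ⟨y, by rw [hy, hrw]⟩
    choose! Y hY using hex
    have hinj : Set.InjOn Y (T.filter (fun s => ∃ y : ℤ,
        s = π.1.1 + π.1.2 * (π.2.1 + π.2.2 * y))) := by
      intro s hs s' hs' hss
      rw [hY s hs, hY s' hs', hss]
    rw [← card_image_of_injOn hinj]
    refine hK L hL (A.comp (C r + C h * Polynomial.X)) (B.comp (C r + C h * Polynomial.X))
      (by rw [a3]; exact hAD) (by rw [b3]; exact hBD) (a4 hJ) c hc ?_ ?_ X _ ?_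
    · intro y
      rw [a1]
      have h1 := hRA4 _ hq (π.2.1 + π.2.2 * y)
      rwa [hrw] at h1
    · intro y
      rw [b1]
      have h1 := hRB4 _ hq _ hq' y
      rwa [hrw] at h1
    · intro y hy
      obtain ⟨s, hs, rfl⟩ := mem_image.1 hy
      obtain ⟨x0, y0, p, k1, k2, k3, k4, k5, k6, k7, k8⟩ := hT s (mem_filter.1 hs).1
      have hsY := hY s hs
      refine ⟨x0, y0, p, by rw [a1, ← hsY, k1], by rw [b1, ← hsY, k2], k3, k4, k5, k6, k7, ?_⟩
      rw [a2, b2, ← hsY]
      have h9 : h * eval s (derivative A) * x0 - h * eval s (derivative B) * y0 =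
          h * (eval s (derivative A) * x0 - eval s (derivative B) * y0) := by ring
      rw [h9]
      exact k8.mul_left _
  calc T.card ≤ _ := card_le_card hcover
    _ ≤ ∑ π ∈ P, (T.filter fun s => ∃ y : ℤ,
        s = π.1.1 + π.1.2 * (π.2.1 + π.2.2 * y)).card := card_biUnion_le
    _ ≤ ∑ _π ∈ P, K * L := sum_le_sum hfib
    _ = (K * L) * P.card := by rw [sum_const, smul_eq_mul, mul_comm]
    _ ≤ (K * L) * (D ^ c.primeFactors.card * D ^ c.primeFactors.card) :=
        Nat.mul_le_mul_left _ hPcard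

end Pool.Agent.Lib.SqfH2
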