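import Mathlib
import Pool.Agent.Lib.SqfH2.TwoRoot
import Pool.Agent.Lib.SQF4.Sec
import Pool.Agent.Lib.SQF.Bez
import Pool.Agent.Lib.MP_0b15c0_nt.DivisorBound

/-!
# The second step on a window (helper38, SqfH2)

`step2`: solutions `x P(s) = y Q(s)` of one window, with the conditions at the prime `p`
(`x = ω y`, `f(ω) = 0` modulo `p ^ 2`, `p` exactly divides `A_b(ω) + s`), are at most
`C L X ^ ε` if `X ^ 2 ≤ L P0`.
-/

set_option autoImplicit false

open Finset Polynomial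

namespace Pool.Agent.Lib.SqfH2

/-! ### coefficients of compositions -/

/-- domination of coefficients -/
def Dom (P Q : ℤ[X]) : Prop := ∀ i, |P.coeff i| ≤ Q.coeff i

lemma Dom.nonneg {P Q : ℤ[X]} (h : Dom P Q) (i : ℕ) : 0 ≤ Q.coeff i := (abs_nonneg _).trans (h i)

lemma Dom.mul {P Q P' Q' : ℤ[X]} (h : Dom P P') (h' : Dom Q Q') : Dom (P * Q) (P' * Q') := by
  intro n
  rw [coeff_mul, coeff_mul]
  refine (abs_sum_le_sum_abs _ _).trans (sum_le_sum fun x _ => ?_)
  rw [abs_mul]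
  exact mul_le_mul (h _) (h' _) (abs_nonneg _) ((abs_nonneg _).trans (h _))

lemma Dom.add {P Q P' Q' : ℤ[X]} (h : Dom P P') (h' : Dom Q Q') : Dom (P + Q) (P' + Q') := by
  intro n
  rw [coeff_add, coeff_add]
  exact (abs_add_le _ _).trans (add_le_add (h n) (h' n))

lemma Dom.neg {P P' : ℤ[X]} (h : Dom P P') : Dom (-P) P' := by
  intro n
  rw [coeff_neg, abs_neg]
  exact h n

lemma dom_one : Dom (1 : ℤ[X]) 1 := by
  intro n
  rw [coeff_one]
  split_ifs <;> simp

lemma dom_C (a : ℤ) : Dom (C a) (C |a|) := by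
  intro n
  rw [coeff_C, coeff_C]
  split_ifs <;> simp

lemma dom_X : Dom (X : ℤ[X]) X := by
  intro n
  rw [coeff_X]
  split_ifs <;> simp

lemma Dom.pow {P P' : ℤ[X]} (h : Dom P P') (k : ℕ) : Dom (P ^ k) (P' ^ k) := by
  induction k with
  | zero => simpa using dom_one
  | succ k ih => rw [pow_succ, pow_succ]; exact ih.mul h

lemma dom_sum {ι : Type*} (s : Finset ι) (F F' : ι → ℤ[X]) (h : ∀ i ∈ s, Dom (F i) (F' i)) :
    Dom (∑ i ∈ s, F i) (∑ i ∈ s, F' i) := by
  classical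
  intro n
  rw [finsetSum_coeff, finsetSum_coeff]
  exact (abs_sum_le_sum_abs _ _).trans (sum_le_sum fun i hi => h i hi n)

lemma Dom.le_eval {P P' : ℤ[X]} (h : Dom P P') (i : ℕ) : |P.coeff i| ≤ P'.eval 1 := by
  refine (h i).trans ?_
  rw [eval_eq_sum_range]
  simp only [one_pow, mul_one]
  by_cases hi : i ∈ range (P'.natDegree + 1)
  · exact single_le_sum (f := fun i => P'.coeff i) (fun j _ => h.nonneg j) hi
  · rw [coeff_eq_zero_of_natDegree_lt (by rw [mem_range] at hi; omega)]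
    exact sum_nonneg fun j _ => h.nonneg j

/-- the polynomial with the absolute values of the coefficients -/
noncomputable def absP (P : ℤ[X]) (a : ℕ) : ℤ[X] := ∑ i ∈ range (a + 1), C |P.coeff i| * X ^ i

lemma dom_absP (P : ℤ[X]) (a : ℕ) (h : P.natDegree ≤ a) : Dom P (absP P a) := by
  have h1 : P = ∑ i ∈ range (a + 1), C (P.coeff i) * X ^ i :=
    P.as_sum_range_C_mul_X_pow' (Nat.lt_succ_of_le h)
  unfold absP
  conv_lhs => rw [h1]
  exact dom_sum _ _ _ fun i _ => (dom_C _).mul (dom_X.pow i)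

lemma absP_eval (P : ℤ[X]) (a : ℕ) (K : ℝ) (hK : ∀ i, |(P.coeff i : ℝ)| ≤ K) :
    (((absP P a).eval 1 : ℤ) : ℝ) ≤ (a + 1) * K := by
  unfold absP
  rw [eval_finsetSum]
  push_cast
  calc ∑ i ∈ range (a + 1), (((C |P.coeff i| * X ^ i : ℤ[X]).eval 1 : ℤ) : ℝ)
      ≤ ∑ _i ∈ range (a + 1), K := by
        refine sum_le_sum fun i _ => ?_
        simp only [eval_mul, eval_C, eval_pow, eval_X, one_pow, mul_one]
        push_cast
        exact hK i
    _ = (a + 1) * K := by rw [sum_const, card_range, nsmul_eq_mul]; push_cast; ring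

/-- coefficients of a composition -/
lemma comp_coeff_bound (m a : ℕ) (P A : ℤ[X]) (hP : P.natDegree ≤ m) (hA : A.natDegree ≤ a)
    (K M : ℝ) (hPK : ∀ i, |(P.coeff i : ℝ)| ≤ K) (hAM : ∀ i, |(A.coeff i : ℝ)| ≤ M)
    (hM : 1 ≤ M) (i : ℕ) : |((P.comp A).coeff i : ℝ)| ≤ (m + 1) * K * ((a + 1) * M) ^ m := by
  have h1 : P.comp A = ∑ i ∈ range (m + 1), C (P.coeff i) * A ^ i := by
    rw [comp, eval₂_eq_sum_range' (n := m + 1) _ (Nat.lt_succ_of_le hP)]
  have h2 : Dom (P.comp A) (∑ i ∈ range (m + 1), C |P.coeff i| * (absP A a) ^ i) := by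
    rw [h1]
    exact dom_sum _ _ _ fun i _ => (dom_C _).mul ((dom_absP A a hA).pow i)
  have h3 := h2.le_eval i
  have hK0 : 0 ≤ K := (abs_nonneg _).trans (hPK 0)
  have hE : (1 : ℝ) ≤ (a + 1) * M := by
    have : (0 : ℝ) ≤ a := Nat.cast_nonneg _
    nlinarith
  have hE0 : (0 : ℝ) ≤ (((absP A a).eval 1 : ℤ) : ℝ) := by
    have := (abs_nonneg _).trans ((dom_absP A a hA).le_eval 0)
    exact_mod_cast this
  have h4 : |((P.comp A).coeff i : ℝ)| ≤
      (((∑ i ∈ range (m + 1), C |P.coeff i| * (absP A a) ^ i : ℤ[X]).eval 1 : ℤ) : ℝ) := by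
    exact_mod_cast h3
  refine h4.trans ?_
  rw [eval_finsetSum]
  push_cast
  calc ∑ j ∈ range (m + 1), (((C |P.coeff j| * (absP A a) ^ j : ℤ[X]).eval 1 : ℤ) : ℝ)
      ≤ ∑ _j ∈ range (m + 1), K * ((a + 1) * M) ^ m := by
        refine sum_le_sum fun j hj => ?_
        simp only [eval_mul, eval_C, eval_pow]
        push_cast
        have h5 : ((((absP A a).eval 1 : ℤ) : ℝ)) ^ j ≤ ((a + 1) * M) ^ j :=
          pow_le_pow_left₀ hE0 (absP_eval A a M hAM) j
        have h6 : ((a + 1) * M) ^ j ≤ ((a + 1) * M) ^ m :=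
          pow_le_pow_right₀ hE (Nat.lt_succ_iff.1 (mem_range.1 hj))
        exact mul_le_mul (hPK j) (h5.trans h6) (pow_nonneg hE0 _) hK0
    _ = (m + 1) * K * ((a + 1) * M) ^ m := by
        rw [sum_const, card_range, nsmul_eq_mul]; push_cast; ring

/-! ### coprime polynomials -/

/-- relatively prime integer polynomials are coprime over the rationals -/
lemma coprime_of_relPrime {P Q : ℤ[X]} (hP : P ≠ 0) (h : IsRelPrime P Q) :
    IsCoprime (P.map (Int.castRingHom ℚ)) (Q.map (Int.castRingHom ℚ)) := by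
  classical
  have hP' : P.map (Int.castRingHom ℚ) ≠ 0 := by
    rw [Ne, Polynomial.map_eq_zero_iff (RingHom.injective_int _)]
    exact hP
  by_contra hc
  set g := EuclideanDomain.gcd (P.map (Int.castRingHom ℚ)) (Q.map (Int.castRingHom ℚ)) with hg
  have hg1 : g ∣ P.map (Int.castRingHom ℚ) := EuclideanDomain.gcd_dvd_left _ _
  have hg2 : g ∣ Q.map (Int.castRingHom ℚ) := EuclideanDomain.gcd_dvd_right _ _
  have hgu : ¬ IsUnit g := by
    intro hu
    exact hc (EuclideanDomain.gcd_isUnit_iff.mp hu)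
  have hg0 : g ≠ 0 := by
    intro h0
    rw [h0] at hg1
    exact hP' (zero_dvd_iff.mp hg1)
  obtain ⟨b, hbm, hb⟩ := IsLocalization.integerNormalization_spec (nonZeroDivisors ℤ) g
  set G0 := IsLocalization.integerNormalization (nonZeroDivisors ℤ) g with hG0
  have hb0 : (b : ℤ) ≠ 0 := nonZeroDivisors.ne_zero hbm
  have hmap : G0.map (algebraMap ℤ ℚ) = C ((b : ℤ) : ℚ) * g := by
    rw [hb]
    ext i
    simp
  have hbu : IsUnit (C ((b : ℤ) : ℚ) : ℚ[X]) := by
    rw [Polynomial.isUnit_C]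
    exact isUnit_iff_ne_zero.mpr (by exact_mod_cast hb0)
  have hG00 : G0 ≠ 0 := by
    intro h0
    rw [h0, Polynomial.map_zero] at hmap
    exact (mul_ne_zero (hbu.ne_zero) hg0) hmap.symm
  have hprim : G0.primPart.IsPrimitive := G0.isPrimitive_primPart
  have hdvd : (G0.primPart).map (algebraMap ℤ ℚ) ∣ g := by
    have h1 : (G0.primPart).map (algebraMap ℤ ℚ) ∣ G0.map (algebraMap ℤ ℚ) :=
      Polynomial.map_dvd _ (G0.primPart_dvd)
    rw [hmap] at h1
    exact (hbu.dvd_mul_left).mp h1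
  have hP1 : G0.primPart ∣ P :=
    hprim.dvd_of_fraction_map_dvd_fraction_map (K := ℚ) (hdvd.trans hg1)
  have hQ1 : G0.primPart ∣ Q :=
    hprim.dvd_of_fraction_map_dvd_fraction_map (K := ℚ) (hdvd.trans hg2)
  have hu := h hP1 hQ1
  have hdeg : G0.natDegree = 0 := by
    have h1 : G0.primPart.natDegree = 0 := Polynomial.natDegree_eq_zero_of_isUnit hu
    rwa [Polynomial.natDegree_primPart] at h1
  have hdeg' : g.natDegree = 0 := by
    have h1 : (G0.map (algebraMap ℤ ℚ)).natDegree = G0.natDegree :=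
      Polynomial.natDegree_map_eq_of_injective (RingHom.injective_int _) _
    rw [hmap, Polynomial.natDegree_C_mul (by exact_mod_cast hb0), hdeg] at h1
    exact h1
  apply hgu
  rw [Polynomial.eq_C_of_natDegree_eq_zero hdeg']
  rw [Polynomial.isUnit_C]
  apply isUnit_iff_ne_zero.mpr
  intro h0
  apply hg0
  rw [Polynomial.eq_C_of_natDegree_eq_zero hdeg', h0, C_0]

/-- the Wronskian of relatively prime polynomials, not both constant -/
lemma wronskian_ne {P Q : ℤ[X]} (h : IsRelPrime P Q) (hdeg : 0 < P.natDegree + Q.natDegree) :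
    derivative P * Q - derivative Q * P ≠ 0 := by
  intro h0
  have h1 : derivative P * Q = derivative Q * P := sub_eq_zero.1 h0
  have key : ∀ A B : ℤ[X], IsRelPrime A B → derivative A * B = derivative B * A →
      A.natDegree = 0 := by
    intro A B hAB hd
    have h2 : A ∣ derivative A * B := ⟨derivative B, by rw [hd]; ring⟩
    have h3 : A ∣ derivative A := hAB.dvd_of_dvd_mul_right h2
    by_contra hne
    have h4 : derivative A ≠ 0 := by
      intro h5
      exact hne (derivative_eq_zero.1 h5)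
    have h5 := natDegree_le_of_dvd h3 h4
    have h6 := natDegree_derivative_lt hne
    omega
  have h2 := key P Q h h1
  have h3 := key Q P h.symm h1.symm
  omega

/-! ### primes -/

/-- few large primes divide a nonzero integer -/
lemma prime_count {X c : ℝ} (hX : 2 ≤ X) (N : ℤ) (hN : N ≠ 0) (hNc : |(N : ℝ)| ≤ X ^ c)
    (F : Finset ℕ) (hF : ∀ p ∈ F, p.Prime ∧ X < p ∧ (p : ℤ) ∣ N) : (F.card : ℝ) ≤ c := by
  have h1 : (∏ p ∈ F, p) ∣ N.natAbs := by
    refine Finset.prod_primes_dvd _ (fun p hp => (hF p hp).1.prime) fun p hp => ?_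
    exact Int.natCast_dvd.1 (hF p hp).2.2
  have h2 : (∏ p ∈ F, p) ≤ N.natAbs := Nat.le_of_dvd (Int.natAbs_pos.2 hN) h1
  have h3 : X ^ (F.card : ℝ) ≤ X ^ c := by
    calc X ^ (F.card : ℝ) = ∏ _p ∈ F, X := by rw [Real.rpow_natCast, prod_const]
      _ ≤ ∏ p ∈ F, (p : ℝ) := prod_le_prod (fun _ _ => by linarith) fun p hp => (hF p hp).2.1.le
      _ = ((∏ p ∈ F, p : ℕ) : ℝ) := by push_cast; rfl
      _ ≤ (N.natAbs : ℝ) := by exact_mod_cast h2
      _ = |(N : ℝ)| := by rw [Nat.cast_natAbs, Int.cast_abs]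
      _ ≤ X ^ c := hNc
  exact (Real.rpow_le_rpow_left_iff (by linarith)).1 h3

/-- few `s` belong to primes dividing a nonzero integer -/
lemma bad_count {X c P0 : ℝ} (hX : 2 ≤ X) (f Ab : ℤ[X]) (hf : f.Monic) (N : ℤ)
    (hN : N ≠ 0) (hNc : |(N : ℝ)| ≤ X ^ c) (T : Finset ℤ)
    (hT : ∀ s ∈ T, 2 * |(s : ℝ)| < P0 ∧ ∃ (w : ℤ) (p : ℕ), p.Prime ∧ P0 < p ∧ X < p ∧
      (p : ℤ) ∣ f.eval w ∧ (p : ℤ) ∣ Ab.eval w + s ∧ (p : ℤ) ∣ N) :
    (T.card : ℝ) ≤ f.natDegree * c := by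
  classical
  have hT2 : ∀ s ∈ T, ∃ (w : ℤ) (p : ℕ), p.Prime ∧ P0 < p ∧ X < p ∧
      (p : ℤ) ∣ f.eval w ∧ (p : ℤ) ∣ Ab.eval w + s ∧ (p : ℤ) ∣ N := fun s hs => (hT s hs).2
  choose! w p hp using hT2
  have hF := prime_count hX N hN hNc (T.image p) (fun q hq => by
    obtain ⟨s, hs, rfl⟩ := mem_image.1 hq
    exact ⟨(hp s hs).1, (hp s hs).2.2.1, (hp s hs).2.2.2.2.2⟩)
  have hfib : ∀ q ∈ T.image p, (T.filter fun s => p s = q).card ≤ f.natDegree := by
    intro q hq
    obtain ⟨s0, hs0, hs0q⟩ := mem_image.1 hq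
    have hqp : q.Prime := by rw [← hs0q]; exact (hp s0 hs0).1
    have : Fact q.Prime := ⟨hqp⟩
    set g : (ZMod q)[X] := f.map (Int.castRingHom (ZMod q)) with hg
    have hgm : g.Monic := hf.map _
    have hsub : ((T.filter fun s => p s = q).image fun s => ((w s : ℤ) : ZMod q)) ⊆
        g.roots.toFinset := by
      intro r hr
      obtain ⟨s, hs, rfl⟩ := mem_image.1 hr
      obtain ⟨hsT, hsq⟩ := mem_filter.1 hs
      rw [Multiset.mem_toFinset, mem_roots hgm.ne_zero, IsRoot.def, hg, eval_map]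
      have h2 := (hp s hsT).2.2.2.1
      rw [hsq, ← ZMod.intCast_zmod_eq_zero_iff_dvd] at h2
      rw [← h2]
      have h3 := eval₂_at_apply (p := f) (Int.castRingHom (ZMod q)) (w s)
      simp only [eq_intCast] at h3
      exact h3
    have hinj : Set.InjOn (fun s => ((w s : ℤ) : ZMod q)) (T.filter fun s => p s = q) := by
      intro s hs s' hs' hss
      obtain ⟨hsT, hsq⟩ := mem_filter.1 hs
      obtain ⟨hsT', hsq'⟩ := mem_filter.1 hs'
      have h2 : (q : ℤ) ∣ w s - w s' := by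
        rw [← ZMod.intCast_zmod_eq_zero_iff_dvd]
        push_cast
        exact sub_eq_zero.2 hss
      have h3 : (q : ℤ) ∣ Ab.eval (w s) - Ab.eval (w s') := h2.trans (sub_dvd_eval_sub _ _ _)
      have h4 := (hp s hsT).2.2.2.2.1
      have h5 := (hp s' hsT').2.2.2.2.1
      rw [hsq] at h4
      rw [hsq'] at h5
      have h6 : (q : ℤ) ∣ s - s' := by
        have h7 : s - s' = (Ab.eval (w s) + s) - (Ab.eval (w s') + s') -
          (Ab.eval (w s) - Ab.eval (w s')) := by ring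
        rw [h7]
        exact dvd_sub (dvd_sub h4 h5) h3
      have h8 : |((s - s' : ℤ) : ℝ)| < q := by
        push_cast
        have h9 := (hT s hsT).1
        have h10 := (hT s' hsT').1
        have h11 := (hp s hsT).2.1
        rw [hsq] at h11
        have h12 := abs_sub (s : ℝ) (s' : ℝ)
        linarith
      have h13 : |s - s'| < (q : ℤ) := by exact_mod_cast h8
      have h14 := Int.eq_zero_of_abs_lt_dvd h6 h13
      omega
    rw [← card_image_of_injOn hinj]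
    calc _ ≤ g.roots.toFinset.card := card_le_card hsub
      _ ≤ Multiset.card g.roots := Multiset.toFinset_card_le _
      _ ≤ g.natDegree := card_roots' g
      _ = f.natDegree := hf.natDegree_map _
  have h1 := card_le_mul_card_image T f.natDegree hfib
  calc (T.card : ℝ) ≤ ((f.natDegree * (T.image p).card : ℕ) : ℝ) := by exact_mod_cast h1
    _ = f.natDegree * ((T.image p).card : ℝ) := by push_cast; ring
    _ ≤ f.natDegree * c := mul_le_mul_of_nonneg_left hF (Nat.cast_nonneg _)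

/-! ### the congruences -/

/-- the congruence modulo `p` -/
lemma cong_one (P1 Q1 Ab : ℤ[X]) {s x y w g : ℤ} {p : ℕ} (h1 : P1.eval s = g * y)
    (h2 : Q1.eval s = g * x) (h3 : (p : ℤ) ∣ x - w * y) (h4 : (p : ℤ) ∣ Ab.eval w + s) :
    (p : ℤ) ∣ (P1.comp (-Ab) * X - Q1.comp (-Ab)).eval w := by
  have h5 : (p : ℤ) ∣ s - (-Ab).eval w := by
    rw [eval_neg, sub_neg_eq_add, add_comm]; exact h4
  have h6 : (p : ℤ) ∣ P1.eval s - P1.eval ((-Ab).eval w) := h5.trans (sub_dvd_eval_sub _ _ _)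
  have h7 : (p : ℤ) ∣ Q1.eval s - Q1.eval ((-Ab).eval w) := h5.trans (sub_dvd_eval_sub _ _ _)
  rw [eval_sub, eval_mul, eval_X, eval_comp, eval_comp]
  have h8 : P1.eval ((-Ab).eval w) * w - Q1.eval ((-Ab).eval w) =
      -(g * (x - w * y)) - (P1.eval s - P1.eval ((-Ab).eval w)) * w +
        (Q1.eval s - Q1.eval ((-Ab).eval w)) := by
    rw [h1, h2]; ring
  rw [h8]
  exact dvd_add (dvd_sub ((h3.mul_left g).neg_right) (h6.mul_right w)) h7

/-- the congruence modulo `p ^ 2` and the derivatives -/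
lemma cong_two (f P1 Q1 Ab : ℤ[X]) (hfX : f ∣ P1.comp (-Ab) * X - Q1.comp (-Ab))
    {s x y w g : ℤ} {p : ℕ} (hp : p.Prime) (h1 : P1.eval s = g * y)
    (h2 : Q1.eval s = g * x) (h3 : (p : ℤ) ^ 2 ∣ x - w * y) (hfw : (p : ℤ) ^ 2 ∣ f.eval w)
    (h4 : (p : ℤ) ∣ Ab.eval w + s) (h5 : ¬ (p : ℤ) ^ 2 ∣ Ab.eval w + s) :
    (p : ℤ) ∣ P1.derivative.eval s * x - Q1.derivative.eval s * y := by
  obtain ⟨k, hk⟩ := h4
  have hp0 : (p : ℤ) ≠ 0 := by exact_mod_cast hp.ne_zero
  have hpk : ¬ (p : ℤ) ∣ k := by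
    rintro ⟨k', rfl⟩
    exact h5 ⟨k', by rw [hk]; ring⟩
  have hl : (-Ab).eval w = s + (-(p * k)) := by rw [eval_neg]; linarith
  obtain ⟨k1, hk1⟩ := P1.binomExpansion s (-(p * k))
  obtain ⟨k2, hk2⟩ := Q1.binomExpansion s (-(p * k))
  have h6 : (p : ℤ) ^ 2 ∣ P1.eval ((-Ab).eval w) * w - Q1.eval ((-Ab).eval w) := by
    obtain ⟨q, hq⟩ := hfX
    have h7 := congrArg (eval w) hq
    rw [eval_sub, eval_mul, eval_X, eval_comp, eval_comp, eval_mul] at h7
    rw [h7]
    exact hfw.mul_right _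
  rw [hl, hk1, hk2, h1, h2] at h6
  have h7 : (p : ℤ) ^ 2 ∣ p * (k * (P1.derivative.eval s * w - Q1.derivative.eval s)) := by
    have h8 : (p : ℤ) * (k * (P1.derivative.eval s * w - Q1.derivative.eval s)) =
        -(g * (x - w * y)) + (p : ℤ) ^ 2 * (k ^ 2 * (k1 * w - k2)) -
        ((g * y + eval s (derivative P1) * -(↑p * k) + k1 * (-(↑p * k)) ^ 2) * w -
          (g * x + eval s (derivative Q1) * -(↑p * k) + k2 * (-(↑p * k)) ^ 2)) := by ring
    rw [h8]
    exact dvd_sub (dvd_add ((h3.mul_left g).neg_right) (dvd_mul_right _ _)) h6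
  have h9 : (p : ℤ) ∣ k * (P1.derivative.eval s * w - Q1.derivative.eval s) := by
    rw [pow_two] at h7
    exact (mul_dvd_mul_iff_left hp0).1 h7
  have h10 : (p : ℤ) ∣ P1.derivative.eval s * w - Q1.derivative.eval s :=
    ((Nat.prime_iff_prime_int.1 hp).dvd_or_dvd h9).resolve_left hpk
  have h11 : P1.derivative.eval s * x - Q1.derivative.eval s * y =
      P1.derivative.eval s * (x - w * y) +
        (P1.derivative.eval s * w - Q1.derivative.eval s) * y := by ring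
  rw [h11]
  refine dvd_add (Dvd.dvd.mul_left ?_ _) (h10.mul_right _)
  exact (dvd_pow_self _ two_ne_zero).trans h3

/-- the common factor -/
lemma common_factor {x y a b : ℤ} (hxy : IsCoprime x y) (hy : y ≠ 0) (h : x * a = y * b) :
    ∃ g : ℤ, a = g * y ∧ b = g * x := by
  have h1 : y ∣ x * a := ⟨b, h⟩
  obtain ⟨g, hg⟩ := hxy.symm.dvd_of_dvd_mul_left h1
  refine ⟨g, by rw [hg]; ring, ?_⟩
  rw [hg] at h
  have h2 : y * b = y * (g * x) := by rw [← h]; ring
  exact mul_left_cancel₀ hy h2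

lemma nat_le_rpow {X : ℝ} (hX : 2 ≤ X) (B : ℕ) : (B : ℝ) ≤ X ^ (B : ℝ) := by
  rw [Real.rpow_natCast]
  calc (B : ℝ) ≤ (2 : ℝ) ^ B := by exact_mod_cast (Nat.lt_two_pow_self (n := B)).le
    _ ≤ X ^ B := pow_le_pow_left₀ (by norm_num) hX _

lemma omega_le_divisors (D c : ℕ) (hc : c ≠ 0) :
    D ^ c.primeFactors.card ≤ c.divisors.card ^ D := by
  have h1 : 2 ^ c.primeFactors.card ≤ c.divisors.card := by
    have h2 : (c.primeFactors.powerset).card ≤ c.divisors.card := by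
      refine card_le_card_of_injOn (fun s => ∏ l ∈ s, l) (fun s hs => ?_) ?_
      · show (∏ l ∈ s, l) ∈ (c.divisors : Set ℕ)
        rw [mem_coe, Nat.mem_divisors]
        have hs' := mem_powerset.1 hs
        refine ⟨(prod_dvd_prod_of_subset _ _ _ hs').trans (Nat.prod_primeFactors_dvd c), hc⟩
      · intro s hs t ht hst
        have hs' := mem_powerset.1 hs
        have ht' := mem_powerset.1 ht
        have h3 : ∀ u ⊆ c.primeFactors, (∏ l ∈ u, l).primeFactors = u := fun u hu =>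
          Nat.primeFactors_prod fun l hl => Nat.prime_of_mem_primeFactors (hu hl)
        rw [← h3 s hs', ← h3 t ht']
        simp only at hst
        rw [hst]
    rwa [card_powerset] at h2
  calc D ^ c.primeFactors.card ≤ (2 ^ D) ^ c.primeFactors.card :=
        Nat.pow_le_pow_left (Nat.lt_two_pow_self).le _
    _ = (2 ^ c.primeFactors.card) ^ D := by rw [← pow_mul, ← pow_mul, mul_comm]
    _ ≤ c.divisors.card ^ D := Nat.pow_le_pow_left h1 D

/-- the points with a prime not dividing the Bezout constant -/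
lemma rest_count (D L K : ℕ)
    (hK : ∀ A B : ℤ[X], A.natDegree ≤ D →
      B.natDegree ≤ D → derivative A * B - derivative B * A ≠ 0 →
      ∀ c : ℕ, c ≠ 0 → ∀ (X : ℝ) (T : Finset ℤ),
      (∀ y ∈ T, ∃ (x0 y0 : ℤ) (p : ℕ), A.eval y = c * y0 ∧ B.eval y = c * x0 ∧
        |(x0 : ℝ)| ≤ X ∧ |(y0 : ℝ)| ≤ X ∧ p.Prime ∧ X ^ 2 ≤ L * p ∧ ¬ p ∣ c ∧
        (p : ℤ) ∣ A.derivative.eval y * x0 - B.derivative.eval y * y0) →
      T.card ≤ K * (D ^ c.primeFactors.card * D ^ c.primeFactors.card))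
    (P1 Q1 p q : ℤ[X]) (R : ℤ) (hR0 : R ≠ 0) (hR : P1 * p + Q1 * q = C R)
    (hP : P1.natDegree ≤ D) (hQ : Q1.natDegree ≤ D)
    (hW : derivative P1 * Q1 - derivative Q1 * P1 ≠ 0) (X : ℝ) (T : Finset ℤ)
    (hT : ∀ s ∈ T, ∃ (x y g : ℤ) (l : ℕ), P1.eval s = g * y ∧ Q1.eval s = g * x ∧
      |(x : ℝ)| ≤ X ∧ |(y : ℝ)| ≤ X ∧ l.Prime ∧ X ^ 2 ≤ L * l ∧ ¬ (l : ℤ) ∣ R ∧
      (l : ℤ) ∣ P1.derivative.eval s * x - Q1.derivative.eval s * y) :
    T.card ≤ (K * (R.natAbs.divisors.card ^ D * R.natAbs.divisors.card ^ D)) *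
      (2 * R.natAbs.divisors.card) := by
  classical
  choose! x y g l h1 h2 h3 h4 h5 h6 h7 h8 using hT
  have hgR : ∀ s ∈ T, g s ∣ R := by
    intro s hs
    have h9 := congrArg (eval s) hR
    rw [eval_add, eval_mul, eval_mul, eval_C, h1 s hs, h2 s hs] at h9
    exact ⟨y s * p.eval s + x s * q.eval s, by rw [← h9]; ring⟩
  set G : Finset ℤ := (R.natAbs.divisors.image (fun k : ℕ => (k : ℤ))) ∪
    (R.natAbs.divisors.image (fun k : ℕ => -(k : ℤ))) with hG
  have hGc : G.card ≤ 2 * R.natAbs.divisors.card := by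
    refine (card_union_le _ _).trans ?_
    have k1 := card_image_le (s := R.natAbs.divisors) (f := fun k : ℕ => (k : ℤ))
    have k2 := card_image_le (s := R.natAbs.divisors) (f := fun k : ℕ => -(k : ℤ))
    omega
  have hmem : ∀ s ∈ T, g s ∈ G := by
    intro s hs
    have k2 : (g s).natAbs ∈ R.natAbs.divisors := by
      rw [Nat.mem_divisors]
      exact ⟨Int.natAbs_dvd_natAbs.mpr (hgR s hs), by simpa using hR0⟩
    rw [hG, mem_union, mem_image, mem_image]
    rcases le_total 0 (g s) with k3 | k3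
    · left; exact ⟨_, k2, by rw [Int.natAbs_of_nonneg k3]⟩
    · right; exact ⟨_, k2, by rw [Int.ofNat_natAbs_of_nonpos k3, neg_neg]⟩
  have hfib : ∀ γ ∈ G, (T.filter fun s => g s = γ).card ≤
      K * (R.natAbs.divisors.card ^ D * R.natAbs.divisors.card ^ D) := by
    intro γ _
    rcases (T.filter fun s => g s = γ).eq_empty_or_nonempty with h | ⟨s0, hs0⟩
    · rw [h]; simp
    obtain ⟨hs0T, hs0γ⟩ := mem_filter.1 hs0
    have hγR : γ ∣ R := by rw [← hs0γ]; exact hgR s0 hs0T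
    have hγ0 : γ ≠ 0 := by
      rintro rfl
      exact hR0 (zero_dvd_iff.1 hγR)
    have hc0 : γ.natAbs ≠ 0 := Int.natAbs_ne_zero.2 hγ0
    have hγ : γ = γ.sign * γ.natAbs := (Int.sign_mul_natAbs γ).symm
    have hsg : |(γ.sign : ℝ)| = 1 := by
      rcases lt_or_gt_of_ne hγ0 with h | h
      · rw [Int.sign_eq_neg_one_of_neg h]; simp
      · rw [Int.sign_eq_one_of_pos h]; simp
    have k1 := hK P1 Q1 hP hQ hW γ.natAbs hc0 X (T.filter fun s => g s = γ) (by
      intro s hs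
      obtain ⟨hsT, hsγ⟩ := mem_filter.1 hs
      refine ⟨γ.sign * x s, γ.sign * y s, l s, ?_, ?_, ?_, ?_, h5 s hsT, h6 s hsT, ?_, ?_⟩
      · rw [h1 s hsT, hsγ]
        conv_lhs => rw [hγ]
        ring
      · rw [h2 s hsT, hsγ]
        conv_lhs => rw [hγ]
        ring
      · push_cast; rw [abs_mul, hsg, one_mul]; exact h3 s hsT
      · push_cast; rw [abs_mul, hsg, one_mul]; exact h4 s hsT
      · intro hl
        apply h7 s hsT
        have k2 : (l s : ℤ) ∣ (γ.natAbs : ℤ) := by exact_mod_cast hl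
        exact k2.trans ((Int.natAbs_dvd.2 dvd_rfl).trans hγR)
      · have k2 : P1.derivative.eval s * (γ.sign * x s) - Q1.derivative.eval s * (γ.sign * y s) =
            γ.sign * (P1.derivative.eval s * x s - Q1.derivative.eval s * y s) := by ring
        rw [k2]
        exact (h8 s hsT).mul_left _)
    refine k1.trans (Nat.mul_le_mul_left K ?_)
    have k3 : γ.natAbs.divisors.card ≤ R.natAbs.divisors.card :=
      card_le_card (Nat.divisors_subset_of_dvd (by simpa using hR0)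
        (Int.natAbs_dvd_natAbs.2 hγR))
    have k4 : D ^ γ.natAbs.primeFactors.card ≤ R.natAbs.divisors.card ^ D :=
      (omega_le_divisors D _ hc0).trans (Nat.pow_le_pow_left k3 D)
    exact Nat.mul_le_mul k4 k4
  have k5 := card_le_mul_card_image_of_maps_to (f := g) hmem _ hfib
  exact k5.trans (Nat.mul_le_mul_left _ hGc)

/-- **The second step on a window.** -/
theorem step2 (f : ℤ[X]) (hf : f.Monic) (hirr : Irreducible f) (hd : 2 ≤ f.natDegree)
    (m a : ℕ) (c0 ε : ℝ) (hε : 0 < ε) :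
    ∃ C : ℝ, 0 < C ∧ ∀ L : ℕ, 1 ≤ L → ∀ X P0 : ℝ, 2 ≤ X → X ^ 2 ≤ L * P0 →
      ∀ (Ab P Q : ℤ[X]),
      Ab.natDegree ≤ a → P.natDegree ≤ m → Q.natDegree ≤ m → (P ≠ 0 ∨ Q ≠ 0) →
      (∀ i, |(Ab.coeff i : ℝ)| ≤ X ^ c0) → (∀ i, |(P.coeff i : ℝ)| ≤ X ^ c0) →
      (∀ i, |(Q.coeff i : ℝ)| ≤ X ^ c0) → ∀ T : Finset ℤ,
      (∀ s ∈ T, 2 * |(s : ℝ)| < P0 ∧ ∃ (x y w : ℤ) (p : ℕ), p.Prime ∧ P0 < p ∧ X < p ∧
        IsCoprime x y ∧ |(x : ℝ)| ≤ X ∧ |(y : ℝ)| ≤ X ∧ (p : ℤ) ^ 2 ∣ x - w * y ∧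
        (p : ℤ) ^ 2 ∣ f.eval w ∧ (p : ℤ) ∣ Ab.eval w + s ∧ ¬ (p : ℤ) ^ 2 ∣ Ab.eval w + s ∧
        x * P.eval s = y * Q.eval s) →
      (T.card : ℝ) ≤ C * L * X ^ ε := by
  classical
  set D : ℕ := m + 1 with hD
  obtain ⟨K, hK⟩ := two_root_card D (by omega)
  set c1 : ℝ := max c0 0 with hc1
  have hc10 : 0 ≤ c1 := le_max_right _ _
  obtain ⟨F0, hF0⟩ : ∃ F0 : ℕ, ∀ i, |(f.coeff i : ℝ)| ≤ F0 := by
    obtain ⟨F0, hF0⟩ : ∃ F0 : ℕ, (absP f f.natDegree).eval 1 ≤ (F0 : ℤ) :=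
      ⟨_, Int.le_natAbs⟩
    refine ⟨F0, fun i => ?_⟩
    have h2 : |f.coeff i| ≤ (F0 : ℤ) := ((dom_absP f f.natDegree le_rfl).le_eval i).trans hF0
    exact_mod_cast h2
  set e : ℕ := f.natDegree + m * a + 1 with he
  set k1 : ℕ := 2 ^ D * D with hk1
  set B1 : ℕ := F0 + 2 * ((m + 1) * k1 * (a + 1) ^ m) + 1 with hB1
  set c2 : ℝ := c1 + c1 * m with hc2
  have hc20 : 0 ≤ c2 := by positivity
  set c3 : ℝ := (((2 * e).factorial * B1 ^ (2 * e) : ℕ) : ℝ) + c2 * (2 * e : ℕ) with hc3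
  set c4 : ℝ := (((2 * m).factorial * k1 ^ (2 * m) : ℕ) : ℝ) + c1 * (2 * m : ℕ) with hc4
  have hc30 : 0 ≤ c3 := by positivity
  have hc40 : 0 ≤ c4 := by positivity
  set ε' : ℝ := ε / ((2 * D + 1) * (c4 + 1)) with hε'
  have hε'0 : 0 < ε' := by positivity
  obtain ⟨C1, hC1, hdiv⟩ := Pool.Agent.Lib.MP0b15c0.divisor_bound hε'0
  refine ⟨2 * m + f.natDegree * c3 + f.natDegree * c4 + 2 * K * C1 ^ (2 * D + 1) + 1,
    by positivity, ?_⟩
  intro L hL X P0 hX hXP Ab P Q hAb hP hQ hPQ hAbc hPc hQc T hT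
  have hLR : (1 : ℝ) ≤ L := by exact_mod_cast hL
  have hX1 : (1 : ℝ) ≤ X := by linarith
  have hX0 : (0 : ℝ) < X := by linarith
  have hXε : (1 : ℝ) ≤ X ^ ε := Real.one_le_rpow hX1 hε.le
  have hXc1 : (1 : ℝ) ≤ X ^ c1 := Real.one_le_rpow hX1 hc10
  have hmono : X ^ c0 ≤ X ^ c1 := Real.rpow_le_rpow_of_exponent_le hX1 (le_max_left _ _)
  have hAbc' : ∀ i, |(Ab.coeff i : ℝ)| ≤ X ^ c1 := fun i => (hAbc i).trans hmono
  have hPc' : ∀ i, |(P.coeff i : ℝ)| ≤ X ^ c1 := fun i => (hPc i).trans hmono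
  have hQc' : ∀ i, |(Q.coeff i : ℝ)| ≤ X ^ c1 := fun i => (hQc i).trans hmono
  -- `y` is not zero
  have hy0 : ∀ (x y w : ℤ) (p : ℕ), p.Prime → IsCoprime x y → (p : ℤ) ^ 2 ∣ x - w * y →
      y ≠ 0 := by
    intro x y w p hp hxy h hy
    rw [hy, mul_zero, sub_zero] at h
    rw [hy, isCoprime_zero_right, Int.isUnit_iff] at hxy
    have h1 : (p : ℤ) ∣ x := (dvd_pow_self _ two_ne_zero).trans h
    have h2 := hp.one_lt
    rcases hxy with h3 | h3
    · rw [h3] at h1
      have := Int.le_of_dvd one_pos h1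
      omega
    · rw [h3, dvd_neg] at h1
      have := Int.le_of_dvd one_pos h1
      omega
  have hroots : ∀ (G : ℤ[X]), G ≠ 0 → G.natDegree ≤ m → ∀ T' : Finset ℤ,
      (∀ s ∈ T', G.eval s = 0) → (T'.card : ℝ) ≤ m := by
    intro G hG hGm T' hT'
    have h1 : T' ⊆ G.roots.toFinset := by
      intro s hs
      rw [Multiset.mem_toFinset, mem_roots hG]
      exact hT' s hs
    have h2 : T'.card ≤ m := (card_le_card h1).trans ((Multiset.toFinset_card_le _).trans
      ((card_roots' _).trans hGm))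
    exact_mod_cast h2
  have hfin : ∀ z : ℝ, z ≤ 2 * m + f.natDegree * c3 + f.natDegree * c4 →
      z ≤ (2 * m + f.natDegree * c3 + f.natDegree * c4 + 2 * K * C1 ^ (2 * D + 1) + 1) * L *
        X ^ ε := by
    intro z hz
    have h1 : (0 : ℝ) ≤ 2 * K * C1 ^ (2 * D + 1) := by positivity
    have h2 : (0 : ℝ) ≤ 2 * m + f.natDegree * c3 + f.natDegree * c4 := by positivity
    have h3 : (1 : ℝ) ≤ L * X ^ ε := by nlinarith
    rw [mul_assoc]
    nlinarith
  by_cases hP0 : P = 0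
  · -- `Q` vanishes
    have hQ0 : Q ≠ 0 := by
      rcases hPQ with h | h
      · exact absurd hP0 h
      · exact h
    apply hfin
    have h1 := hroots Q hQ0 hQ T (by
      intro s hs
      obtain ⟨-, x, y, w, p, hp, -, -, hxy, -, -, h3, -, -, -, h4⟩ := hT s hs
      rw [hP0, eval_zero, mul_zero] at h4
      exact (mul_eq_zero.1 h4.symm).resolve_left (hy0 x y w p hp hxy h3))
    have h2 : (0 : ℝ) ≤ f.natDegree * c3 := by positivity
    have h3 : (0 : ℝ) ≤ f.natDegree * c4 := by positivity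
    have h4 : (0 : ℝ) ≤ m := Nat.cast_nonneg _
    linarith
  obtain ⟨P1, Q1, G, hrel, hGP, hGQ⟩ := UniqueFactorizationMonoid.exists_reduced_factors P hP0 Q
  have hG0 : G ≠ 0 := by
    rintro rfl
    exact hP0 (by rw [← hGP, zero_mul])
  have hP10 : P1 ≠ 0 := by
    rintro rfl
    exact hP0 (by rw [← hGP, mul_zero])
  have hGm : G.natDegree ≤ m := (natDegree_le_of_dvd ⟨P1, hGP.symm⟩ hP0).trans hP
  have hP1m : P1.natDegree ≤ m :=
    (natDegree_le_of_dvd ⟨G, by rw [← hGP]; ring⟩ hP0).trans hP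
  have hQ1m : Q1.natDegree ≤ m := by
    by_cases hQ0 : Q = 0
    · have h1 : Q1 = 0 := by
        rw [hQ0] at hGQ
        exact (mul_eq_zero.1 hGQ).resolve_left hG0
      rw [h1]; simp
    · exact (natDegree_le_of_dvd ⟨G, by rw [← hGQ]; ring⟩ hQ0).trans hQ
  have hP1c : ∀ i, |(P1.coeff i : ℝ)| ≤ k1 * X ^ c1 := by
    intro i
    have h1 := Pool.Agent.Lib.SQF.Bez.coeff_le_of_dvd_uni P P1 ⟨G, by rw [← hGP]; ring⟩ hP0 D
      (by omega) _ hPc' i
    refine h1.trans (le_of_eq ?_)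
    rw [hk1]; push_cast; ring
  have hQ1c : ∀ i, |(Q1.coeff i : ℝ)| ≤ k1 * X ^ c1 := by
    intro i
    by_cases hQ0 : Q = 0
    · have h1 : Q1 = 0 := by
        rw [hQ0] at hGQ
        exact (mul_eq_zero.1 hGQ).resolve_left hG0
      rw [h1]; simp; positivity
    · have h1 := Pool.Agent.Lib.SQF.Bez.coeff_le_of_dvd_uni Q Q1 ⟨G, by rw [← hGQ]; ring⟩ hQ0 D
        (by omega) _ hQc' i
      refine h1.trans (le_of_eq ?_)
      rw [hk1]; push_cast; ring
  -- the polynomial `Ξ`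
  set Ξ : ℤ[X] := P1.comp (-Ab) * Polynomial.X - Q1.comp (-Ab) with hΞ
  -- splitting off the zeros of `G`
  set TG := T.filter fun s => G.eval s = 0 with hTG
  set T1 := T.filter fun s => ¬ G.eval s = 0 with hT1
  have hcardT : (T.card : ℝ) = TG.card + T1.card := by
    have := card_filter_add_card_filter_not (s := T) (fun s => G.eval s = 0)
    rw [hTG, hT1]
    exact_mod_cast this.symm
  have hTGc : (TG.card : ℝ) ≤ m := hroots G hG0 hGm TG fun s hs => (mem_filter.1 hs).2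
  have hdata : ∀ s ∈ T1, 2 * |(s : ℝ)| < P0 ∧ ∃ (x y w : ℤ) (p : ℕ) (g : ℤ), p.Prime ∧
      P0 < p ∧ X < p ∧
        |(x : ℝ)| ≤ X ∧ |(y : ℝ)| ≤ X ∧ (p : ℤ) ^ 2 ∣ x - w * y ∧
        (p : ℤ) ^ 2 ∣ f.eval w ∧ (p : ℤ) ∣ Ab.eval w + s ∧ ¬ (p : ℤ) ^ 2 ∣ Ab.eval w + s ∧
        P1.eval s = g * y ∧ Q1.eval s = g * x := by
    intro s hs
    obtain ⟨hsT, hsG⟩ := mem_filter.1 hs
    obtain ⟨h0, x, y, w, p, hp, hpP, hpX, hxy, hx, hy, h3, h4, h5, h6, h7⟩ := hT s hsT
    have h8 : x * P1.eval s = y * Q1.eval s := by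
      have h9 : G.eval s * (x * P1.eval s) = G.eval s * (y * Q1.eval s) := by
        have h10 : P.eval s = G.eval s * P1.eval s := by rw [← hGP, eval_mul]
        have h11 : Q.eval s = G.eval s * Q1.eval s := by rw [← hGQ, eval_mul]
        rw [h10, h11] at h7
        linear_combination h7
      exact mul_left_cancel₀ hsG h9
    obtain ⟨g, hg1, hg2⟩ := common_factor hxy (hy0 x y w p hp hxy h3) h8
    exact ⟨h0, x, y, w, p, g, hp, hpP, hpX, hx, hy, h3, h4, h5, h6, hg1, hg2⟩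
  by_cases hfΞ : f ∣ Ξ
  · -- the derivative argument
    have hdeg : 0 < P1.natDegree + Q1.natDegree := by
      by_contra hcon
      have h1 : P1.natDegree = 0 := by omega
      have h2 : Q1.natDegree = 0 := by omega
      have h3 : P1.coeff 0 ≠ 0 := by
        intro h4
        apply hP10
        rw [eq_C_of_natDegree_eq_zero h1, h4, C_0]
      have h4 : Ξ = C (P1.coeff 0) * Polynomial.X + C (-(Q1.coeff 0)) := by
        rw [hΞ, eq_C_of_natDegree_eq_zero h1, eq_C_of_natDegree_eq_zero h2, C_comp, C_comp,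
          coeff_C_zero, coeff_C_zero, C_neg]
        ring
      have h5 : Ξ.natDegree = 1 := by rw [h4]; exact natDegree_linear h3
      have h6 : Ξ ≠ 0 := by
        intro h7
        rw [h7, natDegree_zero] at h5
        omega
      have h7 := natDegree_le_of_dvd hfΞ h6
      omega
    have hW := wronskian_ne hrel hdeg
    have hk1X : (1 : ℝ) ≤ k1 * X ^ c1 := by
      have h1 : (1 : ℝ) ≤ k1 := by
        have : 0 < k1 := by rw [hk1]; positivity
        exact_mod_cast this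
      nlinarith
    obtain ⟨p', q', R, hR0, -, -, hR, hRb⟩ := Pool.Agent.SQF4.bezout_bound m P1 Q1 (k1 * X ^ c1)
      hk1X hP1m hQ1m (coprime_of_relPrime hP10 hrel) hP1c hQ1c hdeg
    have hRc : |(R : ℝ)| ≤ X ^ c4 := by
      refine hRb.trans ?_
      rw [hc4, Real.rpow_add hX0, mul_pow]
      have h1 := nat_le_rpow hX ((2 * m).factorial * k1 ^ (2 * m))
      have h2 : (X ^ c1) ^ (2 * m) = X ^ (c1 * (2 * m : ℕ)) := by
        rw [Real.rpow_mul hX0.le, Real.rpow_natCast]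
      rw [h2]
      calc ((2 * m).factorial : ℝ) * ((k1 : ℝ) ^ (2 * m) * X ^ (c1 * (2 * m : ℕ)))
          = (((2 * m).factorial * k1 ^ (2 * m) : ℕ) : ℝ) * X ^ (c1 * (2 * m : ℕ)) := by
            push_cast; ring
        _ ≤ _ := mul_le_mul_of_nonneg_right h1 (by positivity)
    -- bad primes
    set TR := T1.filter fun s => ∃ (w : ℤ) (p : ℕ), p.Prime ∧ P0 < p ∧ X < p ∧
      (p : ℤ) ∣ f.eval w ∧ (p : ℤ) ∣ Ab.eval w + s ∧ (p : ℤ) ∣ R with hTR
    set T2 := T1.filter fun s => ¬ ∃ (w : ℤ) (p : ℕ), p.Prime ∧ P0 < p ∧ X < p ∧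
      (p : ℤ) ∣ f.eval w ∧ (p : ℤ) ∣ Ab.eval w + s ∧ (p : ℤ) ∣ R with hT2
    have hcardT1 : (T1.card : ℝ) = TR.card + T2.card := by
      have := card_filter_add_card_filter_not (s := T1) (fun s => ∃ (w : ℤ) (p : ℕ),
        p.Prime ∧ P0 < p ∧ X < p ∧
        (p : ℤ) ∣ f.eval w ∧ (p : ℤ) ∣ Ab.eval w + s ∧ (p : ℤ) ∣ R)
      rw [hTR, hT2]
      exact_mod_cast this.symm
    have hTRc : (TR.card : ℝ) ≤ f.natDegree * c4 := by
      refine bad_count hX f Ab hf R hR0 hRc TR (P0 := P0) fun s hs => ?_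
      obtain ⟨h1, h2⟩ := mem_filter.1 hs
      exact ⟨(hdata s h1).1, h2⟩
    have hT2c : T2.card ≤ ((K * L) * (R.natAbs.divisors.card ^ D *
        R.natAbs.divisors.card ^ D)) * (2 * R.natAbs.divisors.card) := by
      refine rest_count D L (K * L) (hK L hL) P1 Q1 p' q' R hR0 hR (by omega) (by omega) hW X
        T2 ?_
      intro s hs
      obtain ⟨h1, h2⟩ := mem_filter.1 hs
      obtain ⟨h0, x, y, w, p, g, hp, hpP, hpX, hx, hy, h3, h4, h5, h6, h7, h8⟩ := hdata s h1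
      refine ⟨x, y, g, p, h7, h8, hx, hy, hp, ?_, ?_, ?_⟩
      · refine hXP.trans ?_
        exact mul_le_mul_of_nonneg_left hpP.le (Nat.cast_nonneg _)
      · intro h9
        exact h2 ⟨w, p, hp, hpP, hpX, (dvd_pow_self _ two_ne_zero).trans h4, h5, h9⟩
      · exact cong_two f P1 Q1 Ab hfΞ hp h7 h8 h3 h4 h5 h6
    have hτ : ((R.natAbs.divisors.card : ℕ) : ℝ) ≤ C1 * X ^ (c4 * ε') := by
      have h1 := hdiv R.natAbs (by simpa using hR0)
      refine h1.trans (mul_le_mul_of_nonneg_left ?_ hC1.le)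
      have h2 : ((R.natAbs : ℕ) : ℝ) ≤ X ^ c4 := by
        rw [Nat.cast_natAbs, Int.cast_abs]
        exact hRc
      rw [Real.rpow_mul hX0.le]
      exact Real.rpow_le_rpow (by positivity) h2 hε'0.le
    have hT2r : (T2.card : ℝ) ≤ 2 * K * C1 ^ (2 * D + 1) * L * X ^ ε := by
      have h1 : (T2.card : ℝ) ≤ 2 * K * L * ((R.natAbs.divisors.card : ℕ) : ℝ) ^ (2 * D + 1) := by
        have h2 : (T2.card : ℝ) ≤ ((((K * L) * (R.natAbs.divisors.card ^ D *
          R.natAbs.divisors.card ^ D)) * (2 * R.natAbs.divisors.card) : ℕ) : ℝ) := by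
          exact_mod_cast hT2c
        refine h2.trans (le_of_eq ?_)
        push_cast
        ring
      refine h1.trans ?_
      have h2 : (((R.natAbs.divisors.card : ℕ) : ℝ)) ^ (2 * D + 1) ≤
          (C1 * X ^ (c4 * ε')) ^ (2 * D + 1) := pow_le_pow_left₀ (Nat.cast_nonneg _) hτ _
      have h3 : (C1 * X ^ (c4 * ε')) ^ (2 * D + 1) ≤ C1 ^ (2 * D + 1) * X ^ ε := by
        rw [mul_pow, ← Real.rpow_natCast (X ^ (c4 * ε')), ← Real.rpow_mul hX0.le]
        refine mul_le_mul_of_nonneg_left ?_ (by positivity)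
        apply Real.rpow_le_rpow_of_exponent_le hX1
        rw [hε']
        have h4 : (0 : ℝ) < (2 * D + 1) * (c4 + 1) := by positivity
        have h5 : c4 * (ε / ((2 * D + 1) * (c4 + 1))) * ((2 * D + 1 : ℕ) : ℝ) =
            (c4 * (2 * D + 1)) * ε / ((2 * D + 1) * (c4 + 1)) := by
          push_cast; ring
        rw [h5, div_le_iff₀ h4]
        have h6 : (0 : ℝ) ≤ (2 * D + 1) * ε := by positivity
        nlinarith
      calc 2 * K * L * ((R.natAbs.divisors.card : ℕ) : ℝ) ^ (2 * D + 1)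
          ≤ 2 * K * L * (C1 ^ (2 * D + 1) * X ^ ε) :=
            mul_le_mul_of_nonneg_left (h2.trans h3) (by positivity)
        _ = 2 * K * C1 ^ (2 * D + 1) * L * X ^ ε := by ring
    have h7 : (0 : ℝ) ≤ f.natDegree * c3 := by positivity
    have h8 : (0 : ℝ) ≤ f.natDegree * c4 := by positivity
    have h9 : (0 : ℝ) ≤ m := Nat.cast_nonneg _
    rw [hcardT, hcardT1]
    have hLX : (1 : ℝ) ≤ L * X ^ ε := by nlinarith
    have h10 : (TG.card : ℝ) + TR.card ≤
        (2 * m + f.natDegree * c3 + f.natDegree * c4) * (L * X ^ ε) := by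
      have h11 : (TG.card : ℝ) + TR.card ≤ 2 * m + f.natDegree * c3 + f.natDegree * c4 := by
        linarith
      have h12 : (0 : ℝ) ≤ 2 * m + f.natDegree * c3 + f.natDegree * c4 := by positivity
      exact h11.trans (le_mul_of_one_le_right h12 hLX)
    have h13 : (2 * m + f.natDegree * c3 + f.natDegree * c4 + 2 * K * C1 ^ (2 * D + 1) + 1) * L *
        X ^ ε = (2 * m + f.natDegree * c3 + f.natDegree * c4) * (L * X ^ ε) +
          2 * K * C1 ^ (2 * D + 1) * L * X ^ ε + L * X ^ ε := by ring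
    rw [h13]
    linarith
  · -- the resultant
    apply hfin
    have hΞ0 : f.natDegree + m * a + 1 = e := rfl
    have hΞdeg : Ξ.natDegree ≤ e := by
      have h1 : ∀ F : ℤ[X], F.natDegree ≤ m → (F.comp (-Ab)).natDegree ≤ m * a := by
        intro F hF
        refine natDegree_comp_le.trans ?_
        rw [natDegree_neg]
        exact Nat.mul_le_mul hF hAb
      rw [hΞ]
      refine (natDegree_sub_le _ _).trans (max_le ?_ ?_)
      · refine natDegree_mul_le.trans ?_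
        have := h1 P1 hP1m
        have h2 : (Polynomial.X : ℤ[X]).natDegree ≤ 1 := natDegree_X_le
        omega
      · have := h1 Q1 hQ1m
        omega
    set Tb : ℝ := B1 * X ^ c2 with hTb
    have hXc2 : (1 : ℝ) ≤ X ^ c2 := Real.one_le_rpow hX1 hc20
    have hB11 : (1 : ℝ) ≤ B1 := by
      have : 0 < B1 := by omega
      exact_mod_cast this
    have hTb1 : 1 ≤ Tb := by rw [hTb]; nlinarith
    have hfc : ∀ i, |(f.coeff i : ℝ)| ≤ Tb := by
      intro i
      refine (hF0 i).trans ?_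
      have h1 : (F0 : ℝ) ≤ B1 := by
        have : F0 ≤ B1 := by omega
        exact_mod_cast this
      rw [hTb]
      nlinarith
    have hAbn : ∀ i, |((-Ab).coeff i : ℝ)| ≤ X ^ c1 := by
      intro i
      rw [coeff_neg]
      push_cast
      rw [abs_neg]
      exact hAbc' i
    have hcomp : ∀ F : ℤ[X], F.natDegree ≤ m → (∀ i, |(F.coeff i : ℝ)| ≤ k1 * X ^ c1) →
        ∀ i, |((F.comp (-Ab)).coeff i : ℝ)| ≤ ((m + 1) * k1 * (a + 1) ^ m : ℕ) * X ^ c2 := by
      intro F hF hFc i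
      have h1 := comp_coeff_bound m a F (-Ab) hF (by rw [natDegree_neg]; exact hAb)
        (k1 * X ^ c1) (X ^ c1) hFc hAbn hXc1 i
      refine h1.trans (le_of_eq ?_)
      have h2 : X ^ c2 = X ^ c1 * (X ^ c1) ^ m := by
        rw [hc2, Real.rpow_add hX0, Real.rpow_mul hX0.le, Real.rpow_natCast]
      rw [h2, mul_pow]
      push_cast
      ring
    have hΞc : ∀ i, |(Ξ.coeff i : ℝ)| ≤ Tb := by
      intro i
      have h1 : |((P1.comp (-Ab) * Polynomial.X).coeff i : ℝ)| ≤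
          ((m + 1) * k1 * (a + 1) ^ m : ℕ) * X ^ c2 := by
        cases i with
        | zero => simp; positivity
        | succ i => rw [coeff_mul_X]; exact hcomp P1 hP1m hP1c i
      have h2 := hcomp Q1 hQ1m hQ1c i
      have h3 : ((Ξ.coeff i : ℤ) : ℝ) = ((P1.comp (-Ab) * Polynomial.X).coeff i : ℝ) -
          ((Q1.comp (-Ab)).coeff i : ℝ) := by
        rw [hΞ, coeff_sub]; push_cast; rfl
      rw [h3]
      refine (abs_sub _ _).trans ((add_le_add h1 h2).trans ?_)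
      have h4 : (2 * (((m + 1) * k1 * (a + 1) ^ m : ℕ) : ℝ)) ≤ B1 := by
        have : 2 * ((m + 1) * k1 * (a + 1) ^ m) ≤ B1 := by omega
        exact_mod_cast this
      rw [hTb]
      nlinarith
    have hfne : f ≠ 0 := hf.ne_zero
    have hrelf : IsRelPrime f Ξ := (hirr.isRelPrime_iff_not_dvd).2 hfΞ
    obtain ⟨p', q', R, hR0, -, -, hR, hRb⟩ := Pool.Agent.SQF4.bezout_bound e f Ξ Tb
      hTb1 (by omega) hΞdeg (coprime_of_relPrime hfne hrelf) hfc hΞc (by omega)
    have hRc : |(R : ℝ)| ≤ X ^ c3 := by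
      refine hRb.trans ?_
      rw [hc3, Real.rpow_add hX0, hTb, mul_pow]
      have h1 := nat_le_rpow hX ((2 * e).factorial * B1 ^ (2 * e))
      have h2 : (X ^ c2) ^ (2 * e) = X ^ (c2 * (2 * e : ℕ)) := by
        rw [Real.rpow_mul hX0.le, Real.rpow_natCast]
      rw [h2]
      calc ((2 * e).factorial : ℝ) * ((B1 : ℝ) ^ (2 * e) * X ^ (c2 * (2 * e : ℕ)))
          = (((2 * e).factorial * B1 ^ (2 * e) : ℕ) : ℝ) * X ^ (c2 * (2 * e : ℕ)) := by
            push_cast; ring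
        _ ≤ _ := mul_le_mul_of_nonneg_right h1 (by positivity)
    have hT1c : (T1.card : ℝ) ≤ f.natDegree * c3 := by
      refine bad_count hX f Ab hf R hR0 hRc T1 (P0 := P0) fun s hs => ?_
      obtain ⟨h0, x, y, w, p, g, hp, hpP, hpX, hx, hy, h3, h4, h5, h6, h7, h8⟩ := hdata s hs
      have h9 : (p : ℤ) ∣ f.eval w := (dvd_pow_self _ two_ne_zero).trans h4
      refine ⟨h0, w, p, hp, hpP, hpX, h9, h5, ?_⟩
      have h10 := cong_one P1 Q1 Ab h7 h8 ((dvd_pow_self _ two_ne_zero).trans h3) h5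
      have h11 := congrArg (eval w) hR
      rw [eval_add, eval_mul, eval_mul, eval_C] at h11
      rw [← h11]
      exact dvd_add (h9.mul_right _) (h10.mul_right _)
    have h8 : (0 : ℝ) ≤ f.natDegree * c4 := by positivity
    have h9 : (0 : ℝ) ≤ m := Nat.cast_nonneg _
    rw [hcardT]
    linarith

end Pool.Agent.Lib.SqfH2
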