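import Pool.Agent.Lib.SqfH2.Asm2
import Pool.Agent.Lib.SqfH2.Step2

set_option autoImplicit false

/-!
Binary forms, first range (MP_8842b2_nt): the dyadic bound for every monic irreducible polynomial.
-/

namespace Pool.Agent.Lib.SqfH2

open Polynomial

/-- the dyadic bound -/
theorem dyF (f : ℤ[X]) (hm : f.Monic) (hi : Irreducible f) (hd : 2 ≤ f.natDegree) : DyF f :=
  dyF_of f hm hi hd fun m a c0 ε hε => step2 f hm hi hd m a c0 ε hε

end Pool.Agent.Lib.SqfH2
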