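import Pool.Agent.Lib.SqfH2.Defs
import Pool.Agent.Lib.SqfH2.Prim

set_option autoImplicit false

/-!
Binary forms, first range (MP_8842b2_nt): from one dyadic block and one monic irreducible
polynomial to the form of every polynomial which is separable over `Q`.
-/

namespace Pool.Agent.Lib.SqfH2

open Polynomial

noncomputable section

theorem PrimFew.mono {c η c' η' : ℝ} {Φ : ℤ → ℤ → ℤ} (hc : c' ≤ c) (hη : η' ≤ η)
    (h : PrimFew c η Φ) : PrimFew c' η' Φ := by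
  obtain ⟨C, hC, h⟩ := h
  refine ⟨C, hC, fun X hX N hN => ?_⟩
  have h1 := h X hX N (by
    intro v hv
    obtain ⟨h1, h2, h3, p, hp, hpX, hpc, hpd⟩ := hN v hv
    exact ⟨h1, h2, h3, p, hp, hpX,
      hpc.trans (Real.rpow_le_rpow_of_exponent_le hX (by linarith)), hpd⟩)
  exact h1.trans (mul_le_mul_of_nonneg_left
    (Real.rpow_le_rpow_of_exponent_le hX (by linarith)) hC.le)

/-- the trivial bound -/
private theorem box_card (X : ℝ) (hX : 1 ≤ X) (N : Finset (ℤ × ℤ))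
    (h : ∀ v ∈ N, |(v.1 : ℝ)| ≤ X ∧ |(v.2 : ℝ)| ≤ X) : (N.card : ℝ) ≤ 9 * X ^ 2 := by
  have h0 : ∀ z : ℤ, |(z : ℝ)| ≤ X → z ∈ Finset.Icc (-(⌊X⌋)) ⌊X⌋ := by
    intro z hz
    have h2 := abs_le.1 hz
    rw [Finset.mem_Icc]
    constructor
    · have h3 : -z ≤ ⌊X⌋ := by
        apply Int.le_floor.2
        push_cast
        linarith
      omega
    · exact Int.le_floor.2 h2.2
  have h1 : N ⊆ Finset.Icc (-(⌊X⌋)) ⌊X⌋ ×ˢ Finset.Icc (-(⌊X⌋)) ⌊X⌋ := by
    intro v hv
    rw [Finset.mem_product]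
    exact ⟨h0 _ (h v hv).1, h0 _ (h v hv).2⟩
  have h2 := Finset.card_le_card h1
  rw [Finset.card_product, Int.card_Icc] at h2
  have h3 : 0 ≤ ⌊X⌋ := Int.floor_nonneg.2 (by linarith)
  have h4 : ((⌊X⌋ + 1 - -⌊X⌋).toNat : ℝ) = 2 * (⌊X⌋ : ℝ) + 1 := by
    have h5 : ((⌊X⌋ + 1 - -⌊X⌋).toNat : ℤ) = 2 * ⌊X⌋ + 1 := by omega
    have h6 := congrArg (Int.cast : ℤ → ℝ) h5
    push_cast at h6
    exact h6
  have h5 : (N.card : ℝ) ≤ ((⌊X⌋ + 1 - -⌊X⌋).toNat : ℝ) * ((⌊X⌋ + 1 - -⌊X⌋).toNat : ℝ) := by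
    exact_mod_cast h2
  rw [h4] at h5
  have h6 := Int.floor_le X
  have h7 : 2 * (⌊X⌋ : ℝ) + 1 ≤ 3 * X := by linarith
  have h8 : (0 : ℝ) ≤ 2 * (⌊X⌋ : ℝ) + 1 := by
    have : (0 : ℝ) ≤ ⌊X⌋ := by exact_mod_cast h3
    linarith
  calc (N.card : ℝ) ≤ (2 * (⌊X⌋ : ℝ) + 1) * (2 * (⌊X⌋ : ℝ) + 1) := h5
    _ ≤ (3 * X) * (3 * X) := mul_le_mul h7 h7 h8 (by linarith)
    _ = 9 * X ^ 2 := by ring

/-- it suffices to treat large `X` -/
private theorem primFew_large {Φ : ℤ → ℤ → ℤ} (c η C X0 : ℝ) (hη : η ≤ 2)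
    (h : ∀ X : ℝ, 1 ≤ X → X0 ≤ X →
    ∀ N : Finset (ℤ × ℤ), (∀ v ∈ N, IsCoprime v.1 v.2 ∧ |(v.1 : ℝ)| ≤ X ∧ |(v.2 : ℝ)| ≤ X ∧
      ∃ p : ℕ, p.Prime ∧ X < p ∧ (p : ℝ) ≤ X ^ (2 + c) ∧ (p : ℤ) ^ 2 ∣ Φ v.1 v.2) →
    (N.card : ℝ) ≤ C * X ^ (2 - η)) : PrimFew c η Φ := by
  refine ⟨max 1 (max C (9 * X0 ^ 2)), lt_of_lt_of_le one_pos (le_max_left _ _), ?_⟩
  intro X hX N hN
  have hXp : 1 ≤ X ^ (2 - η) := Real.one_le_rpow hX (by linarith)
  rcases le_or_gt X0 X with h1 | h1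
  · refine (h X hX h1 N hN).trans ?_
    exact mul_le_mul_of_nonneg_right ((le_max_left _ _).trans (le_max_right _ _)) (by positivity)
  · have h2 := box_card X hX N (fun v hv => ⟨(hN v hv).2.1, (hN v hv).2.2.1⟩)
    have h3 : X ^ 2 ≤ X0 ^ 2 := pow_le_pow_left₀ (by linarith) h1.le 2
    calc (N.card : ℝ) ≤ 9 * X0 ^ 2 := by linarith
      _ ≤ max 1 (max C (9 * X0 ^ 2)) := (le_max_right _ _).trans (le_max_right _ _)
      _ ≤ max 1 (max C (9 * X0 ^ 2)) * X ^ (2 - η) :=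
          le_mul_of_one_le_right (le_trans zero_le_one (le_max_left _ _)) hXp

/-- many primes, few vectors for each of them -/
private theorem card_primes (Φ : ℤ → ℤ → ℤ) (B : ℕ) (Y : ℝ) (hY : 0 ≤ Y) (X : ℝ)
    (N : Finset (ℤ × ℤ))
    (hB : ∀ p : ℕ, p.Prime → X < p → ∀ M : Finset (ℤ × ℤ), (∀ v ∈ M, v ∈ N ∧
      (p : ℤ) ^ 2 ∣ Φ v.1 v.2) → M.card ≤ B)
    (hN : ∀ v ∈ N, ∃ p : ℕ, p.Prime ∧ X < p ∧ (p : ℝ) ≤ Y ∧ (p : ℤ) ^ 2 ∣ Φ v.1 v.2) :
    (N.card : ℝ) ≤ B * Y := by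
  classical
  choose! p hp hpX hpY hpd using hN
  have hmaps : ∀ v ∈ N, p v ∈ Finset.Icc 1 ⌊Y⌋₊ := by
    intro v hv
    rw [Finset.mem_Icc]
    exact ⟨(hp v hv).one_lt.le, Nat.le_floor (hpY v hv)⟩
  have hfib : ∀ q ∈ Finset.Icc 1 ⌊Y⌋₊, (N.filter fun v => p v = q).card ≤ B := by
    intro q _
    rcases (N.filter fun v => p v = q).eq_empty_or_nonempty with he | ⟨v0, hv0⟩
    · rw [he]; simp
    · obtain ⟨hv0N, hv0q⟩ := Finset.mem_filter.1 hv0
      refine hB q (hv0q ▸ hp v0 hv0N) (hv0q ▸ hpX v0 hv0N) _ ?_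
      intro v hv
      obtain ⟨hvN, hvq⟩ := Finset.mem_filter.1 hv
      exact ⟨hvN, hvq ▸ hpd v hvN⟩
  have hcard := Finset.card_le_mul_card_image_of_maps_to hmaps B hfib
  rw [Nat.card_Icc, Nat.add_sub_cancel] at hcard
  calc (N.card : ℝ) ≤ ((B * ⌊Y⌋₊ : ℕ) : ℝ) := by exact_mod_cast hcard
    _ = B * (⌊Y⌋₊ : ℝ) := by push_cast; ring
    _ ≤ B * Y := mul_le_mul_of_nonneg_left (Nat.floor_le hY) (Nat.cast_nonneg _)

/-- dyadic sum -/
private theorem dyadic_sum (f : ℤ[X]) (hD : DyF f) (hd : 2 ≤ f.natDegree) (ε : ℝ) (hε : 0 < ε) :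
    ∃ C : ℝ, 1 ≤ C ∧ ∀ X : ℝ, C ≤ X →
    ∀ N : Finset (ℤ × ℤ), (∀ v ∈ N, IsCoprime v.1 v.2 ∧ |(v.1 : ℝ)| ≤ X ∧ |(v.2 : ℝ)| ≤ X ∧
      ∃ p : ℕ, p.Prime ∧ 2 * X ^ (2 - 1 / (2 * (f.natDegree : ℝ))) < p ∧
        (p : ℝ) ≤ X ^ (2 + 1 / (2 * (f.natDegree : ℝ))) ∧
        (p : ℤ) ^ 2 ∣ bf f f.natDegree v.1 v.2) →
    (N.card : ℝ) ≤ C * X ^ (2 - 1 / (f.natDegree : ℝ) ^ 2 + ε) := by
  classical
  obtain ⟨C0, hC0, h⟩ := hD (ε / 2) (by linarith)
  have hd0 : (2 : ℝ) ≤ f.natDegree := by exact_mod_cast hd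
  set c : ℝ := 1 / (2 * (f.natDegree : ℝ)) with hcdef
  have hc : 0 < c := by positivity
  set η : ℝ := ε / 2 with hη
  have hηp : 0 < η := by positivity
  have hlog2 : 0 < Real.log 2 := Real.log_pos (by norm_num)
  set D : ℝ := (2 + c) / (η * Real.log 2) + 2 with hDd
  have hD0 : 0 < D := by positivity
  refine ⟨C0 * max 1 D, ?_, ?_⟩
  · calc (1 : ℝ) = 1 * 1 := by ring
      _ ≤ C0 * max 1 D := mul_le_mul hC0 (le_max_left _ _) (by norm_num) (by linarith)
  intro X hXC N hN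
  have hXC0 : C0 ≤ X := by
    refine le_trans ?_ hXC
    exact le_mul_of_one_le_right (by linarith) (le_max_left _ _)
  have hX1 : 1 ≤ X := le_trans hC0 hXC0
  have hX0 : 0 < X := by linarith
  have hch : ∀ v ∈ N, ∃ p : ℕ, p.Prime ∧ 2 * X ^ (2 - c) < p ∧ (p : ℝ) ≤ X ^ (2 + c) ∧
      (p : ℤ) ^ 2 ∣ bf f f.natDegree v.1 v.2 := fun v hv => (hN v hv).2.2.2
  choose! p hp hpL hpX hpd using hch
  set k : ℤ × ℤ → ℕ := fun v => Nat.clog 2 (p v) with hk
  have hk1 : ∀ v ∈ N, (2 : ℝ) ^ (k v - 1) < p v ∧ (p v : ℝ) ≤ 2 * (2 : ℝ) ^ (k v - 1) ∧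
      1 ≤ k v := by
    intro v hv
    have h1 : 1 < p v := (hp v hv).one_lt
    have h2 : 1 ≤ k v := Nat.clog_pos (by norm_num) (by omega)
    have h3 : 2 ^ (k v - 1) < p v := by
      have := Nat.pow_pred_clog_lt_self (b := 2) (by norm_num) h1
      simpa [hk, Nat.pred_eq_sub_one] using this
    have h4 : p v ≤ 2 ^ (k v) := Nat.le_pow_clog (by norm_num) _
    refine ⟨by exact_mod_cast h3, ?_, h2⟩
    have h5 : (2 : ℝ) * 2 ^ (k v - 1) = 2 ^ (k v) := by
      rw [← pow_succ']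
      congr 1
      omega
    rw [h5]
    exact_mod_cast h4
  -- every fibre is small
  set e1 : ℝ := 2 - 1 / (f.natDegree : ℝ) ^ 2 + η with he1
  set B : ℕ := ⌊C0 * X ^ e1⌋₊ with hB
  have hfib : ∀ j ∈ N.image k, (N.filter (fun v => k v = j)).card ≤ B := by
    intro j hj
    obtain ⟨v0, hv0, hj0⟩ := Finset.mem_image.1 hj
    have h1 := hk1 v0 hv0
    rw [hj0] at h1
    apply Nat.le_floor
    have h2 := h X ((2 : ℝ) ^ (j - 1)) hXC0 (by
      have := hpL v0 hv0
      linarith [h1.2.1]) (h1.1.le.trans (hpX v0 hv0)) (N.filter (fun v => k v = j)) (by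
      intro v hv
      obtain ⟨hvN, hvj⟩ := Finset.mem_filter.1 hv
      have h3 := hk1 v hvN
      rw [hvj] at h3
      exact ⟨(hN v hvN).1, (hN v hvN).2.1, (hN v hvN).2.2.1, p v, hp v hvN, h3.1, h3.2.1,
        hpd v hvN⟩)
    exact h2
  have hcard := Finset.card_le_mul_card_image (f := k) N B hfib
  -- the number of blocks
  have himg : N.image k ⊆ Finset.range (⌊(2 + c) * Real.log X / Real.log 2⌋₊ + 2) := by
    intro j hj
    obtain ⟨v0, hv0, hj0⟩ := Finset.mem_image.1 hj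
    have h1 := hk1 v0 hv0
    rw [hj0] at h1
    rw [Finset.mem_range]
    have h2 : (2 : ℝ) ^ (j - 1) ≤ X ^ (2 + c) := h1.1.le.trans (hpX v0 hv0)
    have h3 : ((j - 1 : ℕ) : ℝ) * Real.log 2 ≤ (2 + c) * Real.log X := by
      have := Real.log_le_log (by positivity) h2
      rwa [Real.log_pow, Real.log_rpow hX0] at this
    have h4 : ((j - 1 : ℕ) : ℝ) ≤ (2 + c) * Real.log X / Real.log 2 := by
      rw [le_div_iff₀ hlog2]; exact h3
    have h5 := Nat.le_floor h4
    omega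
  have hblocks : ((N.image k).card : ℝ) ≤ D * X ^ η := by
    have h1 := Finset.card_le_card himg
    rw [Finset.card_range] at h1
    have hlog : 0 ≤ Real.log X := Real.log_nonneg hX1
    have h2 : ((⌊(2 + c) * Real.log X / Real.log 2⌋₊ + 2 : ℕ) : ℝ) ≤
        (2 + c) * Real.log X / Real.log 2 + 2 := by
      push_cast
      have := Nat.floor_le (a := (2 + c) * Real.log X / Real.log 2) (by positivity)
      linarith
    have h3 : Real.log X ≤ X ^ η / η := Real.log_le_rpow_div hX0.le hηp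
    have h4 : (2 + c) * Real.log X / Real.log 2 ≤ (2 + c) / (η * Real.log 2) * X ^ η := by
      have h5 : (2 + c) * Real.log X / Real.log 2 ≤ (2 + c) * (X ^ η / η) / Real.log 2 := by
        apply div_le_div_of_nonneg_right _ hlog2.le
        exact mul_le_mul_of_nonneg_left h3 (by linarith)
      refine h5.trans (le_of_eq ?_)
      field_simp
    have h6 : 1 ≤ X ^ η := Real.one_le_rpow hX1 hηp.le
    have h7 : ((N.image k).card : ℝ) ≤
        ((⌊(2 + c) * Real.log X / Real.log 2⌋₊ + 2 : ℕ) : ℝ) := by exact_mod_cast h1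
    rw [hDd, add_mul]
    linarith
  have hBle : (B : ℝ) ≤ C0 * X ^ e1 := Nat.floor_le (by positivity)
  calc (N.card : ℝ) ≤ (B : ℝ) * ((N.image k).card : ℝ) := by exact_mod_cast hcard
    _ ≤ (C0 * X ^ e1) * (D * X ^ η) :=
        mul_le_mul hBle hblocks (by positivity) (by positivity)
    _ = (C0 * D) * X ^ (2 - 1 / (f.natDegree : ℝ) ^ 2 + ε) := by
        have : X ^ (2 - 1 / (f.natDegree : ℝ) ^ 2 + ε) = X ^ e1 * X ^ η := by
          rw [← Real.rpow_add hX0]
          congr 1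
          rw [he1, hη]
          ring
        rw [this]
        ring
    _ ≤ (C0 * max 1 D) * X ^ (2 - 1 / (f.natDegree : ℝ) ^ 2 + ε) := by
        apply mul_le_mul_of_nonneg_right _ (by positivity)
        exact mul_le_mul_of_nonneg_left (le_max_right _ _) (by linarith)

/-- `p ∤ k` for a large prime -/
private theorem not_dvd_of_lt {p : ℕ} {k : ℤ} (hk : k ≠ 0) (h : |(k : ℝ)| < p) :
    ¬ (p : ℤ) ∣ k := by
  intro hd
  have h3 := Int.le_of_dvd (abs_pos.2 hk) ((dvd_abs _ _).2 hd)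
  have h4 : (p : ℝ) ≤ |(k : ℝ)| := by exact_mod_cast h3
  linarith

/-- the primes `X < p ≤ Y` -/
private theorem small_primes (f : ℤ[X]) (hf : f ≠ 0)
    (hsep : (f.map (Int.castRingHom ℚ)).Separable) :
    ∃ C : ℝ, 1 ≤ C ∧ ∀ X Y : ℝ, C ≤ X → 0 ≤ Y →
    ∀ N : Finset (ℤ × ℤ), (∀ v ∈ N, IsCoprime v.1 v.2 ∧ |(v.1 : ℝ)| ≤ X ∧ |(v.2 : ℝ)| ≤ X ∧
      ∃ p : ℕ, p.Prime ∧ X < p ∧ (p : ℝ) ≤ Y ∧ (p : ℤ) ^ 2 ∣ bf f f.natDegree v.1 v.2) →
    (N.card : ℝ) ≤ 50 * f.natDegree * Y := by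
  obtain ⟨D0, hD0⟩ := exists_simple f hsep
  have hl : f.coeff f.natDegree ≠ 0 := Polynomial.leadingCoeff_ne_zero.2 hf
  refine ⟨max 1 (max D0 |(f.coeff f.natDegree : ℝ)|), le_max_left _ _, ?_⟩
  intro X Y hX hY N hN
  have hX1 : 1 ≤ X := (le_max_left _ _).trans hX
  have hX2 : (D0 : ℝ) ≤ X := ((le_max_left _ _).trans (le_max_right _ _)).trans hX
  have hX3 : |(f.coeff f.natDegree : ℝ)| ≤ X :=
    ((le_max_right _ _).trans (le_max_right _ _)).trans hX
  have h1 := card_primes (fun x y => bf f f.natDegree x y) (50 * f.natDegree) Y hY X N (by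
    intro p hp hpX M hM
    refine prim_count f hp (not_dvd_of_lt hl (by linarith)) (hD0 p hp ?_) X (by linarith) hpX M ?_
    · have : (D0 : ℝ) < p := by linarith
      exact_mod_cast this
    · intro v hv
      obtain ⟨h1, h2⟩ := hM v hv
      exact ⟨(hN v h1).1, (hN v h1).2.1, (hN v h1).2.2.1, h2⟩)
    (fun v hv => (hN v hv).2.2.2)
  push_cast at h1
  exact h1

/-- monic irreducible -/
private theorem monic_case (hD : ∀ f : ℤ[X], f.Monic → Irreducible f → 2 ≤ f.natDegree → DyF f)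
    (f : ℤ[X]) (hm : f.Monic) (hi : Irreducible f) (hd : 2 ≤ f.natDegree) (ε : ℝ) (hε : 0 < ε) :
    PrimFew (1 / (2 * (f.natDegree : ℝ))) (1 / (f.natDegree : ℝ) ^ 2 - ε)
      (fun x y => bf f f.natDegree x y) := by
  classical
  obtain ⟨C1, hC1, h1⟩ := dyadic_sum f (hD f hm hi hd) hd ε hε
  obtain ⟨C2, hC2, h2⟩ := small_primes f hi.ne_zero (sep_of_irr f hm hi)
  have hd0 : (2 : ℝ) ≤ f.natDegree := by exact_mod_cast hd
  have hcη : 1 / (f.natDegree : ℝ) ^ 2 ≤ 1 / (2 * (f.natDegree : ℝ)) := by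
    apply one_div_le_one_div_of_le (by positivity)
    nlinarith
  have hc1 : 1 / (2 * (f.natDegree : ℝ)) ≤ 1 := by
    rw [div_le_one (by positivity)]
    linarith
  set c : ℝ := 1 / (2 * (f.natDegree : ℝ)) with hcdef
  set η : ℝ := 1 / (f.natDegree : ℝ) ^ 2 with hη
  refine primFew_large c (η - ε) (C1 + 100 * f.natDegree) (max C1 C2) (by linarith) ?_
  intro X hX1 hX N hN
  have hX0 : 0 < X := by linarith
  have hXC1 : C1 ≤ X := (le_max_left _ _).trans hX
  have hXC2 : C2 ≤ X := (le_max_right _ _).trans hX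
  set N1 := N.filter (fun v => ∃ p : ℕ, p.Prime ∧ X < p ∧ (p : ℝ) ≤ 2 * X ^ (2 - c) ∧
    (p : ℤ) ^ 2 ∣ bf f f.natDegree v.1 v.2) with hN1
  set N2 := N.filter (fun v => ∃ p : ℕ, p.Prime ∧ 2 * X ^ (2 - c) < p ∧ (p : ℝ) ≤ X ^ (2 + c) ∧
    (p : ℤ) ^ 2 ∣ bf f f.natDegree v.1 v.2) with hN2
  have hsub : N ⊆ N1 ∪ N2 := by
    intro v hv
    obtain ⟨-, -, -, p, hp, hpX, hpc, hpd⟩ := hN v hv
    rcases le_or_gt (p : ℝ) (2 * X ^ (2 - c)) with h3 | h3
    · exact Finset.mem_union_left _ (Finset.mem_filter.2 ⟨hv, p, hp, hpX, h3, hpd⟩)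
    · exact Finset.mem_union_right _ (Finset.mem_filter.2 ⟨hv, p, hp, h3, hpc, hpd⟩)
  have hb1 : (N1.card : ℝ) ≤ 50 * f.natDegree * (2 * X ^ (2 - c)) := by
    refine h2 X (2 * X ^ (2 - c)) hXC2 (by positivity) N1 ?_
    intro v hv
    obtain ⟨hvN, hvp⟩ := Finset.mem_filter.1 hv
    exact ⟨(hN v hvN).1, (hN v hvN).2.1, (hN v hvN).2.2.1, hvp⟩
  have hb2 : (N2.card : ℝ) ≤ C1 * X ^ (2 - η + ε) := by
    refine h1 X hXC1 N2 ?_
    intro v hv
    obtain ⟨hvN, hvp⟩ := Finset.mem_filter.1 hv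
    exact ⟨(hN v hvN).1, (hN v hvN).2.1, (hN v hvN).2.2.1, hvp⟩
  have hcard : (N.card : ℝ) ≤ N1.card + N2.card := by
    exact_mod_cast (Finset.card_le_card hsub).trans (Finset.card_union_le _ _)
  have he : (2 : ℝ) - (η - ε) = 2 - η + ε := by ring
  have h3 : X ^ (2 - c) ≤ X ^ (2 - η + ε) :=
    Real.rpow_le_rpow_of_exponent_le hX1 (by linarith)
  have h4 : 50 * (f.natDegree : ℝ) * (2 * X ^ (2 - c))
      ≤ 50 * (f.natDegree : ℝ) * (2 * X ^ (2 - η + ε)) := by
    apply mul_le_mul_of_nonneg_left _ (by positivity)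
    linarith
  rw [he, add_mul]
  linarith

/-- the integral normalisation of an irreducible polynomial is irreducible -/
private theorem norm_irr (g : ℤ[X]) (hi : Irreducible g) (hd : 2 ≤ g.natDegree) :
    Irreducible g.integralNormalization := by
  have hg0 : g ≠ 0 := hi.ne_zero
  have hl0 : g.leadingCoeff ≠ 0 := Polynomial.leadingCoeff_ne_zero.2 hg0
  have hprim : g.IsPrimitive := hi.isPrimitive (by omega)
  have hgQ : Irreducible (g.map (Int.castRingHom ℚ)) :=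
    (IsPrimitive.Int.irreducible_iff_irreducible_map_cast hprim).1 hi
  have hmon : g.integralNormalization.Monic := monic_integralNormalization hg0
  rw [hmon.irreducible_iff_irreducible_map_fraction_map (K := ℚ)]
  set l : ℚ := (g.leadingCoeff : ℚ) with hl
  have hlq : l ≠ 0 := by rw [hl]; exact_mod_cast hl0
  have : Invertible l := invertibleOfNonzero hlq
  have h1 := integralNormalization_eval₂_leadingCoeff_mul (p := g) (by omega)
    ((Polynomial.C : ℚ →+* ℚ[X]).comp (Int.castRingHom ℚ)) (X : ℚ[X])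
  have h2 : (algEquivCMulXAddC l 0) (g.integralNormalization.map (algebraMap ℤ ℚ)) =
      Polynomial.C (l ^ (g.natDegree - 1)) * g.map (Int.castRingHom ℚ) := by
    rw [algEquivCMulXAddC_apply, Polynomial.aeval_def, Polynomial.eval₂_map]
    have h4 : (algebraMap ℚ ℚ[X]).comp (algebraMap ℤ ℚ) =
        (Polynomial.C : ℚ →+* ℚ[X]).comp (Int.castRingHom ℚ) := by
      ext; simp
    have h5 : (Polynomial.C l * X + Polynomial.C 0 : ℚ[X]) =
        ((Polynomial.C : ℚ →+* ℚ[X]).comp (Int.castRingHom ℚ)) g.leadingCoeff * X := by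
      rw [map_zero, add_zero]
      rfl
    rw [h4, h5, h1]
    congr 1
    rw [map_pow]
    rfl
  have h3 : Irreducible (Polynomial.C (l ^ (g.natDegree - 1)) * g.map (Int.castRingHom ℚ)) := by
    exact (irreducible_isUnit_mul ((isUnit_iff_ne_zero.2 (pow_ne_zero _ hlq)).map
      (Polynomial.C : ℚ →+* ℚ[X]))).2 hgQ
  rw [← h2] at h3
  exact (MulEquiv.irreducible_iff (algEquivCMulXAddC l 0).toMulEquiv).1 h3

/-- the form of the integral normalisation -/
private theorem bf_norm (g : ℤ[X]) (hd : 1 ≤ g.natDegree) (x y : ℤ) :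
    bf g.integralNormalization g.natDegree (g.leadingCoeff * x) y
      = g.leadingCoeff ^ (g.natDegree - 1) * bf g g.natDegree x y := by
  have hg0 : g ≠ 0 := by
    rintro rfl
    simp at hd
  rw [bf_eq, bf_eq, Finset.mul_sum]
  refine Finset.sum_congr rfl fun i hi => ?_
  rw [Finset.mem_range] at hi
  rcases Nat.lt_or_ge i g.natDegree with h | h
  · rw [integralNormalization_coeff_ne_natDegree (by omega)]
    have h1 : g.leadingCoeff ^ (g.natDegree - 1)
        = g.leadingCoeff ^ (g.natDegree - 1 - i) * g.leadingCoeff ^ i := by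
      rw [← pow_add]
      congr 1
      omega
    rw [h1, mul_pow]
    ring
  · have h2 : i = g.natDegree := by omega
    rw [h2, integralNormalization_coeff_natDegree hg0, coeff_natDegree, mul_pow]
    have h1 : g.leadingCoeff ^ g.natDegree
        = g.leadingCoeff ^ (g.natDegree - 1) * g.leadingCoeff := by
      rw [← pow_succ]
      congr 1
      omega
    rw [h1]
    ring

/-- irreducible of degree `≥ 2`, any leading coefficient -/
private theorem irr_case (hD : ∀ f : ℤ[X], f.Monic → Irreducible f → 2 ≤ f.natDegree → DyF f)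
    (g : ℤ[X]) (hi : Irreducible g) (hd : 2 ≤ g.natDegree) (ε : ℝ) (hε : 0 < ε) :
    PrimFew (1 / (2 * (g.natDegree : ℝ))) (1 / (g.natDegree : ℝ) ^ 2 - ε)
      (fun x y => bf g g.natDegree x y) := by
  classical
  have hg0 : g ≠ 0 := hi.ne_zero
  have hl0 : g.leadingCoeff ≠ 0 := Polynomial.leadingCoeff_ne_zero.2 hg0
  have hsep : (g.map (Int.castRingHom ℚ)).Separable :=
    ((IsPrimitive.Int.irreducible_iff_irreducible_map_cast (hi.isPrimitive (by omega))).1
      hi).separable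
  set l : ℤ := g.leadingCoeff with hl
  set A : ℝ := |(l : ℝ)| with hA
  have hA1 : 1 ≤ A := by
    rw [hA, ← Int.cast_abs]
    exact_mod_cast Int.one_le_abs hl0
  obtain ⟨C1, hC1, h1⟩ := monic_case hD g.integralNormalization
    (monic_integralNormalization hg0) (norm_irr g hi hd)
    (by rw [natDegree_integralNormalization]; exact hd) ε hε
  obtain ⟨C2, hC2, h2⟩ := small_primes g hg0 hsep
  rw [natDegree_integralNormalization] at h1
  have hd0 : (2 : ℝ) ≤ g.natDegree := by exact_mod_cast hd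
  have hη1 : 1 / (g.natDegree : ℝ) ^ 2 ≤ 1 := by
    rw [div_le_one (by positivity)]
    nlinarith
  have hcp : 0 < 1 / (2 * (g.natDegree : ℝ)) := by positivity
  set c : ℝ := 1 / (2 * (g.natDegree : ℝ)) with hcdef
  set η : ℝ := 1 / (g.natDegree : ℝ) ^ 2 with hηdef
  refine primFew_large c (η - ε) (A * (C1 * A ^ (2 - (η - ε))) + 50 * g.natDegree * A)
    (max C2 A) (by linarith) ?_
  intro X hX1 hX N hN
  have hX0 : 0 < X := by linarith
  have hXC2 : C2 ≤ X := (le_max_left _ _).trans hX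
  have hXA : A ≤ X := (le_max_right _ _).trans hX
  have hAX : X ≤ A * X := by nlinarith
  set N1 := N.filter (fun v => ∃ p : ℕ, p.Prime ∧ X < p ∧ (p : ℝ) ≤ A * X ∧
    (p : ℤ) ^ 2 ∣ bf g g.natDegree v.1 v.2) with hN1
  set N2 := N.filter (fun v => ∃ p : ℕ, p.Prime ∧ A * X < p ∧ (p : ℝ) ≤ X ^ (2 + c) ∧
    (p : ℤ) ^ 2 ∣ bf g g.natDegree v.1 v.2) with hN2
  have hsub : N ⊆ N1 ∪ N2 := by
    intro v hv
    obtain ⟨-, -, -, p, hp, hpX, hpc, hpd⟩ := hN v hv
    rcases le_or_gt (p : ℝ) (A * X) with h3 | h3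
    · exact Finset.mem_union_left _ (Finset.mem_filter.2 ⟨hv, p, hp, hpX, h3, hpd⟩)
    · exact Finset.mem_union_right _ (Finset.mem_filter.2 ⟨hv, p, hp, h3, hpc, hpd⟩)
  have hb1 : (N1.card : ℝ) ≤ 50 * g.natDegree * (A * X) := by
    refine h2 X (A * X) hXC2 (by positivity) N1 ?_
    intro v hv
    obtain ⟨hvN, hvp⟩ := Finset.mem_filter.1 hv
    exact ⟨(hN v hvN).1, (hN v hvN).2.1, (hN v hvN).2.2.1, hvp⟩
  -- the reduced vectors
  set φ : ℤ × ℤ → ℤ × ℤ := fun v =>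
    (l * v.1 / (Int.gcd (l * v.1) v.2 : ℤ), v.2 / (Int.gcd (l * v.1) v.2 : ℤ)) with hφ
  have hgcd : ∀ v ∈ N, 1 ≤ Int.gcd (l * v.1) v.2 ∧ (Int.gcd (l * v.1) v.2 : ℤ) ∣ l := by
    intro v hv
    have hc := (hN v hv).1
    have h3 : (Int.gcd (l * v.1) v.2 : ℤ) ∣ l := by
      obtain ⟨u, w, huw⟩ := hc
      have h4 : (Int.gcd (l * v.1) v.2 : ℤ) ∣ u * (l * v.1) + (l * w) * v.2 :=
        dvd_add ((Int.gcd_dvd_left _ _).mul_left _) ((Int.gcd_dvd_right _ _).mul_left _)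
      have h5 : u * (l * v.1) + (l * w) * v.2 = l := by linear_combination l * huw
      rwa [h5] at h4
    refine ⟨?_, h3⟩
    rcases Nat.eq_zero_or_pos (Int.gcd (l * v.1) v.2) with h0 | h0
    · rw [h0] at h3
      exact absurd (zero_dvd_iff.1 (by simpa using h3)) hl0
    · exact h0
  have hval : ∀ v ∈ N, (Int.gcd (l * v.1) v.2 : ℤ) * (φ v).1 = l * v.1 ∧
      (Int.gcd (l * v.1) v.2 : ℤ) * (φ v).2 = v.2 := by
    intro v _
    exact ⟨Int.mul_ediv_cancel' (Int.gcd_dvd_left _ _), Int.mul_ediv_cancel' (Int.gcd_dvd_right _ _)⟩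
  have hb2 : (((N2.image φ).card : ℕ) : ℝ) ≤ C1 * (A * X) ^ (2 - (η - ε)) := by
    refine h1 (A * X) (by linarith) (N2.image φ) ?_
    intro w hw
    obtain ⟨v, hv, rfl⟩ := Finset.mem_image.1 hw
    obtain ⟨hvN, p, hp, hpX, hpc, hpd⟩ := Finset.mem_filter.1 hv
    obtain ⟨hco, hv1, hv2, -⟩ := hN v hvN
    obtain ⟨hg1, hgl⟩ := hgcd v hvN
    obtain ⟨e1, e2⟩ := hval v hvN
    set e : ℕ := Int.gcd (l * v.1) v.2 with he
    have hez : (e : ℤ) ≠ 0 := by
      have : (1 : ℤ) ≤ e := by exact_mod_cast hg1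
      omega
    have her : (1 : ℝ) ≤ e := by exact_mod_cast hg1
    have hcop : IsCoprime (φ v).1 (φ v).2 := by
      rw [Int.isCoprime_iff_gcd_eq_one]
      have h3 := Int.gcd_ediv_gcd_ediv_gcd (i := l * v.1) (j := v.2) hg1
      exact h3
    refine ⟨hcop, ?_, ?_, p, hp, hpX, ?_, ?_⟩
    · have h3 : (e : ℝ) * |((φ v).1 : ℝ)| = A * |(v.1 : ℝ)| := by
        have h4 := congrArg (fun z : ℤ => |(z : ℝ)|) e1
        simp only [Int.cast_mul, abs_mul, Int.cast_natCast, Nat.abs_cast] at h4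
        exact h4
      have h4 : |((φ v).1 : ℝ)| ≤ (e : ℝ) * |((φ v).1 : ℝ)| :=
        le_mul_of_one_le_left (abs_nonneg _) her
      have h5 : A * |(v.1 : ℝ)| ≤ A * X := mul_le_mul_of_nonneg_left hv1 (by linarith)
      linarith
    · have h3 : (e : ℝ) * |((φ v).2 : ℝ)| = |(v.2 : ℝ)| := by
        have h4 := congrArg (fun z : ℤ => |(z : ℝ)|) e2
        simp only [Int.cast_mul, abs_mul, Int.cast_natCast, Nat.abs_cast] at h4
        exact h4
      have h4 : |((φ v).2 : ℝ)| ≤ (e : ℝ) * |((φ v).2 : ℝ)| :=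
        le_mul_of_one_le_left (abs_nonneg _) her
      linarith
    · exact hpc.trans (Real.rpow_le_rpow hX0.le hAX (by linarith))
    · have hpp : Prime (p : ℤ) := Nat.prime_iff_prime_int.1 hp
      have h3 : (p : ℤ) ^ 2 ∣ (e : ℤ) ^ g.natDegree *
          bf g.integralNormalization g.natDegree (φ v).1 (φ v).2 := by
        rw [← bf_scale, e1, e2, hl, bf_norm g (by omega)]
        exact Dvd.dvd.mul_left hpd _
      have h4 : ¬ (p : ℤ) ∣ e := by
        intro h5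
        exact not_dvd_of_lt hl0 (lt_of_le_of_lt (hXA.trans hAX) hpX) (h5.trans hgl)
      have h5 : IsCoprime ((p : ℤ) ^ 2) ((e : ℤ) ^ g.natDegree) :=
        IsCoprime.pow (hpp.coprime_iff_not_dvd.2 h4)
      exact h5.dvd_of_dvd_mul_left h3
  have hfib : ∀ w ∈ N2.image φ, (N2.filter (fun v => φ v = w)).card ≤ l.natAbs := by
    intro w _
    have h3 : (N2.filter (fun v => φ v = w)).card ≤ (Finset.Icc 1 l.natAbs).card := by
      refine Finset.card_le_card_of_injOn (fun v => Int.gcd (l * v.1) v.2) ?_ ?_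
      · intro v hv
        have hv' := Finset.mem_filter.1 (Finset.mem_coe.1 hv)
        have hvN := (Finset.mem_filter.1 hv'.1).1
        obtain ⟨hg1, hgl⟩ := hgcd v hvN
        rw [Finset.mem_coe, Finset.mem_Icc]
        exact ⟨hg1, Nat.le_of_dvd (Int.natAbs_pos.2 hl0) (Int.natCast_dvd.mp hgl)⟩
      · intro v hv v' hv' hvv
        have hw1 := Finset.mem_filter.1 (Finset.mem_coe.1 hv)
        have hw2 := Finset.mem_filter.1 (Finset.mem_coe.1 hv')
        have hvN := (Finset.mem_filter.1 hw1.1).1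
        have hvN' := (Finset.mem_filter.1 hw2.1).1
        obtain ⟨e1, e2⟩ := hval v hvN
        obtain ⟨e1', e2'⟩ := hval v' hvN'
        simp only at hvv
        rw [hw1.2, hvv] at e1 e2
        rw [hw2.2] at e1' e2'
        refine Prod.ext ?_ (e2.symm.trans e2')
        exact mul_left_cancel₀ hl0 (e1.symm.trans e1')
    simpa using h3
  have hcard2 := Finset.card_le_mul_card_image (f := φ) N2 l.natAbs hfib
  have hb3 : (N2.card : ℝ) ≤ A * (C1 * (A * X) ^ (2 - (η - ε))) := by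
    have h3 : (l.natAbs : ℝ) = A := by
      rw [hA, Nat.cast_natAbs, Int.cast_abs]
    calc (N2.card : ℝ) ≤ (l.natAbs : ℝ) * ((N2.image φ).card : ℝ) := by exact_mod_cast hcard2
      _ = A * ((N2.image φ).card : ℝ) := by rw [h3]
      _ ≤ A * (C1 * (A * X) ^ (2 - (η - ε))) := mul_le_mul_of_nonneg_left hb2 (by linarith)
  have hcard : (N.card : ℝ) ≤ N1.card + N2.card := by
    exact_mod_cast (Finset.card_le_card hsub).trans (Finset.card_union_le _ _)
  rw [Real.mul_rpow (by linarith) hX0.le] at hb3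
  have h3 : X ≤ X ^ (2 - (η - ε)) := by
    calc X = X ^ (1 : ℝ) := (Real.rpow_one X).symm
      _ ≤ X ^ (2 - (η - ε)) := Real.rpow_le_rpow_of_exponent_le hX1 (by linarith)
  have h4 : 50 * (g.natDegree : ℝ) * (A * X) ≤ 50 * (g.natDegree : ℝ) * (A * X ^ (2 - (η - ε))) := by
    apply mul_le_mul_of_nonneg_left _ (by positivity)
    exact mul_le_mul_of_nonneg_left h3 (by linarith)
  rw [add_mul]
  have h5 : A * (C1 * (A ^ (2 - (η - ε)) * X ^ (2 - (η - ε))))
      = A * (C1 * A ^ (2 - (η - ε))) * X ^ (2 - (η - ε)) := by ring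
  have h6 : 50 * (g.natDegree : ℝ) * (A * X ^ (2 - (η - ε)))
      = 50 * (g.natDegree : ℝ) * A * X ^ (2 - (η - ε)) := by ring
  rw [h5] at hb3
  rw [h6] at h4
  linarith

/-- degree one -/
private theorem lin_case (g : ℤ[X]) (hd : g.natDegree = 1) (c : ℝ) :
    PrimFew c 1 (fun x y => bf g g.natDegree x y) := by
  classical
  set a : ℤ := g.coeff 1 with ha
  set b : ℤ := g.coeff 0 with hb
  have ha0 : a ≠ 0 := by
    have : g.leadingCoeff ≠ 0 := by
      rw [Polynomial.leadingCoeff_ne_zero]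
      intro h
      rw [h] at hd
      simp at hd
    rwa [Polynomial.leadingCoeff, hd] at this
  have hge : ∀ x y : ℤ, bf g g.natDegree x y = a * x + b * y := by
    intro x y
    rw [bf_eq, hd, Finset.sum_range_succ, Finset.sum_range_one]
    simp
    ring
  refine primFew_large c 1 2 (|(a : ℝ)| + |(b : ℝ)|) (by norm_num) ?_
  intro X hX1 hX N hN
  have hXp : 1 ≤ X ^ ((2 : ℝ) - 1) := Real.one_le_rpow hX1 (by norm_num)
  have hzero : ∀ v ∈ N, a * v.1 + b * v.2 = 0 := by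
    intro v hv
    obtain ⟨-, h1, h2, p, hp, hpX, -, hpd⟩ := hN v hv
    rw [hge] at hpd
    by_contra hne
    have h3 := Int.le_of_dvd (abs_pos.2 hne) ((dvd_abs _ _).2 hpd)
    have h4 : ((p : ℝ)) ^ 2 ≤ |(a : ℝ) * v.1 + b * v.2| := by exact_mod_cast h3
    have h5 : |(a : ℝ) * v.1 + b * v.2| ≤ |(a : ℝ)| * X + |(b : ℝ)| * X := by
      refine (abs_add_le _ _).trans ?_
      rw [abs_mul, abs_mul]
      have h6 := mul_le_mul_of_nonneg_left h1 (abs_nonneg (a : ℝ))
      have h7 := mul_le_mul_of_nonneg_left h2 (abs_nonneg (b : ℝ))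
      linarith
    have h6 : X ^ 2 < (p : ℝ) ^ 2 := pow_lt_pow_left₀ hpX (by linarith) two_ne_zero
    nlinarith
  have hcard : N.card ≤ 2 := by
    rcases N.eq_empty_or_nonempty with he | ⟨v, hv⟩
    · rw [he]; simp
    · have hsub : N ⊆ {v, (-v.1, -v.2)} := by
        intro v' hv'
        have h1 := hzero v hv
        have h2 := hzero v' hv'
        have h3 : v.1 * v'.2 = v'.1 * v.2 := by
          apply mul_left_cancel₀ ha0
          linear_combination v'.2 * h1 - v.2 * h2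
        rw [Finset.mem_insert, Finset.mem_singleton]
        rcases eq_or_neg_of_cross (hN v hv).1 (hN v' hv').1 h3 with ⟨h4, h5⟩ | ⟨h4, h5⟩
        · left; exact Prod.ext h4 h5
        · right; exact Prod.ext h4 h5
      exact (Finset.card_le_card hsub).trans Finset.card_le_two
  have : (N.card : ℝ) ≤ 2 := by exact_mod_cast hcard
  linarith

/-- constants -/
private theorem const_case (g : ℤ[X]) (hg : g ≠ 0) (hd : g.natDegree = 0) (c : ℝ) :
    PrimFew c 1 (fun x y => bf g g.natDegree x y) := by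
  classical
  set b : ℤ := g.coeff 0 with hb
  have hgb : g = C b := Polynomial.eq_C_of_natDegree_eq_zero hd
  have hb0 : b ≠ 0 := by
    intro h
    rw [h, map_zero] at hgb
    exact hg hgb
  refine primFew_large c 1 1 |(b : ℝ)| (by norm_num) ?_
  intro X hX1 hX N hN
  have hXp : 1 ≤ X ^ ((2 : ℝ) - 1) := Real.one_le_rpow hX1 (by norm_num)
  have hN0 : N = ∅ := by
    rw [Finset.eq_empty_iff_forall_notMem]
    intro v hv
    obtain ⟨-, -, -, p, hp, hpX, -, hpd⟩ := hN v hv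
    rw [hd, hgb, bf_C, pow_zero, mul_one] at hpd
    exact not_dvd_of_lt hb0 (lt_of_le_of_lt hX hpX) ((dvd_pow_self _ two_ne_zero).trans hpd)
  rw [hN0, Finset.card_empty, Nat.cast_zero]
  linarith

/-- products of coprime factors -/
private theorem mul_case (g h a b : ℤ[X]) (hg0 : g ≠ 0) (hh0 : h ≠ 0) (R : ℤ) (hR : R ≠ 0)
    (hab : a * g + b * h = C R) (c η : ℝ) (hη : η ≤ 2)
    (hg : PrimFew c η (fun x y => bf g g.natDegree x y))
    (hh : PrimFew c η (fun x y => bf h h.natDegree x y)) :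
    PrimFew c η (fun x y => bf (g * h) (g * h).natDegree x y) := by
  classical
  obtain ⟨C1, hC1, h1⟩ := hg
  obtain ⟨C2, hC2, h2⟩ := hh
  have hl0 : g.coeff g.natDegree ≠ 0 := Polynomial.leadingCoeff_ne_zero.2 hg0
  refine primFew_large c η (C1 + C2) (max |(R : ℝ)| |(g.coeff g.natDegree : ℝ)|) hη ?_
  intro X hX1 hX N hN
  have hXR : |(R : ℝ)| ≤ X := (le_max_left _ _).trans hX
  have hXl : |(g.coeff g.natDegree : ℝ)| ≤ X := (le_max_right _ _).trans hX
  have hX0 : 0 < X := by linarith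
  set N1 := N.filter (fun v => ∃ p : ℕ, p.Prime ∧ X < p ∧ (p : ℝ) ≤ X ^ (2 + c) ∧
    (p : ℤ) ^ 2 ∣ bf g g.natDegree v.1 v.2) with hN1
  set N2 := N.filter (fun v => ∃ p : ℕ, p.Prime ∧ X < p ∧ (p : ℝ) ≤ X ^ (2 + c) ∧
    (p : ℤ) ^ 2 ∣ bf h h.natDegree v.1 v.2) with hN2
  -- the homogenised identity
  set m : ℕ := g.natDegree with hm
  set n : ℕ := h.natDegree with hn
  have hbez : ∀ x y : ℤ, bf a (a.natDegree + b.natDegree + n) x y * bf g m x y
      + bf b (a.natDegree + b.natDegree + m) x y * bf h n x y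
      = R * y ^ (a.natDegree + b.natDegree + m + n) := by
    intro x y
    rw [← bf_mul a g (by omega) le_rfl, ← bf_mul b h (by omega) le_rfl]
    have e1 : a.natDegree + b.natDegree + n + m = a.natDegree + b.natDegree + m + n := by omega
    rw [e1, ← bf_add, hab, bf_C]
  have hsub : N ⊆ N1 ∪ N2 := by
    intro v hv
    obtain ⟨hco, -, -, p, hp, hpX, hpc, hpd⟩ := hN v hv
    have hnR : ¬ (p : ℤ) ∣ R := not_dvd_of_lt hR (lt_of_le_of_lt hXR hpX)
    have hnl : ¬ (p : ℤ) ∣ g.coeff g.natDegree := not_dvd_of_lt hl0 (lt_of_le_of_lt hXl hpX)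
    have hpp : Prime (p : ℤ) := Nat.prime_iff_prime_int.1 hp
    rw [Polynomial.natDegree_mul hg0 hh0, bf_mul g h le_rfl le_rfl] at hpd
    by_cases h3 : (p : ℤ) ∣ bf g m v.1 v.2
    · have h4 : ¬ (p : ℤ) ∣ bf h n v.1 v.2 := by
        intro h5
        have h6 : (p : ℤ) ∣ R * v.2 ^ (a.natDegree + b.natDegree + m + n) := by
          rw [← hbez v.1 v.2]
          exact dvd_add (Dvd.dvd.mul_left h3 _) (Dvd.dvd.mul_left h5 _)
        rcases hpp.dvd_or_dvd h6 with h7 | h7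
        · exact hnR h7
        · exact not_dvd_y g m hco hp hnl h3 (hpp.dvd_of_dvd_pow h7)
      have h5 : (p : ℤ) ^ 2 ∣ bf g m v.1 v.2 := by
        have h6 : IsCoprime ((p : ℤ) ^ 2) (bf h n v.1 v.2) :=
          IsCoprime.pow_left ((Prime.coprime_iff_not_dvd hpp).2 h4)
        exact h6.dvd_of_dvd_mul_right hpd
      exact Finset.mem_union_left _ (Finset.mem_filter.2 ⟨hv, p, hp, hpX, hpc, h5⟩)
    · have h5 : (p : ℤ) ^ 2 ∣ bf h n v.1 v.2 := by
        have h6 : IsCoprime ((p : ℤ) ^ 2) (bf g m v.1 v.2) :=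
          IsCoprime.pow_left ((Prime.coprime_iff_not_dvd hpp).2 h3)
        exact h6.dvd_of_dvd_mul_left hpd
      exact Finset.mem_union_right _ (Finset.mem_filter.2 ⟨hv, p, hp, hpX, hpc, h5⟩)
  have hb1 : (N1.card : ℝ) ≤ C1 * X ^ (2 - η) := by
    apply h1 X hX1
    intro v hv
    obtain ⟨hvN, hvp⟩ := Finset.mem_filter.1 hv
    exact ⟨(hN v hvN).1, (hN v hvN).2.1, (hN v hvN).2.2.1, hvp⟩
  have hb2 : (N2.card : ℝ) ≤ C2 * X ^ (2 - η) := by
    apply h2 X hX1
    intro v hv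
    obtain ⟨hvN, hvp⟩ := Finset.mem_filter.1 hv
    exact ⟨(hN v hvN).1, (hN v hvN).2.1, (hN v hvN).2.2.1, hvp⟩
  have hcard : (N.card : ℝ) ≤ N1.card + N2.card := by
    exact_mod_cast (Finset.card_le_card hsub).trans (Finset.card_union_le _ _)
  rw [add_mul]
  linarith

/-- an irreducible factor of positive degree -/
private theorem factor (f : ℤ[X]) (hd : 1 ≤ f.natDegree) :
    ∃ g : ℤ[X], Irreducible g ∧ 1 ≤ g.natDegree ∧ g ∣ f := by
  have hp : f.primPart.IsPrimitive := f.isPrimitive_primPart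
  have hpd : f.primPart.natDegree = f.natDegree := f.natDegree_primPart
  have hnu : ¬ IsUnit f.primPart := by
    intro h
    have := Polynomial.natDegree_eq_zero_of_isUnit h
    omega
  obtain ⟨g, hgi, hgd⟩ := WfDvdMonoid.exists_irreducible_factor hnu hp.ne_zero
  refine ⟨g, hgi, ?_, hgd.trans f.primPart_dvd⟩
  by_contra hcon
  have h0 : g.natDegree = 0 := by omega
  have hgC := Polynomial.eq_C_of_natDegree_eq_zero h0
  rw [hgC] at hgd
  have h1 := hp _ hgd
  apply hgi.not_isUnit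
  rw [hgC]
  exact h1.map C

/-- FEW PRIMITIVE VECTORS for the form of a separable polynomial of degree `≤ D`. -/
theorem prim_few (hD : ∀ f : ℤ[X], f.Monic → Irreducible f → 2 ≤ f.natDegree → DyF f)
    (g : ℤ[X]) (hsep : (g.map (Int.castRingHom ℚ)).Separable) (D : ℕ) (h1 : 1 ≤ D)
    (hgD : g.natDegree ≤ D) (ε : ℝ) (hε : 0 < ε) :
    PrimFew (1 / (2 * (D : ℝ))) (1 / (D : ℝ) ^ 2 - ε) (fun x y => bf g g.natDegree x y) := by
  have hDr : (1 : ℝ) ≤ D := by exact_mod_cast h1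
  have hη1 : 1 / (D : ℝ) ^ 2 ≤ 1 := by
    rw [div_le_one (by positivity)]
    nlinarith
  have hη2 : 1 / (D : ℝ) ^ 2 - ε ≤ 1 := by linarith
  obtain ⟨n, hn⟩ : ∃ n, g.natDegree ≤ n := ⟨_, le_rfl⟩
  induction n generalizing g with
  | zero =>
    have hf0 : g ≠ 0 := by
      rintro rfl
      rw [Polynomial.map_zero] at hsep
      exact not_separable_zero hsep
    exact (const_case g hf0 (by omega) _).mono le_rfl hη2
  | succ n ih =>
    have hf0 : g ≠ 0 := by
      rintro rfl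
      rw [Polynomial.map_zero] at hsep
      exact not_separable_zero hsep
    by_cases h0 : g.natDegree = 0
    · exact (const_case g hf0 h0 _).mono le_rfl hη2
    · obtain ⟨q, hqi, hqd, h, hqh⟩ := factor g (by omega)
      have hh0 : h ≠ 0 := by
        rintro rfl
        rw [mul_zero] at hqh
        exact hf0 hqh
      have hdeg : g.natDegree = q.natDegree + h.natDegree := by
        rw [hqh, Polynomial.natDegree_mul hqi.ne_zero hh0]
      have hsep' : (q.map (Int.castRingHom ℚ) * h.map (Int.castRingHom ℚ)).Separable := by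
        rw [← Polynomial.map_mul, ← hqh]
        exact hsep
      have hcop : IsCoprime (q.map (Int.castRingHom ℚ)) (h.map (Int.castRingHom ℚ)) :=
        hsep'.isCoprime
      obtain ⟨a, b, R, hR, hab⟩ := Pool.Agent.SQF4.bezout_of_isCoprime q h hcop
      have hfh : PrimFew (1 / (2 * (D : ℝ))) (1 / (D : ℝ) ^ 2 - ε)
          (fun x y => bf h h.natDegree x y) :=
        ih h hsep'.of_mul_right (by omega) (by omega)
      have hfq : PrimFew (1 / (2 * (D : ℝ))) (1 / (D : ℝ) ^ 2 - ε)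
          (fun x y => bf q q.natDegree x y) := by
        rcases Nat.lt_or_ge q.natDegree 2 with h1 | h1
        · exact (lin_case q (by omega) _).mono le_rfl hη2
        · have hqr : (2 : ℝ) ≤ q.natDegree := by exact_mod_cast h1
          have hqD : (q.natDegree : ℝ) ≤ D := by
            have : q.natDegree ≤ D := by omega
            exact_mod_cast this
          refine (irr_case hD q hqi h1 ε hε).mono ?_ ?_
          · apply one_div_le_one_div_of_le (by positivity)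
            linarith
          · have h3 : 1 / (D : ℝ) ^ 2 ≤ 1 / (q.natDegree : ℝ) ^ 2 := by
              apply one_div_le_one_div_of_le (by positivity)
              exact pow_le_pow_left₀ (by linarith) hqD 2
            linarith
      rw [hqh]
      exact mul_case q h a b hqi.ne_zero hh0 R hR hab _ _ (by linarith) hfq hfh

end

end Pool.Agent.Lib.SqfH2
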