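import Pool.Agent.Lib.SqfH2.Defs

set_option autoImplicit false

/-!
Binary forms, first range (MP_8842b2_nt): from primitive vectors to all vectors.
-/

namespace Pool.Agent.Lib.SqfH2

/-- the trivial bound -/
private theorem box_card1 (X : ℝ) (hX : 1 ≤ X) (N : Finset (ℤ × ℤ))
    (h : ∀ v ∈ N, |(v.1 : ℝ)| ≤ X ∧ |(v.2 : ℝ)| ≤ X) : (N.card : ℝ) ≤ 9 * X ^ 2 := by
  have h0 : ∀ z : ℤ, |(z : ℝ)| ≤ X → z ∈ Finset.Icc (-(⌊X⌋)) ⌊X⌋ := by
    intro z hz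
    have h2 := abs_le.1 hz
    rw [Finset.mem_Icc]
    constructor
    · have h3 : -z ≤ ⌊X⌋ := by
        apply Int.le_floor.2
        push_cast
        linarith
      omega
    · exact Int.le_floor.2 h2.2
  have h1 : N ⊆ Finset.Icc (-(⌊X⌋)) ⌊X⌋ ×ˢ Finset.Icc (-(⌊X⌋)) ⌊X⌋ := by
    intro v hv
    rw [Finset.mem_product]
    exact ⟨h0 _ (h v hv).1, h0 _ (h v hv).2⟩
  have h2 := Finset.card_le_card h1
  rw [Finset.card_product, Int.card_Icc] at h2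
  have h3 : 0 ≤ ⌊X⌋ := Int.floor_nonneg.2 (by linarith)
  have h4 : ((⌊X⌋ + 1 - -⌊X⌋).toNat : ℝ) = 2 * (⌊X⌋ : ℝ) + 1 := by
    have h5 : ((⌊X⌋ + 1 - -⌊X⌋).toNat : ℤ) = 2 * ⌊X⌋ + 1 := by omega
    have h6 := congrArg (Int.cast : ℤ → ℝ) h5
    push_cast at h6
    exact h6
  have h5 : (N.card : ℝ) ≤ ((⌊X⌋ + 1 - -⌊X⌋).toNat : ℝ) * ((⌊X⌋ + 1 - -⌊X⌋).toNat : ℝ) := by
    exact_mod_cast h2
  rw [h4] at h5
  have h6 := Int.floor_le X
  have h7 : 2 * (⌊X⌋ : ℝ) + 1 ≤ 3 * X := by linarith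
  have h8 : (0 : ℝ) ≤ 2 * (⌊X⌋ : ℝ) + 1 := by
    have : (0 : ℝ) ≤ ⌊X⌋ := by exact_mod_cast h3
    linarith
  calc (N.card : ℝ) ≤ (2 * (⌊X⌋ : ℝ) + 1) * (2 * (⌊X⌋ : ℝ) + 1) := h5
    _ ≤ (3 * X) * (3 * X) := mul_le_mul h7 h7 h8 (by linarith)
    _ = 9 * X ^ 2 := by ring

/-- the greatest common divisor of a nonzero vector of the box -/
private theorem gcd_le (X : ℝ) (v : ℤ × ℤ) (hv : v ≠ 0) (h1 : |(v.1 : ℝ)| ≤ X)
    (h2 : |(v.2 : ℝ)| ≤ X) : 1 ≤ Int.gcd v.1 v.2 ∧ ((Int.gcd v.1 v.2 : ℕ) : ℝ) ≤ X := by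
  have hg : Int.gcd v.1 v.2 ≠ 0 := by
    intro h0
    rw [Int.gcd_eq_zero_iff] at h0
    exact hv (Prod.ext h0.1 h0.2)
  refine ⟨Nat.one_le_iff_ne_zero.2 hg, ?_⟩
  have key : ∀ a : ℤ, a ≠ 0 → ((Int.gcd v.1 v.2 : ℕ) : ℤ) ∣ a → |(a : ℝ)| ≤ X →
      ((Int.gcd v.1 v.2 : ℕ) : ℝ) ≤ X := by
    intro a ha hd hX
    have h3 := Int.le_of_dvd (abs_pos.2 ha) ((dvd_abs _ _).2 hd)
    have h4 : ((Int.gcd v.1 v.2 : ℕ) : ℝ) ≤ |(a : ℝ)| := by exact_mod_cast h3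
    exact h4.trans hX
  by_cases h3 : v.1 = 0
  · have h4 : v.2 ≠ 0 := fun h4 => hv (Prod.ext h3 h4)
    exact key v.2 h4 (Int.gcd_dvd_right ..) h2
  · exact key v.1 h3 (Int.gcd_dvd_left ..) h1

/-- the vectors of the box with greatest common divisor `g` -/
private theorem fibre_image (X : ℝ) (g : ℕ) (hg : 1 ≤ g) (M : Finset (ℤ × ℤ))
    (hM : ∀ v ∈ M, |(v.1 : ℝ)| ≤ X ∧ |(v.2 : ℝ)| ≤ X ∧ Int.gcd v.1 v.2 = g) :
    ∃ M' : Finset (ℤ × ℤ), M'.card = M.card ∧ ∀ w ∈ M', IsCoprime w.1 w.2 ∧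
      |(w.1 : ℝ)| ≤ X / g ∧ |(w.2 : ℝ)| ≤ X / g ∧ ((g : ℤ) * w.1, (g : ℤ) * w.2) ∈ M := by
  classical
  have hg0 : (g : ℤ) ≠ 0 := by exact_mod_cast (by omega : g ≠ 0)
  have hgr : (0 : ℝ) < g := by exact_mod_cast (by omega : 0 < g)
  have hdiv : ∀ v ∈ M, (g : ℤ) * (v.1 / g) = v.1 ∧ (g : ℤ) * (v.2 / g) = v.2 := by
    intro v hv
    obtain ⟨-, -, h3⟩ := hM v hv
    have h4 : (g : ℤ) ∣ v.1 := by rw [← h3]; exact Int.gcd_dvd_left ..
    have h5 : (g : ℤ) ∣ v.2 := by rw [← h3]; exact Int.gcd_dvd_right ..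
    exact ⟨Int.mul_ediv_cancel' h4, Int.mul_ediv_cancel' h5⟩
  refine ⟨M.image (fun v => (v.1 / (g : ℤ), v.2 / (g : ℤ))), ?_, ?_⟩
  · apply Finset.card_image_of_injOn
    intro v hv w hw hvw
    have h1 := hdiv v hv
    have h2 := hdiv w hw
    simp only [Prod.mk.injEq] at hvw
    refine Prod.ext ?_ ?_
    · rw [← h1.1, ← h2.1, hvw.1]
    · rw [← h1.2, ← h2.2, hvw.2]
  · intro w hw
    obtain ⟨v, hv, rfl⟩ := Finset.mem_image.1 hw
    obtain ⟨h1, h2, h3⟩ := hM v hv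
    obtain ⟨h4, h5⟩ := hdiv v hv
    have habs : ∀ a b : ℤ, (g : ℤ) * b = a → |(a : ℝ)| ≤ X → |(b : ℝ)| ≤ X / g := by
      intro a b hab ha
      rw [le_div_iff₀ hgr]
      have h6 : |(a : ℝ)| = |(b : ℝ)| * g := by
        rw [← hab]
        push_cast
        rw [abs_mul, abs_of_pos hgr, mul_comm]
      rw [← h6]
      exact ha
    refine ⟨?_, habs _ _ h4 h1, habs _ _ h5 h2, ?_⟩
    · rw [Int.isCoprime_iff_gcd_eq_one]
      have h6 := Int.gcd_mul_left (g : ℤ) (v.1 / g) (v.2 / g)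
      rw [h4, h5, h3, Int.natAbs_natCast] at h6
      have h7 : g * 1 = g * Int.gcd (v.1 / g) (v.2 / g) := by rw [mul_one]; exact h6
      exact (Nat.eq_of_mul_eq_mul_left (by omega) h7).symm
    · show ((g : ℤ) * (v.1 / g), (g : ℤ) * (v.2 / g)) ∈ M
      rw [h4, h5]
      exact hv

/-- FROM PRIMITIVE VECTORS TO ALL VECTORS -/
theorem all_of_prim (Phi : ℤ → ℤ → ℤ) (D : ℕ)
    (hPhi : ∀ g x y, Phi (g * x) (g * y) = g ^ D * Phi x y) (c η : ℝ) (hη : 0 < η) (hη1 : η ≤ 1)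
    (h : PrimFew c η Phi) : ∃ C : ℝ, 0 < C ∧ ∀ X : ℝ, 1 ≤ X → ∀ N : Finset (ℤ × ℤ),
      (∀ v ∈ N, |(v.1 : ℝ)| ≤ X ∧ |(v.2 : ℝ)| ≤ X ∧
        ∃ p : ℕ, p.Prime ∧ X < p ∧ (p : ℝ) ≤ X ^ (2 + c) ∧ (p : ℤ) ^ 2 ∣ Phi v.1 v.2) →
      (N.card : ℝ) ≤ C * X ^ (2 - η / 2) := by
  classical
  obtain ⟨C0, hC0, h⟩ := h
  refine ⟨C0 + 19, by positivity, fun X hX N hN => ?_⟩
  have hX0 : 0 < X := by linarith
  have hY1 : 1 ≤ X ^ (η / 2) := Real.one_le_rpow hX (by linarith)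
  have hT1 : 1 ≤ X ^ (2 - η / 2) := Real.one_le_rpow hX (by linarith)
  set G : ℕ := ⌊X ^ (η / 2)⌋₊ with hG
  have hG1 : (G : ℝ) ≤ X ^ (η / 2) := Nat.floor_le (by linarith)
  have hG2 : X ^ (η / 2) < (G : ℝ) + 1 := Nat.lt_floor_add_one _
  set gg : ℤ × ℤ → ℕ := fun v => Int.gcd v.1 v.2 with hgg
  -- the three parts
  set N' := N.filter (fun v => ¬ v = 0) with hN'
  set N1 := N'.filter (fun v => gg v ≤ G) with hN1
  set N2 := N'.filter (fun v => ¬ gg v ≤ G) with hN2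
  have hmemN' : ∀ v ∈ N', v ∈ N ∧ v ≠ 0 := fun v hv => Finset.mem_filter.1 hv
  have hgN' : ∀ v ∈ N', 1 ≤ gg v ∧ ((gg v : ℕ) : ℝ) ≤ X := by
    intro v hv
    obtain ⟨hv1, hv2⟩ := hmemN' v hv
    obtain ⟨h1, h2, -⟩ := hN v hv1
    exact gcd_le X v hv2 h1 h2
  have hc0 : (N.filter (fun v => v = 0)).card ≤ 1 := by
    rw [Finset.card_le_one]
    intro a ha b hb
    rw [(Finset.mem_filter.1 ha).2, (Finset.mem_filter.1 hb).2]
  have hsum : N.card = (N.filter (fun v => v = 0)).card + N'.card :=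
    (Finset.card_filter_add_card_filter_not _).symm
  have hsum' : N'.card = N1.card + N2.card := (Finset.card_filter_add_card_filter_not _).symm
  -- small greatest common divisor
  have hb1 : (N1.card : ℝ) ≤ C0 * X ^ (2 - η / 2) := by
    have hmaps : ∀ v ∈ N1, gg v ∈ Finset.Icc 1 G := by
      intro v hv
      obtain ⟨hv1, hv2⟩ := Finset.mem_filter.1 hv
      rw [Finset.mem_Icc]
      exact ⟨(hgN' v hv1).1, hv2⟩
    have hfib : ∀ g ∈ Finset.Icc 1 G,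
        ((N1.filter (fun v => gg v = g)).card : ℝ) ≤ C0 * X ^ (2 - η) := by
      intro g hg
      rw [Finset.mem_Icc] at hg
      have hgr : (1 : ℝ) ≤ g := by exact_mod_cast hg.1
      obtain ⟨M', hM1, hM2⟩ := fibre_image X g hg.1 (N1.filter (fun v => gg v = g)) (by
        intro v hv
        obtain ⟨hv1, hv2⟩ := Finset.mem_filter.1 hv
        obtain ⟨hv3, -⟩ := Finset.mem_filter.1 hv1
        obtain ⟨h1, h2, -⟩ := hN v (hmemN' v hv3).1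
        exact ⟨h1, h2, hv2⟩)
      rw [← hM1]
      apply h X hX
      intro w hw
      obtain ⟨h1, h2, h3, h4⟩ := hM2 w hw
      have hle : X / g ≤ X := div_le_self hX0.le hgr
      obtain ⟨h5, h6⟩ := Finset.mem_filter.1 h4
      obtain ⟨h7, h8⟩ := Finset.mem_filter.1 h5
      obtain ⟨-, -, p, hp, hpX, hpc, hpd⟩ := hN _ (hmemN' _ h7).1
      refine ⟨h1, h2.trans hle, h3.trans hle, p, hp, hpX, hpc, ?_⟩
      simp only at hpd
      rw [hPhi] at hpd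
      have hgX : ((g : ℕ) : ℝ) ≤ X := by
        have := (hgN' _ h7).2
        rwa [h6] at this
      have hpg : ¬ (p : ℤ) ∣ (g : ℤ) := by
        intro hd
        have h9 : p ≤ g := Nat.le_of_dvd (by omega) (by exact_mod_cast hd)
        have h10 : (p : ℝ) ≤ g := by exact_mod_cast h9
        linarith
      have hpp : Prime (p : ℤ) := Nat.prime_iff_prime_int.1 hp
      have hcop : IsCoprime ((p : ℤ) ^ 2) ((g : ℤ) ^ D) :=
        IsCoprime.pow (hpp.coprime_iff_not_dvd.2 hpg)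
      exact hcop.dvd_of_dvd_mul_left hpd
    have h1 : (N1.card : ℝ) = ∑ g ∈ Finset.Icc 1 G, ((N1.filter (fun v => gg v = g)).card : ℝ) := by
      have := Finset.card_eq_sum_card_fiberwise (f := gg) (s := N1) (t := Finset.Icc 1 G)
        (fun v hv => hmaps v hv)
      exact_mod_cast this
    rw [h1]
    calc ∑ g ∈ Finset.Icc 1 G, ((N1.filter (fun v => gg v = g)).card : ℝ)
        ≤ ∑ _g ∈ Finset.Icc 1 G, C0 * X ^ (2 - η) := Finset.sum_le_sum hfib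
      _ = G * (C0 * X ^ (2 - η)) := by
          rw [Finset.sum_const, Nat.card_Icc, Nat.add_sub_cancel, nsmul_eq_mul]
      _ ≤ X ^ (η / 2) * (C0 * X ^ (2 - η)) := mul_le_mul_of_nonneg_right hG1 (by positivity)
      _ = C0 * X ^ (2 - η / 2) := by
          have h2 : X ^ (2 - η / 2) = X ^ (η / 2) * X ^ (2 - η) := by
            rw [← Real.rpow_add hX0]
            congr 1
            ring
          rw [h2]
          ring
  -- large greatest common divisor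
  have hb2 : (N2.card : ℝ) ≤ 18 * X ^ (2 - η / 2) := by
    have hmaps : ∀ v ∈ N2, gg v ∈ Finset.Ioo G (⌊X⌋₊ + 1) := by
      intro v hv
      obtain ⟨hv1, hv2⟩ := Finset.mem_filter.1 hv
      rw [Finset.mem_Ioo]
      exact ⟨not_le.1 hv2, Nat.lt_succ_of_le (Nat.le_floor (hgN' v hv1).2)⟩
    have hfib : ∀ g ∈ Finset.Ioo G (⌊X⌋₊ + 1),
        ((N2.filter (fun v => gg v = g)).card : ℝ) ≤ 9 * X ^ 2 * (((g : ℝ) ^ 2)⁻¹) := by
      intro g hg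
      rw [Finset.mem_Ioo] at hg
      have hg1 : 1 ≤ g := by omega
      have hgr : (1 : ℝ) ≤ g := by exact_mod_cast hg1
      have hgX : (g : ℝ) ≤ X := by
        have h1 : g ≤ ⌊X⌋₊ := by omega
        exact (Nat.cast_le.2 h1).trans (Nat.floor_le hX0.le)
      obtain ⟨M', hM1, hM2⟩ := fibre_image X g hg1 (N2.filter (fun v => gg v = g)) (by
        intro v hv
        obtain ⟨hv1, hv2⟩ := Finset.mem_filter.1 hv
        obtain ⟨hv3, -⟩ := Finset.mem_filter.1 hv1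
        obtain ⟨h1, h2, -⟩ := hN v (hmemN' v hv3).1
        exact ⟨h1, h2, hv2⟩)
      rw [← hM1]
      have h1 := box_card1 (X / g) (by rw [le_div_iff₀ (by linarith)]; linarith) M'
        (fun w hw => ⟨(hM2 w hw).2.1, (hM2 w hw).2.2.1⟩)
      calc (M'.card : ℝ) ≤ 9 * (X / g) ^ 2 := h1
        _ = 9 * X ^ 2 * (((g : ℝ) ^ 2)⁻¹) := by rw [div_pow]; ring
    have h1 : (N2.card : ℝ) = ∑ g ∈ Finset.Ioo G (⌊X⌋₊ + 1),
        ((N2.filter (fun v => gg v = g)).card : ℝ) := by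
      have := Finset.card_eq_sum_card_fiberwise (f := gg) (s := N2)
        (t := Finset.Ioo G (⌊X⌋₊ + 1)) (fun v hv => hmaps v hv)
      exact_mod_cast this
    rw [h1]
    calc ∑ g ∈ Finset.Ioo G (⌊X⌋₊ + 1), ((N2.filter (fun v => gg v = g)).card : ℝ)
        ≤ ∑ g ∈ Finset.Ioo G (⌊X⌋₊ + 1), 9 * X ^ 2 * (((g : ℝ) ^ 2)⁻¹) := Finset.sum_le_sum hfib
      _ = 9 * X ^ 2 * ∑ g ∈ Finset.Ioo G (⌊X⌋₊ + 1), ((g : ℝ) ^ 2)⁻¹ := by rw [Finset.mul_sum]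
      _ ≤ 9 * X ^ 2 * (2 / ((G : ℝ) + 1)) :=
          mul_le_mul_of_nonneg_left (sum_Ioo_inv_sq_le _ _) (by positivity)
      _ ≤ 9 * X ^ 2 * (2 / X ^ (η / 2)) := by
          apply mul_le_mul_of_nonneg_left _ (by positivity)
          exact div_le_div_of_nonneg_left (by norm_num) (by positivity) hG2.le
      _ = 18 * X ^ (2 - η / 2) := by
          rw [Real.rpow_sub hX0, Real.rpow_two]
          ring
  have hb0 : (N.card : ℝ) ≤ 1 + (N1.card : ℝ) + (N2.card : ℝ) := by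
    have : N.card ≤ 1 + N1.card + N2.card := by omega
    exact_mod_cast this
  nlinarith

end Pool.Agent.Lib.SqfH2
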