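import Pool.Agent.Lib.SqfH2.FinA
import Pool.Agent.Lib.Sqf4.LastT

set_option autoImplicit false

/-!
Binary forms, first range (MP_8842b2_nt): squarefree homogeneous polynomials in two variables.
-/

namespace Pool.Agent.Lib.SqfH2

open Polynomial

noncomputable section

/-- DEHOMOGENISATION of a squarefree form -/
theorem dehom (F : MvPolynomial (Fin 2) ℤ) (D : ℕ) (hF : F.IsHomogeneous D) (hsq : Squarefree F) :
    ∃ p : ℤ[X], Squarefree p ∧ p.natDegree ≤ D ∧ D ≤ p.natDegree + 1 ∧
      ∀ x y : ℤ, MvPolynomial.eval ![x, y] F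
        = bf p p.natDegree x y * y ^ (D - p.natDegree) := by
  classical
  set p : ℤ[X] := MvPolynomial.aeval ![X, 1] F with hp
  have hFp : p.homogenize D = F := homogenize_eq_of_isHomogeneous hF hp.symm
  have hF0 : F ≠ 0 := hsq.ne_zero
  have hp0 : p ≠ 0 := by
    intro h0
    rw [h0, homogenize_zero] at hFp
    exact hF0 hFp.symm
  have hdeg : p.natDegree ≤ D := by
    have h1 := MvPolynomial.aeval_natDegree_le (m := D) (n := 1) F hF.totalDegree_le
      (![X, 1] : Fin 2 → ℤ[X]) (by
        intro i
        fin_cases i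
        · simp
        · simp)
    rwa [mul_one] at h1
  have hunit : ∀ (g : ℤ[X]) (a : ℕ), g.natDegree ≤ a → IsUnit (g.homogenize a) → IsUnit g := by
    intro g a hga hu
    have h1 := hu.map (MvPolynomial.aeval (![X, 1] : Fin 2 → ℤ[X]))
    rwa [aeval_homogenize_X_one g hga] at h1
  refine ⟨p, ?_, hdeg, ?_, ?_⟩
  · intro g hg
    obtain ⟨h, hh⟩ := hg
    have hg0 : g ≠ 0 := by
      rintro rfl
      rw [zero_mul, zero_mul] at hh
      exact hp0 hh
    have hh0 : h ≠ 0 := by
      rintro rfl
      rw [mul_zero] at hh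
      exact hp0 hh
    have hd : p.natDegree = g.natDegree + g.natDegree + h.natDegree := by
      rw [hh, natDegree_mul (mul_ne_zero hg0 hg0) hh0, natDegree_mul hg0 hg0]
    apply hunit g g.natDegree le_rfl
    apply hsq
    refine ⟨h.homogenize (D - (g.natDegree + g.natDegree)), ?_⟩
    have h1 : D = (g.natDegree + g.natDegree) + (D - (g.natDegree + g.natDegree)) := by omega
    rw [← homogenize_mul g g le_rfl le_rfl, ← homogenize_mul (g * g) h natDegree_mul_le (by omega),
      ← h1, ← hh, hFp]
  · by_contra hcon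
    push Not at hcon
    have h1 : D = p.natDegree + (D - p.natDegree) := by omega
    have h2 : F = p.homogenize p.natDegree * (MvPolynomial.X 1) ^ (D - p.natDegree) := by
      rw [← homogenize_one, ← homogenize_mul p 1 le_rfl (by simp), mul_one, ← h1, hFp]
    have h3 : IsUnit (MvPolynomial.X 1 : MvPolynomial (Fin 2) ℤ) := by
      apply hsq
      rw [h2]
      refine Dvd.dvd.mul_left ?_ _
      rw [← pow_two]
      exact pow_dvd_pow _ (by omega)
    have h4 := h3.map (MvPolynomial.eval (![0, 0] : Fin 2 → ℤ))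
    simp at h4
  · intro x y
    have h1 : D = p.natDegree + (D - p.natDegree) := by omega
    have h2 : F = p.homogenize p.natDegree * (MvPolynomial.X 1) ^ (D - p.natDegree) := by
      rw [← homogenize_one, ← homogenize_mul p 1 le_rfl (by simp), mul_one, ← h1, hFp]
    conv_lhs => rw [h2]
    rw [map_mul, map_pow, bf]
    simp

/-- primitive vectors, with the factor `y` -/
theorem prim_few_y (p : ℤ[X]) (c η : ℝ) (hη : η ≤ 2) (e : ℕ) (he : e ≤ 1)
    (h : PrimFew c η (fun x y => bf p p.natDegree x y)) :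
    PrimFew c η (fun x y => bf p p.natDegree x y * y ^ e) := by
  classical
  obtain ⟨C, hC, h⟩ := h
  rcases Nat.le_one_iff_eq_zero_or_eq_one.1 he with rfl | rfl
  · refine ⟨C, hC, fun X hX N hN => h X hX N ?_⟩
    intro v hv
    obtain ⟨h1, h2, h3, q, hq, h4, h5, h6⟩ := hN v hv
    refine ⟨h1, h2, h3, q, hq, h4, h5, ?_⟩
    simpa using h6
  · refine ⟨C + 2, by positivity, fun X hX N hN => ?_⟩
    have hXp : 1 ≤ X ^ (2 - η) := Real.one_le_rpow hX (by linarith)
    set N1 := N.filter (fun v => ¬ v.2 = 0) with hN1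
    have hb1 : (N1.card : ℝ) ≤ C * X ^ (2 - η) := by
      apply h X hX
      intro v hv
      obtain ⟨hvN, hv0⟩ := Finset.mem_filter.1 hv
      obtain ⟨h1, h2, h3, q, hq, h4, h5, h6⟩ := hN v hvN
      refine ⟨h1, h2, h3, q, hq, h4, h5, ?_⟩
      simp only [pow_one] at h6
      have hqq : Prime (q : ℤ) := Nat.prime_iff_prime_int.1 hq
      have hqy : ¬ (q : ℤ) ∣ v.2 := by
        intro hd
        have h7 := Int.le_of_dvd (abs_pos.2 hv0) ((dvd_abs _ _).2 hd)
        have h8 : (q : ℝ) ≤ |(v.2 : ℝ)| := by exact_mod_cast h7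
        linarith
      exact (IsCoprime.pow_left (hqq.coprime_iff_not_dvd.2 hqy)).dvd_of_dvd_mul_right h6
    have hb2 : (N.filter (fun v => v.2 = 0)).card ≤ 2 := by
      have hsub : N.filter (fun v => v.2 = 0) ⊆ {(1, 0), (-1, 0)} := by
        intro v hv
        obtain ⟨hvN, hv0⟩ := Finset.mem_filter.1 hv
        obtain ⟨h1, -⟩ := hN v hvN
        rw [hv0, isCoprime_zero_right, Int.isUnit_iff] at h1
        rw [Finset.mem_insert, Finset.mem_singleton]
        rcases h1 with h2 | h2
        · left; exact Prod.ext h2 hv0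
        · right; exact Prod.ext h2 hv0
      exact (Finset.card_le_card hsub).trans Finset.card_le_two
    have hsum : N.card = (N.filter (fun v => v.2 = 0)).card + N1.card :=
      (Finset.card_filter_add_card_filter_not _).symm
    have hb3 : (N.card : ℝ) ≤ 2 + N1.card := by
      have : N.card ≤ 2 + N1.card := by omega
      exact_mod_cast this
    nlinarith

end

end Pool.Agent.Lib.SqfH2
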