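import Pool.Agent.Lib.SqfH2.FinB1
import Pool.Agent.Lib.SqfH2.FinB2
import Pool.Agent.Lib.SqfH2.Dy

set_option autoImplicit false

/-!
Binary forms, first range (MP_8842b2_nt): the final theorem.
-/

namespace Pool.Agent.Lib.SqfH2

open Polynomial

/-- binary forms, the primes `X < p ≤ X^(2 + 1/(2D))` -/
theorem forms_first_range (D : ℕ) (hD : 1 ≤ D) (F : MvPolynomial (Fin 2) ℤ)
    (hF : F.IsHomogeneous D) (hsq : Squarefree F) :
    ∃ C : ℝ, ∀ X : ℝ, 1 ≤ X → ∀ N : Finset (Fin 2 → ℤ),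
      (∀ v ∈ N, (∀ i, |(v i : ℝ)| ≤ X) ∧ ∃ p : ℕ, p.Prime ∧ X < p ∧
        (p : ℝ) ≤ X ^ (2 + 1 / (2 * (D : ℝ))) ∧ (p : ℤ) ^ 2 ∣ MvPolynomial.eval v F) →
      (N.card : ℝ) ≤ C * X ^ (2 - 1 / (3 * (D : ℝ) ^ 2)) := by
  classical
  obtain ⟨p, hps, hpd, hDp, hFp⟩ := dehom F D hF hsq
  have hD1 : (1 : ℝ) ≤ D := by exact_mod_cast hD
  have hD2 : (1 : ℝ) ≤ (D : ℝ) ^ 2 := one_le_pow₀ hD1
  have hDi : 1 / (D : ℝ) ^ 2 ≤ 1 := by
    rw [div_le_one (by positivity)]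
    exact hD2
  have hDi0 : 0 < 1 / (D : ℝ) ^ 2 := by positivity
  have h3 : 1 / (3 * (D : ℝ) ^ 2) = (1 / (D : ℝ) ^ 2) / 3 := by
    field_simp
  set q : ℝ := 1 / (D : ℝ) ^ 2 with hq
  have h1 : PrimFew (1 / (2 * (D : ℝ))) (q - q / 3)
      (fun x y => bf p p.natDegree x y) :=
    prim_few (fun f hf hi hd => dyF f hf hi hd) p (Pool.Agent.Lib.Sqf4.separable_of_squarefree p hps)
      D hD hpd (q / 3) (by positivity)
  have h2 := prim_few_y p _ _ (by linarith) (D - p.natDegree) (by omega) h1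
  obtain ⟨C, hC, h⟩ := all_of_prim _ D (by
    intro g x y
    rw [bf_scale, mul_pow]
    have h5 : g ^ D = g ^ p.natDegree * g ^ (D - p.natDegree) := by
      rw [← pow_add]
      congr 1
      omega
    rw [h5]
    ring) _ _ (by linarith) (by linarith) h2
  refine ⟨C, fun X hX N hN => ?_⟩
  set e : (Fin 2 → ℤ) ≃ ℤ × ℤ := finTwoArrowEquiv ℤ with he
  have h6 := h X hX (N.map e.toEmbedding) (by
    intro w hw
    obtain ⟨v, hv, rfl⟩ := Finset.mem_map.1 hw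
    obtain ⟨h7, r, hr, h8, h9, h10⟩ := hN v hv
    have h11 : (![v 0, v 1] : Fin 2 → ℤ) = v := by
      funext i
      fin_cases i <;> rfl
    refine ⟨h7 0, h7 1, r, hr, h8, h9, ?_⟩
    have h12 := hFp (v 0) (v 1)
    rw [h11] at h12
    rw [h12] at h10
    exact h10)
  rw [Finset.card_map] at h6
  rw [h3]
  have h13 : 2 - (q - q / 3) / 2 = 2 - q / 3 := by ring
  rw [h13] at h6
  exact h6

end Pool.Agent.Lib.SqfH2
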