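import Mathlib

set_option autoImplicit false

/-!
Binary forms, first range (MP_8842b2_nt): values of the homogenisation of a polynomial.
-/

namespace Pool.Agent.Lib.SqfH2

open Polynomial

noncomputable section

/-- the value at `(x, y)` of the form of degree `n` with dehomogenisation `f` -/
def bf (f : ℤ[X]) (n : ℕ) (x y : ℤ) : ℤ := MvPolynomial.eval ![x, y] (f.homogenize n)

theorem bf_eq (f : ℤ[X]) (n : ℕ) (x y : ℤ) :
    bf f n x y = ∑ i ∈ Finset.range (n + 1), f.coeff i * x ^ i * y ^ (n - i) := by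
  unfold bf homogenize
  rw [MvPolynomial.eval_sum, Finset.Nat.sum_antidiagonal_eq_sum_range_succ_mk]
  refine Finset.sum_congr rfl fun k hk => ?_
  rw [MvPolynomial.eval_monomial, Finsupp.update_eq_add_single (by simp),
    Finsupp.prod_add_index' (by simp) (by intro a b c; rw [pow_add]),
    Finsupp.prod_single_index (by simp), Finsupp.prod_single_index (by simp)]
  simp
  ring

theorem bf_add (f g : ℤ[X]) (n : ℕ) (x y : ℤ) : bf (f + g) n x y = bf f n x y + bf g n x y := by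
  unfold bf
  rw [homogenize_add, map_add]

theorem bf_C (c : ℤ) (n : ℕ) (x y : ℤ) : bf (C c) n x y = c * y ^ n := by
  unfold bf
  rw [homogenize_C]
  simp

theorem bf_mul (f g : ℤ[X]) {m n : ℕ} (hm : f.natDegree ≤ m) (hn : g.natDegree ≤ n) (x y : ℤ) :
    bf (f * g) (m + n) x y = bf f m x y * bf g n x y := by
  unfold bf
  rw [homogenize_mul f g hm hn, map_mul]

theorem bf_at (f : ℤ[X]) {n : ℕ} (hn : f.natDegree ≤ n) (k y : ℤ) :
    bf f n (k * y) y = y ^ n * f.eval k := by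
  rw [bf_eq, eval_eq_sum_range' (Nat.lt_succ_of_le hn), Finset.mul_sum]
  refine Finset.sum_congr rfl fun i hi => ?_
  rw [Finset.mem_range] at hi
  have h1 : y ^ n = y ^ i * y ^ (n - i) := by
    rw [← pow_add]
    congr 1
    omega
  rw [h1, mul_pow]
  ring

theorem bf_sub_dvd (f : ℤ[X]) (n : ℕ) (x x' y : ℤ) : x - x' ∣ bf f n x y - bf f n x' y := by
  rw [bf_eq, bf_eq, ← Finset.sum_sub_distrib]
  refine Finset.dvd_sum fun i _ => ?_
  have h1 : f.coeff i * x ^ i * y ^ (n - i) - f.coeff i * x' ^ i * y ^ (n - i)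
      = (x ^ i - x' ^ i) * (f.coeff i * y ^ (n - i)) := by ring
  rw [h1]
  exact (sub_dvd_pow_sub_pow x x' i).mul_right _

theorem bf_lead_dvd (f : ℤ[X]) (n : ℕ) (x y : ℤ) : y ∣ bf f n x y - f.coeff n * x ^ n := by
  rw [bf_eq, Finset.sum_range_succ, Nat.sub_self, pow_zero, mul_one, add_sub_cancel_right]
  refine Finset.dvd_sum fun i hi => ?_
  rw [Finset.mem_range] at hi
  exact (dvd_pow_self y (by omega)).mul_left _

theorem bf_scale (f : ℤ[X]) (n : ℕ) (g x y : ℤ) : bf f n (g * x) (g * y) = g ^ n * bf f n x y := by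
  rw [bf_eq, bf_eq, Finset.mul_sum]
  refine Finset.sum_congr rfl fun i hi => ?_
  rw [Finset.mem_range] at hi
  have h1 : g ^ n = g ^ i * g ^ (n - i) := by
    rw [← pow_add]
    congr 1
    omega
  rw [h1, mul_pow, mul_pow]
  ring

/-- a prime dividing the form at a primitive vector does not divide `y` -/
theorem not_dvd_y (f : ℤ[X]) (n : ℕ) {x y : ℤ} (h : IsCoprime x y) {p : ℕ} (hp : p.Prime)
    (hl : ¬ (p : ℤ) ∣ f.coeff n) (hd : (p : ℤ) ∣ bf f n x y) : ¬ (p : ℤ) ∣ y := by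
  intro hy
  have hpp : Prime (p : ℤ) := Nat.prime_iff_prime_int.1 hp
  have h1 : (p : ℤ) ∣ f.coeff n * x ^ n := by
    have h2 := (hy.trans (bf_lead_dvd f n x y))
    have h3 := dvd_sub hd h2
    rwa [sub_sub_cancel] at h3
  rcases hpp.dvd_or_dvd h1 with h2 | h2
  · exact hl h2
  · have h3 := hpp.dvd_of_dvd_pow h2
    obtain ⟨u, v, huv⟩ := h
    apply hpp.not_isUnit
    rw [isUnit_iff_dvd_one, ← huv]
    exact dvd_add (h3.mul_left _) (hy.mul_left _)

/-- the class `x / y` modulo `p^2` -/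
theorem exists_class (f : ℤ[X]) {n : ℕ} (hn : f.natDegree ≤ n) {x y : ℤ} (h : IsCoprime x y)
    {p : ℕ} (hp : p.Prime) (hl : ¬ (p : ℤ) ∣ f.coeff n) (hd : (p : ℤ) ^ 2 ∣ bf f n x y) :
    ∃ w : ℤ, (p : ℤ) ^ 2 ∣ x - w * y ∧ (p : ℤ) ^ 2 ∣ f.eval w := by
  have hpp : Prime (p : ℤ) := Nat.prime_iff_prime_int.1 hp
  have hy := not_dvd_y f n h hp hl ((dvd_pow_self _ two_ne_zero).trans hd)
  have hcop : IsCoprime ((p : ℤ) ^ 2) y := (hpp.coprime_iff_not_dvd.2 hy).pow_left
  obtain ⟨u, v, huv⟩ := hcop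
  have h1 : (p : ℤ) ^ 2 ∣ x - (x * v) * y := ⟨x * u, by linear_combination - x * huv⟩
  refine ⟨x * v, h1, ?_⟩
  have h2 := h1.trans (bf_sub_dvd f n x (x * v * y) y)
  have h3 : (p : ℤ) ^ 2 ∣ bf f n (x * v * y) y := by
    have h4 := dvd_sub hd h2
    rwa [sub_sub_cancel] at h4
  rw [bf_at f hn] at h3
  exact (IsCoprime.pow_right ⟨u, v, huv⟩).dvd_of_dvd_mul_left h3

end

end Pool.Agent.Lib.SqfH2
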