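import Pool.Agent.Lib.SqfH2.DetF
import Pool.Agent.Lib.Sqf4.PB
import Pool.Agent.Lib.Sqf4.Win1

set_option autoImplicit false

/-!
Binary forms, first range (MP_8842b2_nt): the common linear relation of one window.
-/

namespace Pool.Agent.Lib.SqfH2

open Polynomial Matrix Pool.Agent.Lib.Sqf4

noncomputable section

variable {d : ℕ}

/-- the integers `β_j` of a solution: `p^2 β_j = x PB_j(s) - y QB_j(s)` -/
def SolF (PB QB : Fin d → ℤ[X]) (p : ℕ) (x y s : ℤ) (β : Fin d → ℤ) : Prop :=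
  ∀ j, (p : ℤ) ^ 2 * β j = x * (PB j).eval s - y * (QB j).eval s

/-- the value of `β_j` at a solution of a window -/
theorem sol_valF {θ : Fin d → ℂ} {a : Fin d → ℤ} {PB QB : Fin d → ℤ[X]}
    (h : PBQB θ a PB QB) {p : ℕ} (hp : 0 < p) {x y s : ℤ} {β : Fin d → ℤ}
    (hS : SolF PB QB p x y s β) (j : Fin d) :
    (β j : ℂ) = ((p : ℂ) ^ 2)⁻¹ * ∑ σ, W θ j σ * ((x : ℂ) - (y : ℂ) * θ σ)
      * (∏ ρ ∈ Finset.univ.erase σ, ((s : ℂ) + al θ a ρ)) ^ 2 := by
  have hp0 : (p : ℂ) ^ 2 ≠ 0 := pow_ne_zero _ (by exact_mod_cast hp.ne')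
  have h1 : (p : ℂ) ^ 2 * (β j : ℂ) = (x : ℂ) * (((PB j).eval s : ℤ) : ℂ)
      - (y : ℂ) * (((QB j).eval s : ℤ) : ℂ) := by
    have h2 := congrArg (Int.cast : ℤ → ℂ) (hS j)
    push_cast at h2
    exact h2
  have hP : (((PB j).eval s : ℤ) : ℂ) = ((PB j).map (Int.castRingHom ℂ)).eval (s : ℂ) := by
    rw [Polynomial.eval_intCast_map]; simp
  have hQ : (((QB j).eval s : ℤ) : ℂ) = ((QB j).map (Int.castRingHom ℂ)).eval (s : ℂ) := by
    rw [Polynomial.eval_intCast_map]; simp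
  rw [hP, hQ, h.P j, h.Q j, eval_finsetSum, eval_finsetSum, Finset.mul_sum, Finset.mul_sum,
    ← Finset.sum_sub_distrib] at h1
  have h3 : (β j : ℂ) = ((p : ℂ) ^ 2)⁻¹ * ((p : ℂ) ^ 2 * (β j : ℂ)) := by
    rw [inv_mul_cancel_left₀ hp0]
  rw [h3, h1]
  congr 1
  refine Finset.sum_congr rfl fun σ _ => ?_
  rw [eval_mul, eval_C, eval_pow, Psi_eval, eval_mul, eval_C, eval_mul, eval_C, eval_pow, Psi_eval]
  ring

/-- the determinant of `N` solutions of one window, arbitrary columns -/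
theorem det_windowF {ι : Type} [Fintype ι] [DecidableEq ι] (θ : Fin d → ℂ)
    (C0 : ℝ) (hC0 : 1 ≤ C0) (e : ι → ℕ) (jc : ι → Fin d) :
    ∃ C : ℝ, 1 ≤ C ∧ ∀ (X P H τ : ℝ), 1 ≤ X → 1 ≤ H → 0 < P →
      0 < τ → τ ≤ 1 →
      ∀ a : Fin d → ℤ, (∀ σ, ‖al θ a σ‖ ≤ C0 * H) → ∀ PB QB : Fin d → ℤ[X], PBQB θ a PB QB →
      ∀ (s x y : ι → ℤ) (p : ι → ℕ) (β : ι → (Fin d → ℤ)),
        (∀ i, |(s i : ℝ)| ≤ τ * H) → (∀ i, |(x i : ℝ)| ≤ X) → (∀ i, |(y i : ℝ)| ≤ X) →
        (∀ i, P < p i) → (∀ i, SolF PB QB (p i) (x i) (y i) (s i) (β i)) →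
        |((Matrix.det (Matrix.of fun i c => s i ^ e c * β i (jc c)) : ℤ) : ℝ)|
          ≤ (X * H ^ (2 * (d - 1)) / P ^ 2) ^ (Fintype.card ι) * H ^ (∑ c, e c) *
            (C * ∑ k ∈ Finset.range (Fintype.card ι + 1), τ ^ (k * (k - 1) / 2 +
              (Fintype.card ι - k) * (Fintype.card ι - k - 1) / 2)) := by
  classical
  obtain ⟨C1, hC1, hdet⟩ := det_bdF (W θ) θ C0 hC0 e jc
  refine ⟨C1, hC1, ?_⟩
  intro X P H τ hX hH hP hτ0 hτ1 a hz PB QB hPB s x y p β hs hx hy hp hsol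
  have hX0 : (0 : ℝ) < X := by linarith
  have hH0 : (0 : ℝ) < H := by linarith
  set A : Matrix ι ι ℤ := Matrix.of fun i c => s i ^ e c * β i (jc c) with hA
  set x' : ι → ℝ := fun i => (s i : ℝ) / H with hx'
  set u' : ι → ℝ := fun i => (x i : ℝ) / X with hu'
  set v' : ι → ℝ := fun i => (y i : ℝ) / X with hv'
  set z : Fin d → ℂ := fun ρ => al θ a ρ / (H : ℂ) with hzd
  set B : Matrix ι ι ℂ := Matrix.of fun i c : ι => (x' i : ℂ) ^ (e c) *
          ∑ σ, W θ (jc c) σ * ((u' i : ℂ) - (v' i : ℂ) * θ σ)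
            * (∏ ρ ∈ Finset.univ.erase σ, ((x' i : ℂ) + z ρ)) ^ 2 with hB
  have hBbd := hdet z (by
      intro ρ
      rw [hzd]
      simp only [norm_div, Complex.norm_real, Real.norm_eq_abs, abs_of_pos hH0]
      rw [div_le_iff₀ hH0]
      exact hz ρ) τ hτ0.le hτ1 x' u' v'
    (by
      intro i
      rw [hx']
      simp only [abs_div, abs_of_pos hH0]
      rw [div_le_iff₀ hH0]
      exact hs i)
    (by
      intro i
      rw [hu']
      simp only [abs_div, abs_of_pos hX0]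
      rw [div_le_one hX0]
      exact hx i)
    (by
      intro i
      rw [hv']
      simp only [abs_div, abs_of_pos hX0]
      rw [div_le_one hX0]
      exact hy i)
  rw [← hB] at hBbd
  set r : ι → ℂ := fun i => ((p i : ℂ) ^ 2)⁻¹ * ((X : ℂ) * (H : ℂ) ^ (2 * (d - 1))) with hr
  set c : ι → ℂ := fun j => (H : ℂ) ^ e j with hc
  have hHc : (H : ℂ) ≠ 0 := by exact_mod_cast hH0.ne'
  have hXc : (X : ℂ) ≠ 0 := by exact_mod_cast hX0.ne'
  have hpp : ∀ i, 0 < p i := by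
    intro i
    have : (0 : ℝ) < p i := hP.trans (hp i)
    exact_mod_cast this
  have hval : ∀ i j, (β i j : ℂ) = r i * ∑ σ, W θ j σ * ((u' i : ℂ) - (v' i : ℂ) * θ σ)
            * (∏ ρ ∈ Finset.univ.erase σ, ((x' i : ℂ) + z ρ)) ^ 2 := by
    intro i j
    rw [sol_valF hPB (hpp i) (hsol i) j, hr]
    simp only
    rw [mul_assoc]
    congr 1
    rw [Finset.mul_sum]
    apply Finset.sum_congr rfl
    intro σ _
    have h3 : ∏ ρ ∈ Finset.univ.erase σ, ((s i : ℂ) + al θ a ρ)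
        = (H : ℂ) ^ (d - 1) * ∏ ρ ∈ Finset.univ.erase σ, ((x' i : ℂ) + z ρ) := by
      have h4 : ∀ ρ ∈ Finset.univ.erase σ,
          ((s i : ℂ) + al θ a ρ) = (H : ℂ) * ((x' i : ℂ) + z ρ) := by
        intro ρ _
        rw [hx', hzd]
        push_cast
        field_simp
      rw [Finset.prod_congr rfl h4, Finset.prod_mul_distrib, Finset.prod_const,
        Finset.card_erase_of_mem (Finset.mem_univ _), Finset.card_univ, Fintype.card_fin]
    rw [h3]
    have h5 : ((x i : ℂ) - (y i : ℂ) * θ σ)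
        = (X : ℂ) * ((u' i : ℂ) - (v' i : ℂ) * θ σ) := by
      rw [hu', hv']
      push_cast
      field_simp
    rw [h5, pow_mul]
    ring
  have hAB : A.map (Int.cast : ℤ → ℂ)
      = Matrix.of fun i j => r i * (Matrix.of (fun i j => c j * B i j)) i j := by
    ext i j
    rw [Matrix.map_apply, Matrix.of_apply, Matrix.of_apply]
    rw [hA, hB, hc]
    simp only [Matrix.of_apply]
    have h6 : ((s i ^ e j * β i (jc j) : ℤ) : ℂ) = (s i : ℂ) ^ e j * (β i (jc j) : ℂ) := by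
      push_cast; ring
    have h7 : ((s i : ℤ) : ℂ) = (H : ℂ) * (x' i : ℂ) := by
      rw [hx']
      push_cast
      field_simp
    rw [h6, hval i (jc j), h7, mul_pow]
    ring
  have hdetA : ((A.det : ℤ) : ℂ) = (∏ i, r i) * ((∏ j, c j) * B.det) := by
    have h3 : ((A.det : ℤ) : ℂ) = (A.map (Int.cast : ℤ → ℂ)).det := by
      have := (Int.castRingHom ℂ).map_det A
      simpa [RingHom.mapMatrix_apply] using this
    rw [h3, hAB, Matrix.det_mul_column, Matrix.det_mul_row]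
  have hrn : ‖∏ i, r i‖ ≤ (X * H ^ (2 * (d - 1)) / P ^ 2) ^ (Fintype.card ι) := by
    rw [norm_prod]
    have h3 : ∀ i ∈ (Finset.univ : Finset ι), ‖r i‖ ≤ (X * H ^ (2 * (d - 1))) / P ^ 2 := by
      intro i _
      rw [hr]
      simp only [norm_mul, norm_inv, norm_pow, Complex.norm_real, Real.norm_eq_abs,
        Complex.norm_natCast, abs_of_pos hX0, abs_of_pos hH0]
      rw [div_eq_inv_mul]
      apply mul_le_mul_of_nonneg_right _ (by positivity)
      apply inv_anti₀ (by positivity)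
      exact pow_le_pow_left₀ hP.le (hp i).le 2
    refine (Finset.prod_le_prod (fun i _ => norm_nonneg _) h3).trans ?_
    rw [Finset.prod_const, Finset.card_univ]
  have hcn : ‖∏ j, c j‖ = H ^ (∑ j, e j) := by
    rw [hc, Finset.prod_pow_eq_pow_sum]
    simp [abs_of_pos hH0]
  have hnorm : ‖((A.det : ℤ) : ℂ)‖ = |((A.det : ℤ) : ℝ)| := by
    rw [Complex.norm_intCast]
  rw [← hnorm, hdetA, norm_mul, norm_mul, hcn]
  have h0 : 0 ≤ (X * H ^ (2 * (d - 1)) / P ^ 2) ^ (Fintype.card ι) := by positivity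
  calc ‖∏ i, r i‖ * (H ^ (∑ j, e j) * ‖B.det‖)
      ≤ (X * H ^ (2 * (d - 1)) / P ^ 2) ^ (Fintype.card ι) * (H ^ (∑ j, e j) *
        (C1 * ∑ k ∈ Finset.range (Fintype.card ι + 1), τ ^ (k * (k - 1) / 2 +
            (Fintype.card ι - k) * (Fintype.card ι - k - 1) / 2))) := by
        apply mul_le_mul hrn _ (by positivity) h0
        exact mul_le_mul_of_nonneg_left hBbd (by positivity)
    _ = _ := by ring

/-- the smallest exponent of `τ` -/
theorem ek_ge (d k : ℕ) (hk : k ≤ 2 * d) :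
    d * (d - 1) ≤ k * (k - 1) / 2 + (2 * d - k) * (2 * d - k - 1) / 2 := by
  obtain ⟨m, hm⟩ : ∃ m, 2 * d = k + m := ⟨2 * d - k, by omega⟩
  have h1 : 2 * d - k = m := by omega
  rw [h1]
  have e1 : k * (k - 1) % 2 = 0 := by
    rcases Nat.eq_zero_or_pos k with h | h
    · simp [h]
    · have := Nat.even_mul_pred_self k
      rw [Nat.even_iff] at this
      exact this
  have e2 : m * (m - 1) % 2 = 0 := by
    rcases Nat.eq_zero_or_pos m with h | h
    · simp [h]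
    · have := Nat.even_mul_pred_self m
      rw [Nat.even_iff] at this
      exact this
  have h2 : 2 * (d * (d - 1)) ≤ k * (k - 1) + m * (m - 1) := by
    have h3 : ∀ a : ℕ, ((a * (a - 1) : ℕ) : ℤ) = (a : ℤ) * a - a := by
      intro a
      rcases Nat.eq_zero_or_pos a with h | h
      · simp [h]
      · push_cast [Nat.cast_sub h]
        ring
    have h4 : (2 * (d : ℤ)) = k + m := by exact_mod_cast hm
    have h5 : ((2 * (d * (d - 1)) : ℕ) : ℤ) ≤ ((k * (k - 1) + m * (m - 1) : ℕ) : ℤ) := by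
      rw [Nat.cast_mul, Nat.cast_add, h3, h3, h3]
      push_cast
      have h6 : (4 : ℤ) * (d * d) = (k + m) * (k + m) := by rw [← h4]; ring
      nlinarith [sq_nonneg ((k : ℤ) - m)]
    exact_mod_cast h5
  omega

/-- the vector `(β, s β)` -/
def vecF (s : ℤ) (β : Fin d → ℤ) : Fin d ⊕ Fin d → ℤ := Sum.elim β (fun j => s * β j)

/-- a solution of the window -/
def WSolF (PB QB : Fin d → ℤ[X]) (X P H τ : ℝ) (s x y : ℤ) (β : Fin d → ℤ) : Prop :=
  |(s : ℝ)| ≤ τ * H ∧ |(x : ℝ)| ≤ X ∧ |(y : ℝ)| ≤ X ∧ ∃ p : ℕ, P < p ∧ SolF PB QB p x y s β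

/-- the determinant of `2d` solutions of one window is zero -/
theorem det_zeroF [NeZero d] (θ : Fin d → ℂ) (C0 : ℝ) (hC0 : 1 ≤ C0) :
    ∃ C : ℝ, 1 ≤ C ∧ ∀ (X P H τ : ℝ), 1 ≤ X → 1 ≤ H → 0 < P → H ^ d ≤ C0 * P →
      0 < τ → τ ≤ 1 → C * (X ^ (2 * d) * τ ^ (d * (d - 1))) < P ^ 3 →
      ∀ a : Fin d → ℤ, (∀ σ, ‖al θ a σ‖ ≤ C0 * H) → ∀ PB QB : Fin d → ℤ[X], PBQB θ a PB QB →
      ∀ (s x y : Fin d ⊕ Fin d → ℤ) (p : Fin d ⊕ Fin d → ℕ) (β : Fin d ⊕ Fin d → (Fin d → ℤ)),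
        (∀ i, |(s i : ℝ)| ≤ τ * H) → (∀ i, |(x i : ℝ)| ≤ X) → (∀ i, |(y i : ℝ)| ≤ X) →
        (∀ i, P < p i) → (∀ i, SolF PB QB (p i) (x i) (y i) (s i) (β i)) →
        Matrix.det (Matrix.of fun i => vecF (s i) (β i)) = 0 := by
  classical
  obtain ⟨C1, hC1, hdet⟩ := det_windowF (ι := Fin d ⊕ Fin d) θ C0 hC0
    (Sum.elim (fun _ => 0) (fun _ => 1)) (Sum.elim id id)
  have hd0 : 0 < d := Nat.pos_of_ne_zero (NeZero.ne d)
  have hK1 : (1 : ℝ) ≤ C1 * C0 ^ (4 * d - 3) :=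
    one_le_mul_of_one_le_of_one_le hC1 (one_le_pow₀ hC0)
  refine ⟨(2 * d + 1) * (C1 * C0 ^ (4 * d - 3)), ?_, ?_⟩
  · have h2 : (0 : ℝ) ≤ d := by positivity
    nlinarith
  intro X P H τ hX hH hP hHP hτ0 hτ1 hnum a hz PB QB hPB s x y p β hs hx hy hp hsol
  have hX0 : (0 : ℝ) < X := by linarith
  have hH0 : (0 : ℝ) < H := by linarith
  have hmat : (Matrix.of fun i => vecF (s i) (β i) : Matrix (Fin d ⊕ Fin d) (Fin d ⊕ Fin d) ℤ)
      = Matrix.of fun i c => s i ^ (Sum.elim (fun _ => 0) (fun _ => 1) c : ℕ)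
        * β i (Sum.elim id id c) := by
    ext i c
    rcases c with c | c
    · simp [vecF]
    · simp [vecF]
  have h1 := hdet X P H τ hX hH hP hτ0 hτ1 a hz PB QB hPB s x y p β hs hx hy hp hsol
  rw [← hmat] at h1
  have hcard : Fintype.card (Fin d ⊕ Fin d) = 2 * d := by
    rw [Fintype.card_sum, Fintype.card_fin]; ring
  have hE : ∑ c : Fin d ⊕ Fin d, (Sum.elim (fun _ => 0) (fun _ => 1) c : ℕ) = d := by
    rw [Fintype.sum_sum_type]; simp
  rw [hcard, hE] at h1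
  set S := ∑ k ∈ Finset.range (2 * d + 1),
    τ ^ (k * (k - 1) / 2 + (2 * d - k) * (2 * d - k - 1) / 2) with hS
  have hSle : S ≤ (2 * d + 1) * τ ^ (d * (d - 1)) := by
    have h2 : ∀ k ∈ Finset.range (2 * d + 1),
        τ ^ (k * (k - 1) / 2 + (2 * d - k) * (2 * d - k - 1) / 2) ≤ τ ^ (d * (d - 1)) := by
      intro k hk
      rw [Finset.mem_range] at hk
      exact pow_le_pow_of_le_one hτ0.le hτ1 (ek_ge d k (by omega))
    refine (Finset.sum_le_sum h2).trans ?_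
    rw [Finset.sum_const, Finset.card_range, nsmul_eq_mul]
    push_cast
    exact le_rfl
  have hexp : (X * H ^ (2 * (d - 1)) / P ^ 2) ^ (2 * d) * H ^ d
      ≤ X ^ (2 * d) * C0 ^ (4 * d - 3) / P ^ 3 := by
    have h3 : (H ^ (2 * (d - 1))) ^ (2 * d) * H ^ d = (H ^ d) ^ (4 * d - 3) := by
      rw [← pow_mul, ← pow_add, ← pow_mul]
      congr 1
      obtain ⟨e, rfl⟩ : ∃ e, d = e + 1 := ⟨d - 1, by omega⟩
      have : 4 * (e + 1) - 3 = 4 * e + 1 := by omega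
      rw [this]
      simp only [Nat.add_sub_cancel]
      ring
    have h4 : (P ^ 2) ^ (2 * d) = P ^ (4 * d - 3) * P ^ 3 := by
      rw [← pow_mul, ← pow_add]
      congr 1
      omega
    have h5 : (H ^ d) ^ (4 * d - 3) ≤ (C0 * P) ^ (4 * d - 3) :=
      pow_le_pow_left₀ (by positivity) hHP _
    rw [div_pow, mul_pow, h4, div_mul_eq_mul_div, mul_assoc, h3,
      div_le_div_iff₀ (by positivity) (by positivity)]
    calc X ^ (2 * d) * (H ^ d) ^ (4 * d - 3) * P ^ 3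
        ≤ X ^ (2 * d) * (C0 * P) ^ (4 * d - 3) * P ^ 3 := by
          gcongr
      _ = X ^ (2 * d) * C0 ^ (4 * d - 3) * (P ^ (4 * d - 3) * P ^ 3) := by
          rw [mul_pow]; ring
  have hfin : |((Matrix.det (Matrix.of fun i => vecF (s i) (β i)) : ℤ) : ℝ)| < 1 := by
    refine lt_of_le_of_lt h1 ?_
    have hC10 : (0 : ℝ) ≤ C1 := by linarith
    calc (X * H ^ (2 * (d - 1)) / P ^ 2) ^ (2 * d) * H ^ d * (C1 * S)
        ≤ (X ^ (2 * d) * C0 ^ (4 * d - 3) / P ^ 3) * (C1 * ((2 * d + 1) * τ ^ (d * (d - 1)))) := by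
          apply mul_le_mul hexp _ (by positivity) (by positivity)
          exact mul_le_mul_of_nonneg_left hSle hC10
      _ = ((2 * d + 1) * (C1 * C0 ^ (4 * d - 3)) * (X ^ (2 * d) * τ ^ (d * (d - 1)))) / P ^ 3 := by
          ring
      _ < 1 := by
          rw [div_lt_one (by positivity)]
          exact hnum
  have h9 : |Matrix.det (Matrix.of fun i => vecF (s i) (β i))| < 1 := by
    have h6 : ((|Matrix.det (Matrix.of fun i => vecF (s i) (β i))| : ℤ) : ℝ) < ((1 : ℤ) : ℝ) := by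
      rw [Int.cast_abs, Int.cast_one]
      exact hfin
    exact_mod_cast h6
  exact Int.abs_lt_one_iff.1 h9

end

end Pool.Agent.Lib.SqfH2
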