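import Pool.Agent.Lib.SqfH2.Rel
import Pool.Agent.Lib.Sqf4.Sieg
import Pool.Agent.Lib.Sqf4.WinN3

set_option autoImplicit false

/-!
Binary forms, first range (MP_8842b2_nt): the relation `x P(s) = y Q(s)` of one window.
-/

namespace Pool.Agent.Lib.SqfH2

open Polynomial Matrix Pool.Agent.Lib.Sqf4

noncomputable section

variable {d : ℕ}

/-- size of the vectors `(β, s β)` -/
lemma vecF_bound [NeZero d] (θ : Fin d → ℂ) (C0 : ℝ) (hC0 : 1 ≤ C0) :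
    ∃ C : ℝ, 1 ≤ C ∧ ∀ (X P H τ : ℝ), 1 ≤ X → 1 ≤ H → 1 ≤ P → P ≤ X ^ 3 → H ^ d ≤ C0 * P →
      0 < τ → τ ≤ 1 → ∀ a : Fin d → ℤ, (∀ σ, ‖al θ a σ‖ ≤ C0 * H) →
      ∀ PB QB : Fin d → ℤ[X], PBQB θ a PB QB →
      ∀ (s x y : ℤ) (β : Fin d → ℤ), WSolF PB QB X P H τ s x y β →
        ∀ c, |(vecF s β c : ℝ)| ≤ C * X ^ 10 := by
  have hd0 : 0 < d := Nat.pos_of_ne_zero (NeZero.ne d)
  set Wb : ℝ := ∑ j, ∑ σ, ‖W θ j σ‖ with hWb
  set Θ : ℝ := ∑ σ, ‖θ σ‖ with hΘ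
  have hWb0 : 0 ≤ Wb := Finset.sum_nonneg (fun _ _ => Finset.sum_nonneg (fun _ _ => norm_nonneg _))
  have hΘ0 : 0 ≤ Θ := Finset.sum_nonneg (fun _ _ => norm_nonneg _)
  have hWle : ∀ j σ, ‖W θ j σ‖ ≤ Wb := by
    intro j σ
    rw [hWb]
    refine le_trans ?_ (Finset.single_le_sum (f := fun j => ∑ σ, ‖W θ j σ‖)
      (fun _ _ => Finset.sum_nonneg (fun _ _ => norm_nonneg _)) (Finset.mem_univ j))
    exact Finset.single_le_sum (f := fun σ => ‖W θ j σ‖) (fun _ _ => norm_nonneg _) (Finset.mem_univ σ)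
  have hΘle : ∀ σ, ‖θ σ‖ ≤ Θ := fun σ =>
    Finset.single_le_sum (f := fun σ => ‖θ σ‖) (fun _ _ => norm_nonneg _) (Finset.mem_univ σ)
  set C3 : ℝ := (d + 1) * ((1 + Wb) * (1 + Θ) * (2 * C0) ^ (2 * d) * C0 ^ 2) with hC3
  have hC3' : 1 ≤ C3 := by
    have h1 : (1 : ℝ) ≤ (2 * C0) ^ (2 * d) := one_le_pow₀ (by linarith)
    have h2 : (1 : ℝ) ≤ (1 + Wb) * (1 + Θ) := by nlinarith [mul_nonneg hWb0 hΘ0]
    have h3 : (1 : ℝ) ≤ (1 + Wb) * (1 + Θ) * (2 * C0) ^ (2 * d) :=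
      one_le_mul_of_one_le_of_one_le h2 h1
    have h5 : (1 : ℝ) ≤ (1 + Wb) * (1 + Θ) * (2 * C0) ^ (2 * d) * C0 ^ 2 :=
      one_le_mul_of_one_le_of_one_le h3 (one_le_pow₀ hC0)
    have h4 : (1 : ℝ) ≤ d + 1 := by
      have : (0 : ℝ) ≤ d := by positivity
      linarith
    exact one_le_mul_of_one_le_of_one_le h4 h5
  refine ⟨C0 * C3, one_le_mul_of_one_le_of_one_le hC0 hC3', ?_⟩
  intro X P H τ hX hH hP hPX hHP hτ0 hτ1 a hz PB QB hPB s x y β hsol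
  obtain ⟨hs, hx, hy, p, hp, hsol⟩ := hsol
  have hX0 : (0 : ℝ) < X := by linarith
  have hH0 : (0 : ℝ) < H := by linarith
  have hHdX : H ^ d ≤ C0 * X ^ 3 := hHP.trans (by gcongr)
  have hHX : H ≤ C0 * X ^ 3 := (le_self_pow₀ hH hd0.ne').trans hHdX
  have hsH : |(s : ℝ)| ≤ H := hs.trans (by nlinarith)
  have hp0 : 0 < p := by
    have : (0 : ℝ) < p := by linarith
    exact_mod_cast this
  have hp1 : (1 : ℝ) ≤ p := by exact_mod_cast hp0
  have h2CH : (1 : ℝ) ≤ 2 * C0 * H := by nlinarith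
  have hprod : ∀ σ, ‖∏ ρ ∈ Finset.univ.erase σ, ((s : ℂ) + al θ a ρ)‖ ≤ (2 * C0 * H) ^ d := by
    intro σ
    rw [norm_prod]
    have h1 : ∀ ρ ∈ Finset.univ.erase σ, ‖((s : ℂ) + al θ a ρ)‖ ≤ 2 * C0 * H := by
      intro ρ _
      refine (norm_add_le _ _).trans ?_
      rw [Complex.norm_intCast]
      have := hz ρ
      nlinarith
    refine (Finset.prod_le_prod (fun _ _ => norm_nonneg _) h1).trans ?_
    rw [Finset.prod_const, Finset.card_erase_of_mem (Finset.mem_univ _), Finset.card_univ,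
      Fintype.card_fin]
    exact pow_le_pow_right₀ h2CH (by omega)
  have hsq : ((2 * C0 * H) ^ d) ^ 2 ≤ (2 * C0) ^ (2 * d) * C0 ^ 2 * X ^ 6 := by
    calc ((2 * C0 * H) ^ d) ^ 2 = (2 * C0) ^ (2 * d) * (H ^ d) ^ 2 := by
          rw [mul_pow, mul_pow, ← pow_mul, mul_comm d 2]
      _ ≤ (2 * C0) ^ (2 * d) * (C0 * X ^ 3) ^ 2 := by gcongr
      _ = _ := by ring
  have hβ : ∀ j, |(β j : ℝ)| ≤ C3 * X ^ 7 := by
    intro j
    have h1 := sol_valF hPB hp0 hsol j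
    have h2 : |(β j : ℝ)| = ‖(β j : ℂ)‖ := by rw [Complex.norm_intCast]
    rw [h2, h1, norm_mul]
    have h3 : ‖((p : ℂ) ^ 2)⁻¹‖ ≤ 1 := by
      rw [norm_inv, norm_pow, Complex.norm_natCast]
      apply inv_le_one_of_one_le₀
      exact one_le_pow₀ hp1
    have h4 : ‖∑ σ, W θ j σ * ((x : ℂ) - (y : ℂ) * θ σ)
        * (∏ ρ ∈ Finset.univ.erase σ, ((s : ℂ) + al θ a ρ)) ^ 2‖
        ≤ d * (Wb * ((1 + Θ) * X) * ((2 * C0) ^ (2 * d) * C0 ^ 2 * X ^ 6)) := by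
      refine (norm_sum_le _ _).trans ?_
      have h5 : ∀ σ ∈ (Finset.univ : Finset (Fin d)), ‖W θ j σ * ((x : ℂ) - (y : ℂ) * θ σ)
        * (∏ ρ ∈ Finset.univ.erase σ, ((s : ℂ) + al θ a ρ)) ^ 2‖
          ≤ Wb * ((1 + Θ) * X) * ((2 * C0) ^ (2 * d) * C0 ^ 2 * X ^ 6) := by
        intro σ _
        rw [norm_mul, norm_mul, norm_pow]
        apply mul_le_mul
        · apply mul_le_mul (hWle j σ) _ (norm_nonneg _) hWb0
          refine (norm_sub_le _ _).trans ?_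
          rw [norm_mul, Complex.norm_intCast, Complex.norm_intCast]
          have h6 := hΘle σ
          have h7 : |(y : ℝ)| * ‖θ σ‖ ≤ X * Θ := mul_le_mul hy h6 (norm_nonneg _) hX0.le
          linarith
        · exact (pow_le_pow_left₀ (norm_nonneg _) (hprod σ) 2).trans hsq
        · positivity
        · positivity
      refine (Finset.sum_le_sum h5).trans ?_
      rw [Finset.sum_const, Finset.card_univ, Fintype.card_fin, nsmul_eq_mul]
    calc ‖((p : ℂ) ^ 2)⁻¹‖ * ‖∑ σ, W θ j σ * ((x : ℂ) - (y : ℂ) * θ σ)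
        * (∏ ρ ∈ Finset.univ.erase σ, ((s : ℂ) + al θ a ρ)) ^ 2‖
        ≤ 1 * (d * (Wb * ((1 + Θ) * X) * ((2 * C0) ^ (2 * d) * C0 ^ 2 * X ^ 6))) :=
          mul_le_mul h3 h4 (norm_nonneg _) (by norm_num)
      _ = (d * (Wb * ((1 + Θ) * (2 * C0) ^ (2 * d) * C0 ^ 2))) * X ^ 7 := by ring
      _ ≤ C3 * X ^ 7 := by
          apply mul_le_mul_of_nonneg_right _ (by positivity)
          rw [hC3]
          have h8 : (0 : ℝ) ≤ (1 + Θ) * (2 * C0) ^ (2 * d) * C0 ^ 2 := by positivity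
          have h9 : (0 : ℝ) ≤ d := by positivity
          have h10 : Wb * ((1 + Θ) * (2 * C0) ^ (2 * d) * C0 ^ 2)
              ≤ (1 + Wb) * ((1 + Θ) * (2 * C0) ^ (2 * d) * C0 ^ 2) := by
            apply mul_le_mul_of_nonneg_right _ h8
            linarith
          calc d * (Wb * ((1 + Θ) * (2 * C0) ^ (2 * d) * C0 ^ 2))
              ≤ (d + 1) * ((1 + Wb) * ((1 + Θ) * (2 * C0) ^ (2 * d) * C0 ^ 2)) := by
                apply mul_le_mul (by linarith) h10 (by positivity) (by positivity)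
            _ = _ := by ring
  intro c
  rcases c with j | j
  · simp only [vecF, Sum.elim_inl]
    refine (hβ j).trans ?_
    have h1 : X ^ 7 ≤ X ^ 10 := pow_le_pow_right₀ hX (by omega)
    calc C3 * X ^ 7 ≤ 1 * C3 * X ^ 10 := by
          rw [one_mul]
          exact mul_le_mul_of_nonneg_left h1 (by linarith)
      _ ≤ C0 * C3 * X ^ 10 := by
          gcongr
  · simp only [vecF, Sum.elim_inr]
    push_cast
    rw [abs_mul]
    calc |(s : ℝ)| * |(β j : ℝ)| ≤ (C0 * X ^ 3) * (C3 * X ^ 7) :=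
          mul_le_mul (hsH.trans hHX) (hβ j) (abs_nonneg _) (by positivity)
      _ = C0 * C3 * X ^ 10 := by ring

/-- the common relation of a window -/
private theorem rel_windowF [NeZero d] (θ : Fin d → ℂ) (C0 : ℝ) (hC0 : 1 ≤ C0) :
    ∃ C : ℝ, 1 ≤ C ∧ ∃ B : ℕ, ∀ (X P H τ : ℝ), 1 ≤ X → 1 ≤ H → 1 ≤ P → P ≤ X ^ 3 →
      H ^ d ≤ C0 * P → 0 < τ → τ ≤ 1 → C * (X ^ (2 * d) * τ ^ (d * (d - 1))) < P ^ 3 →
      ∀ a : Fin d → ℤ, (∀ σ, ‖al θ a σ‖ ≤ C0 * H) →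
      ∀ PB QB : Fin d → ℤ[X], PBQB θ a PB QB →
      ∃ c e : Fin d → ℤ, (c ≠ 0 ∨ e ≠ 0) ∧ (∀ j, |(c j : ℝ)| ≤ C * X ^ B) ∧
        (∀ j, |(e j : ℝ)| ≤ C * X ^ B) ∧
        ∀ (s x y : ℤ) (β : Fin d → ℤ), WSolF PB QB X P H τ s x y β →
          ∑ j, (c j + s * e j) * β j = 0 := by
  classical
  have hd0 : 0 < d := Nat.pos_of_ne_zero (NeZero.ne d)
  haveI : Nonempty (Fin d ⊕ Fin d) := ⟨Sum.inl 0⟩
  obtain ⟨C1, hC1, hdet⟩ := det_zeroF θ C0 hC0
  obtain ⟨C2, hC2, hbd⟩ := vecF_bound θ C0 hC0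
  refine ⟨max C1 ((4 * d * C2) ^ (2 * d)), le_trans hC1 (le_max_left _ _), 10 * (2 * d), ?_⟩
  intro X P H τ hX hH hP hPX hHP hτ0 hτ1 hnum a hz PB QB hPB
  have hX0 : (0 : ℝ) < X := by linarith
  set K : ℕ := ⌈C2 * X ^ 10⌉₊ with hK
  have hKX : 1 ≤ C2 * X ^ 10 := one_le_mul_of_one_le_of_one_le hC2 (one_le_pow₀ hX)
  have hK1 : 1 ≤ K := by
    rw [hK]
    exact Nat.one_le_ceil_iff.mpr (by linarith)
  have hK2 : (K : ℝ) ≤ 2 * C2 * X ^ 10 := by
    have h1 := (Nat.ceil_lt_add_one (by linarith : 0 ≤ C2 * X ^ 10)).le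
    rw [← hK] at h1
    linarith
  set S : Set (Fin d ⊕ Fin d → ℤ) :=
    {v | ∃ s x y β, WSolF PB QB X P H τ s x y β ∧ v = vecF s β} with hS
  obtain ⟨g, hg0, hg1, hg2⟩ := exists_rel K hK1 S (by
      rintro v ⟨s, x, y, β, hs, rfl⟩ j
      have h1 := hbd X P H τ hX hH hP hPX hHP hτ0 hτ1 a hz PB QB hPB s x y β hs j
      have h2 : |(vecF s β j : ℝ)| ≤ K := h1.trans (Nat.le_ceil _)
      have h3 : ((|vecF s β j| : ℤ) : ℝ) ≤ ((K : ℤ) : ℝ) := by
        push_cast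
        exact h2
      exact_mod_cast h3)
    (by
      intro v hv
      choose s x y β hs hv' using hv
      have h1 : (Matrix.of v : Matrix (Fin d ⊕ Fin d) (Fin d ⊕ Fin d) ℤ)
          = Matrix.of fun i => vecF (s i) (β i) := by
        ext i j
        rw [Matrix.of_apply, Matrix.of_apply, hv' i]
      rw [h1]
      choose hs1 hs2 hs3 p hp1 hp2 using hs
      refine hdet X P H τ hX hH (by linarith) hHP hτ0 hτ1 ?_ a hz PB QB hPB s x y p β hs1 hs2 hs3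
        hp1 hp2
      refine lt_of_le_of_lt ?_ hnum
      exact mul_le_mul_of_nonneg_right (le_max_left _ _) (by positivity))
  refine ⟨fun j => g (Sum.inl j), fun j => g (Sum.inr j), ?_, ?_, ?_, ?_⟩
  · by_contra hcon
    push Not at hcon
    apply hg0
    funext c
    rcases c with j | j
    · exact congrFun hcon.1 j
    · exact congrFun hcon.2 j
  all_goals try
    intro j
    have hgen : ∀ j, |(g j : ℝ)| ≤ max C1 ((4 * d * C2) ^ (2 * d)) * X ^ (10 * (2 * d)) := by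
      intro j
      have h1 := hg1 j
      have h2 : ((|g j| : ℤ) : ℝ) ≤ (((((Fintype.card (Fin d ⊕ Fin d) * K : ℕ) : ℤ)
          ^ Fintype.card (Fin d ⊕ Fin d) : ℤ)) : ℝ) := by exact_mod_cast h1
      rw [Fintype.card_sum, Fintype.card_fin, ← two_mul] at h2
      push_cast at h2
      refine h2.trans ?_
      calc (2 * (d : ℝ) * K) ^ (2 * d) ≤ (2 * (d : ℝ) * (2 * C2 * X ^ 10)) ^ (2 * d) := by
            gcongr
        _ = (4 * d * C2) ^ (2 * d) * X ^ (10 * (2 * d)) := by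
            rw [pow_mul X, ← mul_pow]
            congr 1
            ring
        _ ≤ max C1 ((4 * d * C2) ^ (2 * d)) * X ^ (10 * (2 * d)) :=
            mul_le_mul_of_nonneg_right (le_max_right _ _) (by positivity)
    exact hgen _
  intro s x y β hs
  have h1 := hg2 (vecF s β) ⟨s, x, y, β, hs, rfl⟩
  rw [Fintype.sum_sum_type, ← Finset.sum_add_distrib] at h1
  rw [← h1]
  apply Finset.sum_congr rfl
  intro j _
  simp only [vecF, Sum.elim_inl, Sum.elim_inr]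
  ring

/-- the combination of a relation -/
def cmb (c e : Fin d → ℤ) (A : Fin d → ℤ[X]) : ℤ[X] := ∑ j, (C (c j) + X * C (e j)) * A j

theorem cmb_eval (c e : Fin d → ℤ) (A : Fin d → ℤ[X]) (s : ℤ) :
    (cmb c e A).eval s = ∑ j, (c j + s * e j) * (A j).eval s := by
  rw [cmb, eval_finsetSum]
  refine Finset.sum_congr rfl fun j _ => ?_
  simp

theorem cmb_natDegree (c e : Fin d → ℤ) (A : Fin d → ℤ[X]) (D : ℕ)
    (hA : ∀ j, (A j).natDegree ≤ D) : (cmb c e A).natDegree ≤ D + 1 := by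
  refine natDegree_sum_le_of_forall_le _ _ fun j _ => ?_
  refine natDegree_mul_le.trans ?_
  have h1 : (C (c j) + X * C (e j) : ℤ[X]).natDegree ≤ 1 := by
    refine (natDegree_add_le _ _).trans (max_le (by simp) ?_)
    refine natDegree_mul_le.trans ?_
    simp
  have := hA j
  omega

theorem cmb_coeff_bd (c e : Fin d → ℤ) (A : Fin d → ℤ[X]) (G M : ℝ) (hG : 0 ≤ G) (hM : 0 ≤ M)
    (hc : ∀ j, |(c j : ℝ)| ≤ G) (he : ∀ j, |(e j : ℝ)| ≤ G)
    (hA : ∀ j i, |((A j).coeff i : ℝ)| ≤ M) (i : ℕ) :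
    |((cmb c e A).coeff i : ℝ)| ≤ 2 * d * (G * M) := by
  rw [cmb, finsetSum_coeff]
  push_cast
  refine (Finset.abs_sum_le_sum_abs _ _).trans ?_
  have h1 : ∀ j ∈ (Finset.univ : Finset (Fin d)),
      |((((C (c j) + X * C (e j)) * A j).coeff i : ℤ) : ℝ)| ≤ 2 * (G * M) := by
    intro j _
    have h2 : (C (c j) + X * C (e j) : ℤ[X]) * A j = C (c j) * A j + C (e j) * (X * A j) := by ring
    rw [h2, coeff_add, coeff_C_mul, coeff_C_mul]
    push_cast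
    refine (abs_add_le _ _).trans ?_
    rw [abs_mul, abs_mul]
    have h3 : |(c j : ℝ)| * |((A j).coeff i : ℝ)| ≤ G * M :=
      mul_le_mul (hc j) (hA j i) (abs_nonneg _) hG
    have h4 : |(e j : ℝ)| * |((X * A j).coeff i : ℝ)| ≤ G * M := by
      refine mul_le_mul (he j) ?_ (abs_nonneg _) hG
      cases i with
      | zero => rw [coeff_X_mul_zero]; simpa using hM
      | succ i => rw [coeff_X_mul]; exact hA j i
    linarith
  refine (Finset.sum_le_sum h1).trans ?_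
  rw [Finset.sum_const, Finset.card_univ, Fintype.card_fin, nsmul_eq_mul]
  exact le_of_eq (by ring)

/-- THE RELATION `x P(s) = y Q(s)` of one window. -/
theorem windowF_PQ {f : ℤ[X]} [NeZero d] {θ : Fin d → ℂ} (h : Rts f d θ) (C0 : ℝ) (hC0 : 1 ≤ C0) :
    ∃ C : ℝ, 1 ≤ C ∧ ∃ B : ℕ, ∀ (X P H τ : ℝ), 1 ≤ X → 1 ≤ H → 1 ≤ P → P ≤ X ^ 3 →
      H ^ d ≤ C0 * P → 0 < τ → τ ≤ 1 → C * (X ^ (2 * d) * τ ^ (d * (d - 1))) < P ^ 3 →
      ∀ a : Fin d → ℤ, (∀ σ, ‖al θ a σ‖ ≤ C0 * H) → Function.Injective (al θ a) →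
      ∃ P1 Q1 : ℤ[X], P1 ≠ 0 ∧ P1.natDegree ≤ 2 * d ∧ Q1.natDegree ≤ 2 * d ∧
        (∀ i, |(P1.coeff i : ℝ)| ≤ C * X ^ B) ∧ (∀ i, |(Q1.coeff i : ℝ)| ≤ C * X ^ B) ∧
        ∀ (s x y n : ℤ) (p : ℕ) (β : Fin d → ℤ), |(s : ℝ)| ≤ τ * H → |(x : ℝ)| ≤ X →
          |(y : ℝ)| ≤ X → P < p → Sol θ p n (a + Pi.single 0 s) β → (p : ℤ) ^ 2 ∣ x - n * y →
          x * P1.eval s = y * Q1.eval s := by
  classical
  have hd0 : 0 < d := Nat.pos_of_ne_zero (NeZero.ne d)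
  obtain ⟨C1, hC1, B, hrel⟩ := rel_windowF θ C0 hC0
  set Wb : ℝ := ∑ j, ∑ σ, ‖W θ j σ‖ with hWb
  set Θ : ℝ := ∑ σ, ‖θ σ‖ with hΘ
  have hWb0 : 0 ≤ Wb := Finset.sum_nonneg (fun _ _ => Finset.sum_nonneg (fun _ _ => norm_nonneg _))
  have hΘ0 : 0 ≤ Θ := Finset.sum_nonneg (fun _ _ => norm_nonneg _)
  have hWle : ∀ j σ, ‖W θ j σ‖ ≤ Wb := by
    intro j σ
    rw [hWb]
    refine le_trans ?_ (Finset.single_le_sum (f := fun j => ∑ σ, ‖W θ j σ‖)
      (fun _ _ => Finset.sum_nonneg (fun _ _ => norm_nonneg _)) (Finset.mem_univ j))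
    exact Finset.single_le_sum (f := fun σ => ‖W θ j σ‖) (fun _ _ => norm_nonneg _) (Finset.mem_univ σ)
  have hΘle : ∀ σ, ‖θ σ‖ ≤ Θ := fun σ =>
    Finset.single_le_sum (f := fun σ => ‖θ σ‖) (fun _ _ => norm_nonneg _) (Finset.mem_univ σ)
  set C4 : ℝ := 2 * d * (C1 * (d * ((1 + Θ) * (Wb * ((2 * C0) ^ (2 * d) * C0 ^ 2))))) with hC4
  have hC40 : 0 ≤ C4 := by positivity
  refine ⟨C1 + C4, by linarith, B + 6, ?_⟩
  intro X P H τ hX hH hP hPX hHP hτ0 hτ1 hnum a hz hinj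
  have hX0 : (0 : ℝ) < X := by linarith
  have hH0 : (0 : ℝ) < H := by linarith
  obtain ⟨PB, QB, hPB⟩ := exists_PBQB h a
  obtain ⟨c, e, hce, hc, he, hsum⟩ := hrel X P H τ hX hH hP hPX hHP hτ0 hτ1 (by
    refine lt_of_le_of_lt ?_ hnum
    exact mul_le_mul_of_nonneg_right (by linarith) (by positivity)) a hz PB QB hPB
  have hZ : (1 + C0 * H) ^ (2 * d) ≤ (2 * C0) ^ (2 * d) * C0 ^ 2 * X ^ 6 := by
    have hHdX : H ^ d ≤ C0 * X ^ 3 := hHP.trans (by gcongr)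
    calc (1 + C0 * H) ^ (2 * d) ≤ (2 * C0 * H) ^ (2 * d) := by
          apply pow_le_pow_left₀ (by positivity)
          nlinarith
      _ = (2 * C0) ^ (2 * d) * (H ^ d) ^ 2 := by
          rw [mul_pow, mul_comm 2 d, ← pow_mul H]
      _ ≤ (2 * C0) ^ (2 * d) * (C0 * X ^ 3) ^ 2 := by gcongr
      _ = _ := by ring
  set M : ℝ := d * ((1 + Θ) * (Wb * ((2 * C0) ^ (2 * d) * C0 ^ 2 * X ^ 6))) with hM
  have hM0 : 0 ≤ M := by positivity
  have hbP : ∀ j i, |((PB j).coeff i : ℝ)| ≤ M := by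
    intro j i
    refine (hPB.coeff_P_bd Wb (C0 * H) (by positivity) hz hWb0 hWle j i).trans ?_
    rw [hM]
    apply mul_le_mul_of_nonneg_left _ (by positivity)
    have h1 : Wb * (1 + C0 * H) ^ (2 * d) ≤ Wb * ((2 * C0) ^ (2 * d) * C0 ^ 2 * X ^ 6) :=
      mul_le_mul_of_nonneg_left hZ hWb0
    have h2 : 0 ≤ Wb * ((2 * C0) ^ (2 * d) * C0 ^ 2 * X ^ 6) := by positivity
    nlinarith
  have hbQ : ∀ j i, |((QB j).coeff i : ℝ)| ≤ M := by
    intro j i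
    refine (hPB.coeff_Q_bd Wb (C0 * H) Θ (by positivity) hz hWb0 hWle hΘ0 hΘle j i).trans ?_
    rw [hM]
    apply mul_le_mul_of_nonneg_left _ (by positivity)
    apply mul_le_mul (by linarith) _ (by positivity) (by positivity)
    exact mul_le_mul_of_nonneg_left hZ hWb0
  have hG0 : 0 ≤ C1 * X ^ B := by positivity
  have hlast : 2 * d * (C1 * X ^ B * M) ≤ (C1 + C4) * X ^ (B + 6) := by
    calc 2 * d * (C1 * X ^ B * M) = C4 * X ^ (B + 6) := by
          rw [hM, hC4, pow_add]; ring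
      _ ≤ (C1 + C4) * X ^ (B + 6) := by
          apply mul_le_mul_of_nonneg_right _ (by positivity)
          linarith
  have hdegP : ∀ j, (PB j).natDegree ≤ 2 * (d - 1) := hPB.natDegree_P
  have hdegQ : ∀ j, (QB j).natDegree ≤ 2 * (d - 1) := hPB.natDegree_Q
  refine ⟨cmb c e PB, cmb c e QB, ?_, ?_, ?_, ?_, ?_, ?_⟩
  · intro h0
    obtain ⟨h1, h2⟩ := hPB.level_one h.inj hinj c e h0
    rcases hce with h3 | h3
    · exact h3 h1
    · exact h3 h2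
  · have := cmb_natDegree c e PB _ hdegP
    omega
  · have := cmb_natDegree c e QB _ hdegQ
    omega
  · intro i
    exact (cmb_coeff_bd c e PB _ M hG0 hM0 hc he hbP i).trans hlast
  · intro i
    exact (cmb_coeff_bd c e QB _ M hG0 hM0 hc he hbQ i).trans hlast
  · intro s x y n p β hs hx hy hp hsol hdvd
    obtain ⟨k, hk⟩ := hdvd
    have h1 := hsum s x y (fun j => y * β j + k * (PB j).eval s) ⟨hs, hx, hy, p, hp, by
      intro j
      have h2 := hPB.rel h.inj hsol j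
      simp only
      linear_combination y * h2 - (PB j).eval s * hk⟩
    rw [cmb_eval, cmb_eval]
    have hp0 : (p : ℤ) ^ 2 ≠ 0 := by
      have : (0 : ℝ) < p := by linarith
      have h3 : p ≠ 0 := by
        intro h4
        rw [h4] at this
        simp at this
      exact pow_ne_zero _ (by exact_mod_cast h3)
    have h4 : (p : ℤ) ^ 2 * ∑ j, (c j + s * e j) * (y * β j + k * (PB j).eval s) = 0 := by
      rw [h1, mul_zero]
    have h5 : (p : ℤ) ^ 2 * ∑ j, (c j + s * e j) * (y * β j + k * (PB j).eval s)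
        = x * ∑ j, (c j + s * e j) * (PB j).eval s - y * ∑ j, (c j + s * e j) * (QB j).eval s := by
      rw [Finset.mul_sum, Finset.mul_sum, Finset.mul_sum, ← Finset.sum_sub_distrib]
      refine Finset.sum_congr rfl fun j _ => ?_
      have h2 := hPB.rel h.inj hsol j
      linear_combination (c j + s * e j) * (y * h2 - (PB j).eval s * hk)
    rw [h4] at h5
    linarith

end

end Pool.Agent.Lib.SqfH2
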